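import Pool.Agent.Helper242.KK.Bound

set_option autoImplicit false

/-!
# The window bound for the Dirichlet series in terms of `Ξ_{-μ}` on a horizontal line
-/

namespace Pool.Agent.T6.H61.KK

open Complex MeasureTheory Filter Topology Pool.Agent.Helper242.KK

/-- window bound with a tilt `c` -/
theorem window_bound_h {μ θ : ℝ} (hμ : 0 < μ) (hθ : 0 < θ) (hθ1 : θ < 1) {q : ℂ → ℂ}
    (hqb : ∀ ε : ℝ, 0 < ε → ∃ C : ℝ, 0 < C ∧ ∀ x r : ℝ, ‖q (x + r * I)‖ ≤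
      C * Real.exp (ε * r ^ 2) * (1 + |x|) ^ (3 / 4 + r / 2) * Real.exp (Real.pi / 4 * |x|)) :
    ∃ C X : ℝ, 0 < C ∧ 1 ≤ X ∧ ∀ (f : ℝ → ℂ) (C₁ : ℝ), Continuous f →
      (∀ x : ℝ, ‖f x‖ * Real.exp (Real.pi / 4 * |x|) ≤ C₁ * (1 + |x|) ^ 3) →
      ∀ c x₀ b : ℝ, X ≤ x₀ → 0 ≤ b → b ≤ Real.log x₀ →
      ‖∫ r : ℝ, (Real.exp (-r ^ 2 / (4 * μ) + c * r) : ℂ) *
        ∫ x : ℝ, f x * q (x + r * I) * gk μ b x₀ (x + (3 / 2 + r) * I)‖ ≤
      C * x₀ * Real.exp (2 * μ * (1 + θ) * (Real.log x₀ / 2 - b + c) ^ 2) *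
        ∫ x : ℝ, ‖f x‖ * Real.exp (Real.pi / 4 * |x|) *
          Real.exp (-(1 - θ) * (x - x₀) ^ 2 / (8 * μ)) := by
  obtain ⟨m, hm⟩ : ∃ m, m = 1 / (8 * μ) := ⟨_, rfl⟩
  obtain ⟨D, hD⟩ : ∃ D, D = m * θ / (1 + θ) := ⟨_, rfl⟩
  have hm0 : 0 < m := by rw [hm]; positivity
  have hD0 : 0 < D := by rw [hD]; positivity
  have hDm : D ≤ m * θ := by
    rw [hD]
    apply div_le_self (by positivity)
    linarith
  have ha0 : 0 < m - D := by
    have : m * θ < m := by nlinarith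
    linarith
  have haeq : m - D = 1 / (8 * μ * (1 + θ)) := by
    rw [hD, hm]
    field_simp
    ring
  obtain ⟨Cq, hCq, hq'⟩ := hqb (D / 3) (by positivity)
  obtain ⟨X1, hX1⟩ := eventually_atTop.1 (Real.isLittleO_log_id_atTop.def
    (show (0 : ℝ) < D / 6 by positivity))
  obtain ⟨C0, hC0⟩ : ∃ C0, C0 = 3 / 4 + D / 8 + 9 * m / 4 + 3 * (1 / 2 + 3 * m) ^ 2 / (4 * D) :=
    ⟨_, rfl⟩
  refine ⟨Cq * Real.exp C0 * Real.sqrt (Real.pi / (m - D)), max X1 (Real.exp 1), by positivity,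
    (Real.one_le_exp (by norm_num)).trans (le_max_right _ _),
    fun f C₁ hf hfb c x₀ b hx₀ hb hbL => ?_⟩
  have hxe : Real.exp 1 ≤ x₀ := (le_max_right _ _).trans hx₀
  have hx0 : 0 < x₀ := (Real.exp_pos 1).trans_le hxe
  have hL1 : 1 ≤ Real.log x₀ := by
    rw [Real.le_log_iff_exp_le hx0]; exact hxe
  have hlog := hX1 x₀ ((le_max_left _ _).trans hx₀)
  rw [Real.norm_of_nonneg (by linarith), id, Real.norm_of_nonneg hx0.le] at hlog
  have hκD : 2 * Real.log x₀ / x₀ ≤ D / 3 := by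
    rw [div_le_iff₀ hx0]
    linarith
  have hκ0 : 0 ≤ 2 * Real.log x₀ / x₀ := by positivity
  -- pointwise bound
  have hpt : ∀ x r : ℝ, ‖q (x + r * I)‖ * ‖gk μ b x₀ (x + (3 / 2 + r) * I)‖ ≤
      (Cq * Real.exp C0 * Real.exp (3 / 4 * Real.log x₀) *
        Real.exp (r * (Real.log x₀ / 2 - b) - (m - D) * r ^ 2) * Real.exp (r ^ 2 / (4 * μ))) *
      (Real.exp (Real.pi / 4 * |x|) * Real.exp (-(1 - θ) * (x - x₀) ^ 2 / (8 * μ))) := by
    intro x r
    have h1 : ((x : ℂ) + (3 / 2 + r) * I) = (x : ℂ) + ((3 / 2 + r : ℝ) : ℂ) * I := by push_cast; ring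
    rw [h1, WB.norm_gk]
    have hx1 : (0 : ℝ) < 1 + |x| := by positivity
    have h2 := hq' x r
    rw [Real.rpow_def_of_pos hx1] at h2
    have h3 := WB.expo (L := Real.log x₀) (r := r) hm0 hD0 hDm hκ0 hκD (WB.log_bound (x := x) hxe) hb
    rw [add_sub_cancel] at h3
    refine (mul_le_mul_of_nonneg_right h2 (Real.exp_pos _).le).trans ?_
    have h4 : Cq * Real.exp (D / 3 * r ^ 2) * Real.exp (Real.log (1 + |x|) * (3 / 4 + r / 2)) *
        Real.exp (Real.pi / 4 * |x|) *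
        Real.exp (-((x - x₀) ^ 2 - (3 / 2 + r) ^ 2) / (8 * μ) - b * (3 / 2 + r)) =
        Cq * Real.exp (Real.pi / 4 * |x|) * Real.exp (D / 3 * r ^ 2 +
          Real.log (1 + |x|) * (3 / 4 + r / 2) +
          (-((x - x₀) ^ 2 - (3 / 2 + r) ^ 2) / (8 * μ) - b * (3 / 2 + r))) := by
      rw [Real.exp_add, Real.exp_add]
      ring
    have h5 : (Cq * Real.exp C0 * Real.exp (3 / 4 * Real.log x₀) *
        Real.exp (r * (Real.log x₀ / 2 - b) - (m - D) * r ^ 2) * Real.exp (r ^ 2 / (4 * μ))) *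
      (Real.exp (Real.pi / 4 * |x|) * Real.exp (-(1 - θ) * (x - x₀) ^ 2 / (8 * μ))) =
      Cq * Real.exp (Real.pi / 4 * |x|) * Real.exp (C0 + 3 / 4 * Real.log x₀ +
        (r * (Real.log x₀ / 2 - b) - (m - D) * r ^ 2) + r ^ 2 / (4 * μ) +
        -(1 - θ) * (x - x₀) ^ 2 / (8 * μ)) := by
      rw [Real.exp_add, Real.exp_add, Real.exp_add, Real.exp_add]
      ring
    rw [h4, h5]
    apply mul_le_mul_of_nonneg_left _ (by positivity)
    apply Real.exp_le_exp.2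
    have e1 : r ^ 2 / (4 * μ) = 2 * m * r ^ 2 := by rw [hm]; field_simp; try ring
    have e2 : -(1 - θ) * (x - x₀) ^ 2 / (8 * μ) = -((m - m * θ) * (x - x₀) ^ 2) := by
      rw [hm]; field_simp; try ring
    have e3 : -((x - x₀) ^ 2 - (3 / 2 + r) ^ 2) / (8 * μ) =
      -(m * ((x - x₀) ^ 2 - (3 / 2 + r) ^ 2)) := by rw [hm]; field_simp
    rw [e1, e2, e3, hC0]
    linarith
  -- integrability
  have hβ : 0 < (1 - θ) / (8 * μ) := by
    have : 0 < 1 - θ := by linarith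
    positivity
  have hJ : Integrable (fun x : ℝ => ‖f x‖ * Real.exp (Real.pi / 4 * |x|) *
      Real.exp (-(1 - θ) * (x - x₀) ^ 2 / (8 * μ))) := by
    refine (WB.integ hf hfb hβ x₀).congr (Eventually.of_forall fun x => ?_)
    simp only
    congr 2
    ring
  obtain ⟨J, hJd⟩ : ∃ J, J = ∫ x : ℝ, ‖f x‖ * Real.exp (Real.pi / 4 * |x|) *
      Real.exp (-(1 - θ) * (x - x₀) ^ 2 / (8 * μ)) := ⟨_, rfl⟩
  have hJ0 : 0 ≤ J := by
    rw [hJd]
    exact integral_nonneg fun x => by positivity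
  rw [← hJd]
  obtain ⟨K, hK⟩ : ∃ K, K = Cq * Real.exp C0 * Real.exp (3 / 4 * Real.log x₀) := ⟨_, rfl⟩
  have hK0 : 0 < K := by rw [hK]; positivity
  have hinner : ∀ r : ℝ, ‖∫ x : ℝ, f x * q (x + r * I) * gk μ b x₀ (x + (3 / 2 + r) * I)‖ ≤
      (K * Real.exp (r * (Real.log x₀ / 2 - b) - (m - D) * r ^ 2) *
        Real.exp (r ^ 2 / (4 * μ))) * J := by
    intro r
    rw [hJd, ← integral_const_mul]
    refine norm_integral_le_of_norm_le (hJ.const_mul _) (Eventually.of_forall fun x => ?_)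
    rw [norm_mul, norm_mul, mul_assoc]
    refine (mul_le_mul_of_nonneg_left (hpt x r) (norm_nonneg _)).trans (le_of_eq ?_)
    rw [← hK]
    ring
  have houter : ‖∫ r : ℝ, (Real.exp (-r ^ 2 / (4 * μ) + c * r) : ℂ) *
        ∫ x : ℝ, f x * q (x + r * I) * gk μ b x₀ (x + (3 / 2 + r) * I)‖ ≤
      ∫ r : ℝ, (K * J) * Real.exp (r * (Real.log x₀ / 2 - b + c) - (m - D) * r ^ 2) := by
    refine norm_integral_le_of_norm_le ((WB.gauss_integrable ha0 _).const_mul _)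
      (Eventually.of_forall fun r => ?_)
    rw [norm_mul, Complex.norm_real, Real.norm_of_nonneg (Real.exp_pos _).le]
    refine (mul_le_mul_of_nonneg_left (hinner r) (Real.exp_pos _).le).trans (le_of_eq ?_)
    have h1 : Real.exp (-r ^ 2 / (4 * μ) + c * r) *
        ((K * Real.exp (r * (Real.log x₀ / 2 - b) - (m - D) * r ^ 2) *
        Real.exp (r ^ 2 / (4 * μ))) * J) = K * J * (Real.exp (-r ^ 2 / (4 * μ) + c * r) *
        Real.exp (r * (Real.log x₀ / 2 - b) - (m - D) * r ^ 2) *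
        Real.exp (r ^ 2 / (4 * μ))) := by ring
    rw [h1, ← Real.exp_add, ← Real.exp_add]
    congr 2
    ring
  refine houter.trans ?_
  rw [integral_const_mul, WB.gauss_integral ha0]
  have h1 : (Real.log x₀ / 2 - b + c) ^ 2 / (4 * (m - D)) =
      2 * μ * (1 + θ) * (Real.log x₀ / 2 - b + c) ^ 2 := by
    rw [haeq]
    field_simp
    ring
  rw [h1]
  have h2 : Real.exp (3 / 4 * Real.log x₀) ≤ x₀ := by
    calc Real.exp (3 / 4 * Real.log x₀) ≤ Real.exp (Real.log x₀) := by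
          apply Real.exp_le_exp.2
          linarith
      _ = x₀ := Real.exp_log hx0
  have h3 : K ≤ Cq * Real.exp C0 * x₀ := by
    rw [hK]
    exact mul_le_mul_of_nonneg_left h2 (by positivity)
  have h4 : 0 ≤ J * (Real.sqrt (Real.pi / (m - D)) *
    Real.exp (2 * μ * (1 + θ) * (Real.log x₀ / 2 - b + c) ^ 2)) := by positivity
  have h5 := mul_le_mul_of_nonneg_right h3 h4
  linarith

lemma win_int {b : ℝ} (hb : 0 < b) :
    Integrable (fun y : ℝ => (1 + |y|) ^ 3 * Real.exp (-b * y ^ 2)) := by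
  have h1 : Integrable (fun y : ℝ => Real.exp (-b * y ^ 2)) := integrable_exp_neg_mul_sq hb
  have h2 : Integrable (fun y : ℝ => y ^ (4 : ℝ) * Real.exp (-b * y ^ 2)) :=
    integrable_rpow_mul_exp_neg_mul_sq hb (by norm_num)
  have h3 : Integrable (fun y : ℝ => 8 * (Real.exp (-b * y ^ 2) + y ^ (4 : ℝ) * Real.exp (-b * y ^ 2))) :=
    (h1.add h2).const_mul 8
  refine Integrable.mono' h3 (by fun_prop) (Eventually.of_forall fun y => ?_)
  have hE := Real.exp_pos (-b * y ^ 2)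
  rw [Real.norm_of_nonneg (by positivity)]
  have e : y ^ (4 : ℝ) = y ^ 4 := by
    rw [show (4 : ℝ) = ((4 : ℕ) : ℝ) by norm_num, Real.rpow_natCast]
  rw [e]
  have h4 : (1 + |y|) ^ 3 ≤ 8 * (1 + y ^ 4) := by
    have h5 : y ^ 4 = |y| ^ 4 := by rw [← abs_pow, abs_of_nonneg (by positivity)]
    rw [h5]
    have h6 := abs_nonneg y
    set t := |y|
    rcases le_total t 1 with h | h
    · have : (1 + t) ^ 3 ≤ 2 ^ 3 := pow_le_pow_left₀ (by positivity) (by linarith) 3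
      have h7 : 0 ≤ t ^ 4 := by positivity
      linarith
    · have h7 : (1 + t) ^ 3 ≤ (2 * t) ^ 3 := pow_le_pow_left₀ (by positivity) (by linarith) 3
      have h8 : t ^ 3 ≤ t ^ 4 := pow_le_pow_right₀ h (by norm_num)
      nlinarith
  nlinarith

/-- from the integral to the window, uniformly in the function -/
theorem window_cor_h {μ θ C₁ C₂ : ℝ} (hμ : 0 < μ) (hθ : 0 < θ) (hθ1 : θ < 1) (hC₁ : 0 ≤ C₁)
    (hC₂ : 0 < C₂) :
    ∃ C : ℝ, 0 < C ∧ ∀ (f : ℝ → ℂ) (D G x₀ ρ m : ℝ),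
      (∀ x : ℝ, ‖f x‖ * Real.exp (Real.pi / 4 * |x|) ≤ C₁ * (1 + |x|) ^ 3) →
      1 ≤ x₀ → 0 ≤ G → D ≤ C₂ * x₀ * G *
        ∫ x : ℝ, ‖f x‖ * Real.exp (Real.pi / 4 * |x|) *
          Real.exp (-(1 - θ) * (x - x₀) ^ 2 / (8 * μ)) → 0 ≤ ρ → 0 ≤ m →
      (∀ x : ℝ, |x - x₀| ≤ ρ → ‖f x‖ * Real.exp (Real.pi / 4 * |x|) ≤ m) →
      D ≤ C * x₀ ^ 4 * G * (m + Real.exp (-(1 - θ) ^ 2 * ρ ^ 2 / (8 * μ))) := by
  set β₁ : ℝ := (1 - θ) / (8 * μ) with hβ₁
  set β₂ : ℝ := θ * (1 - θ) / (8 * μ) with hβ₂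
  have hθ' : 0 < 1 - θ := by linarith
  have hβ₁0 : 0 < β₁ := by positivity
  have hβ₂0 : 0 < β₂ := by positivity
  set I₁ : ℝ := ∫ y : ℝ, Real.exp (-β₁ * y ^ 2) with hI₁
  set I₂ : ℝ := ∫ y : ℝ, (1 + |y|) ^ 3 * Real.exp (-β₂ * y ^ 2) with hI₂
  have hI₁0 : 0 ≤ I₁ := integral_nonneg fun y => (Real.exp_pos _).le
  have hI₂0 : 0 ≤ I₂ := integral_nonneg fun y => by positivity
  have hi1 : Integrable (fun y : ℝ => Real.exp (-β₁ * y ^ 2)) := integrable_exp_neg_mul_sq hβ₁0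
  have hi2 := win_int hβ₂0
  refine ⟨C₂ * (I₁ + 8 * C₁ * I₂) + 1, by positivity, ?_⟩
  intro f D G x₀ ρ m hfb hx1 hG0 h7 hρ hm hmx
  set E : ℝ := Real.exp (-(1 - θ) ^ 2 * ρ ^ 2 / (8 * μ)) with hE
  have hE0 : 0 < E := Real.exp_pos _
  have hint : ∫ x : ℝ, ‖f x‖ * Real.exp (Real.pi / 4 * |x|) *
      Real.exp (-(1 - θ) * (x - x₀) ^ 2 / (8 * μ)) ≤ m * I₁ + 8 * C₁ * x₀ ^ 3 * E * I₂ := by
    have hi3 : Integrable (fun x : ℝ => m * Real.exp (-β₁ * (x - x₀) ^ 2) +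
        8 * C₁ * x₀ ^ 3 * E * ((1 + |x - x₀|) ^ 3 * Real.exp (-β₂ * (x - x₀) ^ 2))) :=
      ((hi1.comp_sub_right x₀).const_mul m).add ((hi2.comp_sub_right x₀).const_mul _)
    have hval : ∫ x : ℝ, (m * Real.exp (-β₁ * (x - x₀) ^ 2) +
        8 * C₁ * x₀ ^ 3 * E * ((1 + |x - x₀|) ^ 3 * Real.exp (-β₂ * (x - x₀) ^ 2))) =
        m * I₁ + 8 * C₁ * x₀ ^ 3 * E * I₂ := by
      rw [integral_add ((hi1.comp_sub_right x₀).const_mul m) ((hi2.comp_sub_right x₀).const_mul _),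
        integral_const_mul, integral_const_mul]
      rw [integral_sub_right_eq_self (fun y : ℝ => Real.exp (-β₁ * y ^ 2)) x₀,
        integral_sub_right_eq_self (fun y : ℝ => (1 + |y|) ^ 3 * Real.exp (-β₂ * y ^ 2)) x₀]
    rw [← hval]
    refine integral_mono_of_nonneg (Eventually.of_forall fun x => by positivity) hi3
      (Eventually.of_forall fun x => ?_)
    simp only
    have hexp1 : Real.exp (-(1 - θ) * (x - x₀) ^ 2 / (8 * μ)) = Real.exp (-β₁ * (x - x₀) ^ 2) := by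
      congr 1; rw [hβ₁]; ring
    rw [hexp1]
    have hnn : 0 ≤ Real.exp (-β₁ * (x - x₀) ^ 2) := (Real.exp_pos _).le
    rcases le_or_gt |x - x₀| ρ with h | h
    · have h1 := mul_le_mul_of_nonneg_right (hmx x h) hnn
      have h2 : 0 ≤ 8 * C₁ * x₀ ^ 3 * E * ((1 + |x - x₀|) ^ 3 * Real.exp (-β₂ * (x - x₀) ^ 2)) := by
        positivity
      linarith
    · have h1 : 0 ≤ m * Real.exp (-β₁ * (x - x₀) ^ 2) := by positivity
      have h2 : ‖f x‖ * Real.exp (Real.pi / 4 * |x|) ≤ 8 * C₁ * x₀ ^ 3 * (1 + |x - x₀|) ^ 3 := by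
        refine (hfb x).trans ?_
        have h3 : 1 + |x| ≤ 2 * x₀ * (1 + |x - x₀|) := by
          have h4 : |x| ≤ x₀ + |x - x₀| := by
            calc |x| = |x₀ + (x - x₀)| := by ring_nf
              _ ≤ |x₀| + |x - x₀| := abs_add_le _ _
              _ = x₀ + |x - x₀| := by rw [abs_of_pos (by linarith)]
          have h5 := abs_nonneg (x - x₀)
          nlinarith
        have h6 : (1 + |x|) ^ 3 ≤ (2 * x₀ * (1 + |x - x₀|)) ^ 3 :=
          pow_le_pow_left₀ (by positivity) h3 3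
        calc C₁ * (1 + |x|) ^ 3 ≤ C₁ * (2 * x₀ * (1 + |x - x₀|)) ^ 3 :=
              mul_le_mul_of_nonneg_left h6 hC₁
          _ = _ := by ring
      have h3 : Real.exp (-β₁ * (x - x₀) ^ 2) ≤ E * Real.exp (-β₂ * (x - x₀) ^ 2) := by
        rw [hE, ← Real.exp_add]
        refine Real.exp_le_exp.2 ?_
        have h4 : ρ ^ 2 ≤ (x - x₀) ^ 2 := by
          rw [← sq_abs (x - x₀)]
          exact pow_le_pow_left₀ hρ h.le 2
        have h5 : -β₁ * (x - x₀) ^ 2 - (-(1 - θ) ^ 2 * ρ ^ 2 / (8 * μ) + -β₂ * (x - x₀) ^ 2) =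
            -((1 - θ) ^ 2 / (8 * μ) * ((x - x₀) ^ 2 - ρ ^ 2)) := by
          rw [hβ₁, hβ₂]
          field_simp
          ring
        have h6 : 0 ≤ (1 - θ) ^ 2 / (8 * μ) * ((x - x₀) ^ 2 - ρ ^ 2) :=
          mul_nonneg (by positivity) (by linarith)
        linarith
      calc ‖f x‖ * Real.exp (Real.pi / 4 * |x|) * Real.exp (-β₁ * (x - x₀) ^ 2) ≤
          (8 * C₁ * x₀ ^ 3 * (1 + |x - x₀|) ^ 3) * (E * Real.exp (-β₂ * (x - x₀) ^ 2)) :=
            mul_le_mul h2 h3 hnn (by positivity)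
        _ = 8 * C₁ * x₀ ^ 3 * E * ((1 + |x - x₀|) ^ 3 * Real.exp (-β₂ * (x - x₀) ^ 2)) := by ring
        _ ≤ _ := by linarith
  refine h7.trans ?_
  have hx0 : 0 < x₀ := by linarith
  have h8 : C₂ * x₀ * G * ∫ x : ℝ, ‖f x‖ * Real.exp (Real.pi / 4 * |x|) *
      Real.exp (-(1 - θ) * (x - x₀) ^ 2 / (8 * μ)) ≤
      C₂ * x₀ * G * (m * I₁ + 8 * C₁ * x₀ ^ 3 * E * I₂) :=
    mul_le_mul_of_nonneg_left hint (by positivity)
  refine h8.trans ?_
  have hx3 : 1 ≤ x₀ ^ 3 := one_le_pow₀ hx1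
  have h9 : m * I₁ + 8 * C₁ * x₀ ^ 3 * E * I₂ ≤ x₀ ^ 3 * ((I₁ + 8 * C₁ * I₂) * (m + E)) := by
    have a1 : m * I₁ ≤ x₀ ^ 3 * (I₁ * m) := by
      have : 0 ≤ I₁ * m := by positivity
      nlinarith
    have a2 : 0 ≤ x₀ ^ 3 * (I₁ * E + 8 * C₁ * I₂ * m) := by positivity
    nlinarith
  calc C₂ * x₀ * G * (m * I₁ + 8 * C₁ * x₀ ^ 3 * E * I₂) ≤
      C₂ * x₀ * G * (x₀ ^ 3 * ((I₁ + 8 * C₁ * I₂) * (m + E))) :=
        mul_le_mul_of_nonneg_left h9 (by positivity)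
    _ = (C₂ * (I₁ + 8 * C₁ * I₂)) * x₀ ^ 4 * G * (m + E) := by ring
    _ ≤ (C₂ * (I₁ + 8 * C₁ * I₂) + 1) * x₀ ^ 4 * G * (m + E) := by
        gcongr
        linarith

/-- shift of the inner line of integration to the height `a` -/
theorem shift_inner {μ : ℝ} (b x₀ a r : ℝ) (hμ : 0 < μ) {f q : ℂ → ℂ}
    (hf : Differentiable ℂ f) (hq : Differentiable ℂ q)
    (hfb : ∀ ε : ℝ, 0 < ε → ∃ C : ℝ, ∀ z : ℂ, ‖f z‖ ≤ C * Real.exp (ε * z.im ^ 2))
    (hqb : ∀ ε : ℝ, 0 < ε → ∃ C : ℝ, 0 < C ∧ ∀ x r : ℝ, ‖q (x + r * I)‖ ≤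
      C * Real.exp (ε * r ^ 2) * (1 + |x|) ^ (3 / 4 + r / 2) * Real.exp (Real.pi / 4 * |x|)) :
    ∫ x : ℝ, f x * q (x + r * I) * gk μ b x₀ (x + (3 / 2 + r) * I) =
      ∫ x : ℝ, f (x + a * I) * q (x + (r + a : ℝ) * I) *
        gk μ b x₀ (x + (3 / 2 + (r + a : ℝ)) * I) := by
  obtain ⟨C₁, hC₁⟩ := hfb (1 / (16 * μ)) (by positivity)
  obtain ⟨C₂, hC₂pos, hC₂⟩ := hqb 1 one_pos
  have hC₁0 : 0 ≤ C₁ := by
    have := (norm_nonneg _).trans (hC₁ 0)
    have h2 : 0 < Real.exp (1 / (16 * μ) * (0 : ℂ).im ^ 2) := Real.exp_pos _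
    exact nonneg_of_mul_nonneg_left this h2
  have hsh : ∫ t : ℝ, (fun z : ℂ => f z * q (z + r * I) * gk μ b x₀ (z + (3 / 2 + r) * I))
        (t + ((0 : ℝ) : ℂ) * I) =
      ∫ t : ℝ, (fun z : ℂ => f z * q (z + r * I) * gk μ b x₀ (z + (3 / 2 + r) * I))
        (t + ((a : ℝ) : ℂ) * I) := by
    set M : ℝ := |a| + |3 / 2 + r| with hM
    have hM0 : 0 ≤ M := by positivity
    set P : ℝ := 3 / 4 + (M + |r|) / 2 with hP
    have hP0 : 0 ≤ P := by positivity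
    apply shift_line (H := fun z : ℂ => f z * q (z + r * I) *
        gk μ b x₀ (z + (3 / 2 + r) * I)) (a := 0) (b := a) (δ := 1 / (16 * μ)) (K := (C₁ * Real.exp (1 / (16 * μ) * M ^ 2)) *
      ((C₂ * Real.exp (1 * (M + |r|) ^ 2)) *
        (Real.exp ((2 * M) ^ 2 / (8 * μ) + |b| * (2 * M)) *
        Real.exp (((Real.pi / 4 + P) + 2 * (1 / (8 * μ)) * |x₀|) ^ 2 / (2 * (1 / (8 * μ)))))))
      (by positivity)
    · intro z _
      have h1 : Differentiable ℂ (fun z : ℂ => f z * q (z + r * I) *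
          gk μ b x₀ (z + (3 / 2 + r) * I)) := by
        have hgd := swap_shift_gk_diff (μ := μ) b x₀
        exact (hf.mul (hq.comp (by fun_prop))).mul (hgd.comp (by fun_prop))
      exact h1 z
    · intro z hz
      have hzM : |z.im| ≤ M := by
        rw [Set.mem_uIcc] at hz
        rw [hM, abs_le]
        have h1 := neg_abs_le a
        have h2 := le_abs_self a
        have h3 := abs_nonneg (3 / 2 + r)
        have h4 := abs_nonneg a
        rcases hz with hz | hz <;> constructor <;> linarith [hz.1, hz.2]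
      rw [norm_mul, norm_mul]
      have e1 : ‖f z‖ ≤ C₁ * Real.exp (1 / (16 * μ) * M ^ 2) := by
        refine (hC₁ z).trans (mul_le_mul_of_nonneg_left ?_ hC₁0)
        apply Real.exp_le_exp.mpr
        apply mul_le_mul_of_nonneg_left _ (by positivity)
        exact sq_le_sq' (by linarith [neg_abs_le z.im, (abs_le.mp hzM).1]) (abs_le.mp hzM).2
      have e2 : ‖q (z + r * I)‖ ≤ (C₂ * Real.exp (1 * (M + |r|) ^ 2)) *
          Real.exp ((Real.pi / 4 + P) * |z.re|) := by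
        have h0 := hC₂ z.re (z.im + r)
        have h1 : (z.re : ℂ) + ((z.im + r : ℝ) : ℂ) * I = z + r * I := by
          conv_rhs => rw [← Complex.re_add_im z]
          push_cast
          ring
        rw [h1] at h0
        refine h0.trans ?_
        have h2 : |z.im + r| ≤ M + |r| := (abs_add_le _ _).trans (by linarith)
        have h3 : Real.exp (1 * (z.im + r) ^ 2) ≤ Real.exp (1 * (M + |r|) ^ 2) := by
          apply Real.exp_le_exp.mpr
          rw [one_mul, one_mul, ← sq_abs (z.im + r)]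
          exact pow_le_pow_left₀ (abs_nonneg _) h2 2
        have h4 : (1 + |z.re|) ^ (3 / 4 + (z.im + r) / 2) ≤ Real.exp (P * |z.re|) := by
          have h5 : (1 : ℝ) ≤ 1 + |z.re| := by linarith [abs_nonneg z.re]
          calc (1 + |z.re|) ^ (3 / 4 + (z.im + r) / 2) ≤ (1 + |z.re|) ^ P := by
                apply Real.rpow_le_rpow_of_exponent_le h5
                rw [hP]
                have := le_abs_self (z.im + r)
                linarith
            _ ≤ (Real.exp |z.re|) ^ P := by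
                apply Real.rpow_le_rpow (by positivity) _ hP0
                have := Real.add_one_le_exp |z.re|
                linarith
            _ = Real.exp (P * |z.re|) := by
                rw [← Real.exp_mul, mul_comm]
        have h6 : Real.exp ((Real.pi / 4 + P) * |z.re|) =
            Real.exp (P * |z.re|) * Real.exp (Real.pi / 4 * |z.re|) := by
          rw [← Real.exp_add]; congr 1; ring
        rw [h6]
        calc C₂ * Real.exp (1 * (z.im + r) ^ 2) * (1 + |z.re|) ^ (3 / 4 + (z.im + r) / 2) *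
              Real.exp (Real.pi / 4 * |z.re|)
            ≤ C₂ * Real.exp (1 * (M + |r|) ^ 2) * Real.exp (P * |z.re|) *
              Real.exp (Real.pi / 4 * |z.re|) := by
              gcongr
          _ = _ := by ring
      have e3 : ‖gk μ b x₀ (z + (3 / 2 + r) * I)‖ ≤
          Real.exp ((2 * M) ^ 2 / (8 * μ) + |b| * (2 * M)) *
            Real.exp (-(1 / (8 * μ)) * (z.re - x₀) ^ 2) := by
        rw [swap_shift_gk, ← Real.exp_add]
        apply Real.exp_le_exp.mpr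
        have hre : (z + (3 / 2 + r) * I).re = z.re := by simp
        have him : (z + (3 / 2 + r) * I).im = z.im + (3 / 2 + r) := by simp
        rw [hre, him]
        set s : ℝ := z.im + (3 / 2 + r) with hs
        have hsM : |s| ≤ 2 * M := by
          rw [hs]
          refine (abs_add_le _ _).trans ?_
          have h4 := abs_nonneg a
          linarith
        have h1 : s ^ 2 ≤ (2 * M) ^ 2 := by
          rw [← sq_abs s]
          exact pow_le_pow_left₀ (abs_nonneg _) hsM 2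
        have h2 : s ^ 2 / (8 * μ) ≤ (2 * M) ^ 2 / (8 * μ) := by gcongr
        have h3 : -(b * s) ≤ |b| * (2 * M) := by
          calc -(b * s) ≤ |b * s| := neg_le_abs _
            _ = |b| * |s| := abs_mul _ _
            _ ≤ _ := mul_le_mul_of_nonneg_left hsM (abs_nonneg _)
        have h4 : -((z.re - x₀) ^ 2 - s ^ 2) / (8 * μ) =
            s ^ 2 / (8 * μ) + -(1 / (8 * μ)) * (z.re - x₀) ^ 2 := by
          field_simp
          ring
        rw [h4]
        linarith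
      have hgauss := swap_shift_gauss (c := 1 / (8 * μ)) (by positivity) (Real.pi / 4 + P) x₀ z.re
      have e4 : Real.exp ((Real.pi / 4 + P) * |z.re|) *
          Real.exp (-(1 / (8 * μ)) * (z.re - x₀) ^ 2) ≤
          Real.exp (((Real.pi / 4 + P) + 2 * (1 / (8 * μ)) * |x₀|) ^ 2 / (2 * (1 / (8 * μ)))) *
            Real.exp (-(1 / (16 * μ)) * z.re ^ 2) := by
        rw [← Real.exp_add, ← Real.exp_add]
        apply Real.exp_le_exp.mpr
        have h4 : (1 / (8 * μ)) / 2 * z.re ^ 2 = 1 / (16 * μ) * z.re ^ 2 := by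
          field_simp
          ring
        linarith
      calc ‖f z‖ * ‖q (z + r * I)‖ * ‖gk μ b x₀ (z + (3 / 2 + r) * I)‖
          ≤ (C₁ * Real.exp (1 / (16 * μ) * M ^ 2)) *
            ((C₂ * Real.exp (1 * (M + |r|) ^ 2)) * Real.exp ((Real.pi / 4 + P) * |z.re|)) *
            (Real.exp ((2 * M) ^ 2 / (8 * μ) + |b| * (2 * M)) *
            Real.exp (-(1 / (8 * μ)) * (z.re - x₀) ^ 2)) := by
            gcongr
        _ = ((C₁ * Real.exp (1 / (16 * μ) * M ^ 2)) * ((C₂ * Real.exp (1 * (M + |r|) ^ 2)) *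
            Real.exp ((2 * M) ^ 2 / (8 * μ) + |b| * (2 * M)))) *
            (Real.exp ((Real.pi / 4 + P) * |z.re|) *
            Real.exp (-(1 / (8 * μ)) * (z.re - x₀) ^ 2)) := by ring
        _ ≤ ((C₁ * Real.exp (1 / (16 * μ) * M ^ 2)) * ((C₂ * Real.exp (1 * (M + |r|) ^ 2)) *
            Real.exp ((2 * M) ^ 2 / (8 * μ) + |b| * (2 * M)))) *
            (Real.exp (((Real.pi / 4 + P) + 2 * (1 / (8 * μ)) * |x₀|) ^ 2 / (2 * (1 / (8 * μ)))) *
            Real.exp (-(1 / (16 * μ)) * z.re ^ 2)) := by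
            apply mul_le_mul_of_nonneg_left e4 (by positivity)
        _ = _ := by ring
  have h1 : ∀ t : ℝ, (fun z : ℂ => f z * q (z + r * I) * gk μ b x₀ (z + (3 / 2 + r) * I))
      (t + ((0 : ℝ) : ℂ) * I) = f t * q (t + r * I) * gk μ b x₀ (t + (3 / 2 + r) * I) := by
    intro t
    simp only [Complex.ofReal_zero, zero_mul, add_zero]
  have h2 : ∀ t : ℝ, (fun z : ℂ => f z * q (z + r * I) * gk μ b x₀ (z + (3 / 2 + r) * I))
      (t + ((a : ℝ) : ℂ) * I) = f (t + a * I) * q (t + (r + a : ℝ) * I) *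
        gk μ b x₀ (t + (3 / 2 + (r + a : ℝ)) * I) := by
    intro t
    simp only
    have a1 : (t : ℂ) + a * I + r * I = t + (r + a : ℝ) * I := by push_cast; ring
    have a2 : (t : ℂ) + a * I + (3 / 2 + r) * I = t + (3 / 2 + (r + a : ℝ)) * I := by
      push_cast; ring
    rw [a1, a2]
  simp only [h1, h2] at hsh
  exact hsh

/-- `Ξ_{-μ}` on the line `Im z = a`, normalised -/
noncomputable def fa (μ a : ℝ) (x : ℝ) : ℂ :=
  ((Real.exp (-(a ^ 2 / (4 * μ))) : ℝ) : ℂ) * XiM μ (x + a * I)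

theorem fa_bound {μ : ℝ} (hμ : 0 < μ) : ∃ C : ℝ, 0 ≤ C ∧ ∀ a x : ℝ,
    ‖fa μ a x‖ * Real.exp (Real.pi / 4 * |x|) ≤ C * (1 + |x|) ^ 3 := by
  obtain ⟨C, hC, h⟩ := XiM_strip hμ
  obtain ⟨C2, h2⟩ := XiM_gauss hμ.le (1 / (4 * μ)) (by positivity)
  have hC2 : 0 ≤ C2 := by
    have := (norm_nonneg _).trans (h2 0)
    simpa using this
  have hnorm : ∀ a x : ℝ, ‖fa μ a x‖ = Real.exp (-(a ^ 2 / (4 * μ))) * ‖XiM μ (x + a * I)‖ := by
    intro a x
    rw [fa, norm_mul, Complex.norm_real, Real.norm_of_nonneg (Real.exp_pos _).le]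
  have key : ∀ a x : ℝ, 0 ≤ x → ‖fa μ a x‖ * Real.exp (Real.pi / 4 * |x|) ≤
      (C + C2 * Real.exp (Real.pi / 2)) * (1 + |x|) ^ 3 := by
    intro a x hx
    rw [abs_of_nonneg hx, hnorm]
    have hone : 1 ≤ (1 + x) ^ 3 := one_le_pow₀ (by linarith)
    have h5 := Real.exp_pos (Real.pi / 2)
    rcases le_total 2 x with h3 | h3
    · have h4 := h x a h3
      have e0 : Real.exp (-(a ^ 2 / (4 * μ))) *
          (C * x ^ 3 * Real.exp (-(Real.pi / 4) * x + a ^ 2 / (4 * μ))) *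
          Real.exp (Real.pi / 4 * x) = C * x ^ 3 := by
        have : Real.exp (-(a ^ 2 / (4 * μ))) * Real.exp (-(Real.pi / 4) * x + a ^ 2 / (4 * μ)) *
            Real.exp (Real.pi / 4 * x) = 1 := by
          rw [← Real.exp_add, ← Real.exp_add]
          rw [show -(a ^ 2 / (4 * μ)) + (-(Real.pi / 4) * x + a ^ 2 / (4 * μ)) +
            Real.pi / 4 * x = 0 by ring]
          exact Real.exp_zero
        linear_combination (C * x ^ 3) * this
      calc Real.exp (-(a ^ 2 / (4 * μ))) * ‖XiM μ (x + a * I)‖ * Real.exp (Real.pi / 4 * x)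
          ≤ Real.exp (-(a ^ 2 / (4 * μ))) *
          (C * x ^ 3 * Real.exp (-(Real.pi / 4) * x + a ^ 2 / (4 * μ))) *
          Real.exp (Real.pi / 4 * x) := by gcongr
        _ = C * x ^ 3 := e0
        _ ≤ (C + C2 * Real.exp (Real.pi / 2)) * (1 + x) ^ 3 := by
            have : x ^ 3 ≤ (1 + x) ^ 3 := by gcongr; linarith
            have h6 : 0 ≤ (1 + x) ^ 3 := by positivity
            have h7 : 0 ≤ C2 * Real.exp (Real.pi / 2) * (1 + x) ^ 3 := by positivity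
            nlinarith
    · have h4 := h2 (x + a * I)
      have him : ((x : ℂ) + a * I).im = a := by simp
      rw [him] at h4
      have e0 : Real.exp (-(a ^ 2 / (4 * μ))) * (C2 * Real.exp (1 / (4 * μ) * a ^ 2)) = C2 := by
        have : Real.exp (-(a ^ 2 / (4 * μ))) * Real.exp (1 / (4 * μ) * a ^ 2) = 1 := by
          rw [← Real.exp_add, show -(a ^ 2 / (4 * μ)) + 1 / (4 * μ) * a ^ 2 = 0 by ring]
          exact Real.exp_zero
        linear_combination C2 * this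
      calc Real.exp (-(a ^ 2 / (4 * μ))) * ‖XiM μ (x + a * I)‖ * Real.exp (Real.pi / 4 * x)
          ≤ Real.exp (-(a ^ 2 / (4 * μ))) * (C2 * Real.exp (1 / (4 * μ) * a ^ 2)) *
            Real.exp (Real.pi / 2) := by
            gcongr
            nlinarith [Real.pi_pos]
        _ = C2 * Real.exp (Real.pi / 2) := by rw [e0]
        _ ≤ (C + C2 * Real.exp (Real.pi / 2)) * (1 + x) ^ 3 := by
            have h7 : 0 ≤ C2 * Real.exp (Real.pi / 2) := by positivity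
            nlinarith
  refine ⟨C + C2 * Real.exp (Real.pi / 2), by positivity, fun a x => ?_⟩
  rcases le_total 0 x with h3 | h3
  · exact key a x h3
  · have h4 := key (-a) (-x) (by linarith)
    rw [abs_neg] at h4
    have h5 : ‖fa μ (-a) (-x)‖ = ‖fa μ a x‖ := by
      rw [hnorm, hnorm]
      have e1 : ((-x : ℝ) : ℂ) + ((-a : ℝ) : ℂ) * I = -(x + a * I) := by push_cast; ring
      rw [e1, XiM_neg, neg_sq]
    rwa [h5] at h4

/-- The Dirichlet series in terms of `Ξ_{-μ}` on the line `Im z = a`. -/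
theorem Dser_identity_h {μ : ℝ} (hμ : 0 < μ) (a b x₀ : ℝ) :
    (Real.sqrt (4 * Real.pi * μ) : ℂ) * ((Real.sqrt (8 * Real.pi * μ) : ℂ) * Dser μ b x₀) =
      ∫ r : ℝ, (Real.exp (-r ^ 2 / (4 * μ) + (a / (2 * μ)) * r) : ℂ) *
        ∫ x : ℝ, fa μ a x * qf (x + r * I) * gk μ b x₀ (x + (3 / 2 + r) * I) := by
  rw [Dser_identity hμ]
  have h1 : ∀ r : ℝ, (Real.exp (-r ^ 2 / (4 * μ)) : ℂ) *
        ∫ x : ℝ, XiM μ x * qf (x + r * I) * gk μ b x₀ (x + (3 / 2 + r) * I) =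
      (fun r : ℝ => (Real.exp (-(r - a) ^ 2 / (4 * μ)) : ℂ) *
        ∫ x : ℝ, XiM μ (x + a * I) * qf (x + r * I) * gk μ b x₀ (x + (3 / 2 + r) * I)) (r + a) := by
    intro r
    simp only
    rw [shift_inner b x₀ a r hμ (differentiable_XiM hμ.le) differentiable_qf
      (fun ε hε => XiM_gauss hμ.le ε hε) (fun ε hε => norm_qf_le hε)]
    rw [show r + a - a = r by ring]
  simp_rw [h1]
  rw [integral_add_right_eq_self (fun r : ℝ => (Real.exp (-(r - a) ^ 2 / (4 * μ)) : ℂ) *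
        ∫ x : ℝ, XiM μ (x + a * I) * qf (x + r * I) * gk μ b x₀ (x + (3 / 2 + r) * I)) a]
  refine integral_congr_ae (Eventually.of_forall fun r => ?_)
  simp only
  have h2 : ∀ x : ℝ, fa μ a x * qf (x + r * I) * gk μ b x₀ (x + (3 / 2 + r) * I) =
      ((Real.exp (-(a ^ 2 / (4 * μ))) : ℝ) : ℂ) * (XiM μ (x + a * I) * qf (x + r * I) *
        gk μ b x₀ (x + (3 / 2 + r) * I)) := by
    intro x
    rw [fa]
    ring
  simp_rw [h2]
  rw [integral_const_mul, ← mul_assoc, ← Complex.ofReal_mul, ← Real.exp_add]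
  congr 3
  field_simp
  ring

/-- The window bound for `Ξ_{-μ}` on the line `Im z = a`, uniformly in `a`. -/
theorem Dser_window_h {μ : ℝ} (hμ : 0 < μ) : ∃ C X : ℝ, 0 < C ∧ 1 ≤ X ∧ ∀ a x₀ b ρ m : ℝ,
      X ≤ x₀ → 0 ≤ b → b ≤ Real.log x₀ → 0 ≤ ρ → 0 ≤ m →
      (∀ x : ℝ, |x - x₀| ≤ ρ → ‖fa μ a x‖ * Real.exp (Real.pi / 4 * |x|) ≤ m) →
      ‖Dser μ b x₀‖ ≤ C * x₀ ^ 4 *
        Real.exp (2 * μ * (1 + 1 / 20) * (Real.log x₀ / 2 - b + a / (2 * μ)) ^ 2) *
        (m + Real.exp (-(1 - 1 / 20) ^ 2 * ρ ^ 2 / (8 * μ))) := by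
  obtain ⟨C₁, hC₁, h1⟩ := fa_bound hμ
  have hfc : ∀ a : ℝ, Continuous fun x : ℝ => fa μ a x := by
    intro a
    unfold fa
    have := (differentiable_XiM hμ.le).continuous
    fun_prop
  obtain ⟨C₂, X, hC₂, hX, h2⟩ := window_bound_h (θ := 1 / 20) hμ (by norm_num) (by norm_num)
    (fun ε hε => norm_qf_le hε)
  have hs1 : 0 < Real.sqrt (4 * Real.pi * μ) := Real.sqrt_pos.2 (by positivity)
  have hs2 : 0 < Real.sqrt (8 * Real.pi * μ) := Real.sqrt_pos.2 (by positivity)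
  set K := (Real.sqrt (4 * Real.pi * μ) * Real.sqrt (8 * Real.pi * μ))⁻¹ with hK
  have hK0 : 0 < K := by positivity
  obtain ⟨C, hC, h3⟩ := window_cor_h (θ := 1 / 20) (C₁ := C₁) (C₂ := K * C₂) hμ
    (by norm_num) (by norm_num) hC₁ (by positivity)
  refine ⟨C, X, hC, hX, fun a x₀ b ρ m hx hb0 hb1 hρ hm hw => ?_⟩
  have h4 := h2 (fa μ a) C₁ (hfc a) (h1 a) (a / (2 * μ)) x₀ b hx hb0 hb1
  rw [← Dser_identity_h hμ, norm_mul, norm_mul, norm_real, norm_real,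
    Real.norm_of_nonneg hs1.le, Real.norm_of_nonneg hs2.le] at h4
  have h5 : ‖Dser μ b x₀‖ = K * (Real.sqrt (4 * Real.pi * μ) *
      (Real.sqrt (8 * Real.pi * μ) * ‖Dser μ b x₀‖)) := by
    rw [hK]; field_simp
  refine h3 (fa μ a) ‖Dser μ b x₀‖ _ x₀ ρ m (h1 a) (hX.trans hx) (Real.exp_pos _).le ?_ hρ hm hw
  rw [h5]
  calc K * (Real.sqrt (4 * Real.pi * μ) * (Real.sqrt (8 * Real.pi * μ) * ‖Dser μ b x₀‖))
      ≤ K * _ := mul_le_mul_of_nonneg_left h4 hK0.le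
    _ = _ := by ring

end Pool.Agent.T6.H61.KK
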