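import Pool.Agent.Helper242.KK.Count

set_option autoImplicit false

/-!
# Few zeros near the real axis: the count over a dyadic box, for every `μ > 0`
-/

namespace Pool.Agent.T6.H61.KK

open Complex MeasureTheory Filter Topology Metric Pool.Agent.Helper242.KK

/-- the box `a ≤ Re z ≤ b`, `|Im z| ≤ h` -/
def sbox (a b h : ℝ) : Set ℂ := {z | |z.im| ≤ h ∧ a ≤ z.re ∧ z.re ≤ b}

/-- few zeros in dyadic boxes of height proportional to `log T` -/
theorem count_box {f : ℂ → ℂ} {μ q C' : ℝ}
    (hq : 0 < q) (hq1 : q ≤ 1 / 40) (hμ0 : 0 < μ) (hC' : 0 < C')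
    (hJ : ∀ c r R : ℝ, 4 ≤ c → 0 < r → r < R → R ≤ c / 2 → f c ≠ 0 →
      zc f (closedBall (c : ℂ) r) ≤ ENNReal.ofReal
        ((R ^ 2 / (4 * μ) + C' * Real.log c - Real.log (‖f c‖ * Real.exp (Real.pi / 4 * c))) /
          Real.log (R / r)))
    (h1 : ∃ T₁ : ℝ, ∀ T x₀ : ℝ, T₁ ≤ T → T ≤ x₀ → x₀ ≤ 3 * T →
      ∃ x : ℝ, |x - x₀| ≤ 11 / 5 * μ * Real.log T ∧
        Real.exp (-(11 / 20) * μ * Real.log T ^ 2) < ‖f x‖ * Real.exp (Real.pi / 4 * |x|))
    (h3 : ∃ T₁ : ℝ, ∀ T : ℝ, T₁ ≤ T →
      (volume {x : ℝ | x ∈ Set.Icc T (2 * T) ∧ T + 5 / 2 * q * μ * Real.log T ≤ x ∧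
        ∀ y : ℝ, |y - x| ≤ 15 / 2 * q * μ * Real.log T →
          ‖f y‖ * Real.exp (Real.pi / 4 * |y|) ≤ Real.exp (-3 * q ^ 2 * μ * Real.log T ^ 2)}).toReal ≤
        q ^ 2 / 10 * T) :
    ∃ T₀ : ℝ, ∀ T : ℝ, T₀ ≤ T →
      zc f (sbox T (2 * T) (20 * q * μ * Real.log T)) ≤ ENNReal.ofReal (200 * q * T * Real.log T) := by
  classical
  obtain ⟨T₁, h1⟩ := h1
  obtain ⟨T₃, h3⟩ := h3
  have ev1 : ∀ᶠ T : ℝ in atTop, 100 * μ / q * Real.log T ≤ T := by
    have h := Real.isLittleO_log_id_atTop.bound (c := q / (100 * μ)) (by positivity)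
    filter_upwards [h, eventually_ge_atTop 1] with T hT hT1
    have hl : 0 ≤ Real.log T := Real.log_nonneg hT1
    simp only [id] at hT
    rw [Real.norm_eq_abs, Real.norm_eq_abs, abs_of_nonneg hl, abs_of_nonneg (by linarith)] at hT
    calc 100 * μ / q * Real.log T ≤ 100 * μ / q * (q / (100 * μ) * T) :=
          mul_le_mul_of_nonneg_left hT (by positivity)
      _ = T := by field_simp
  have ev2 : ∀ᶠ T : ℝ in atTop, max 1 (C' / (20 * (q ^ 2 * μ))) ≤ Real.log T :=
    Real.tendsto_log_atTop.eventually_ge_atTop _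
  have ev := ev1.and (ev2.and ((eventually_ge_atTop T₁).and
    ((eventually_ge_atTop T₃).and (eventually_ge_atTop (8 : ℝ)))))
  obtain ⟨T₀, hT₀⟩ := eventually_atTop.1 ev
  refine ⟨T₀, fun T hT => ?_⟩
  obtain ⟨e1, e2, e3, e5, e6⟩ := hT₀ T hT
  set l := Real.log T with hldef
  have hl1 : 1 ≤ l := (le_max_left _ _).trans e2
  have hlC : C' ≤ 20 * (q ^ 2 * μ) * l := by
    have := (le_max_right _ _).trans e2
    rw [div_le_iff₀ (by positivity)] at this
    linarith
  have hl0 : 0 < l := by linarith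
  have hT0 : 0 < T := by linarith
  have hTq : 100 * (μ * l) ≤ q * T := by
    have : 100 * μ / q * l = 100 * (μ * l) / q := by ring
    rw [this, div_le_iff₀ hq] at e1
    linarith
  have hμl : 0 < μ * l := by positivity
  have hTμ : 4000 * (μ * l) ≤ T := by
    have : q * T ≤ 1 / 40 * T := mul_le_mul_of_nonneg_right hq1 hT0.le
    linarith
  -- constants
  have hq2 : q ^ 2 ≤ 1 / 1600 := by nlinarith
  have hC1 : C' * (l + 2) ≤ 60 * (q ^ 2 * μ * l ^ 2) := by
    have a1 : l + 2 ≤ 3 * l := by linarith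
    calc C' * (l + 2) ≤ (20 * (q ^ 2 * μ) * l) * (3 * l) :=
          mul_le_mul hlC a1 (by linarith) (by positivity)
      _ = 60 * (q ^ 2 * μ * l ^ 2) := by ring
  have hml2 : 0 < μ * l ^ 2 := by positivity
  have hC2 : C' * (l + 2) ≤ μ * l ^ 2 := by
    have a1 : q ^ 2 * μ * l ^ 2 ≤ 1 / 1600 * (μ * l ^ 2) := by
      have := mul_le_mul_of_nonneg_right hq2 hml2.le
      linarith
    linarith
  set L := 20 * q * μ * l with hLdef
  have hL0 : 0 < L := by positivity
  have hLμ : L ≤ 1 / 2 * (μ * l) := by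
    have := mul_le_mul_of_nonneg_right hq1 hμl.le
    rw [hLdef]; linarith
  set N := ⌊T / L⌋₊ with hNdef
  have hN1 : (N : ℝ) * L ≤ T := by
    have := Nat.floor_le (show 0 ≤ T / L by positivity)
    rw [le_div_iff₀ hL0] at this
    exact this
  have hkN : ∀ k : ℕ, k ≤ N → (k : ℝ) * L ≤ T := by
    intro k hk
    have : (k : ℝ) ≤ N := by exact_mod_cast hk
    exact (mul_le_mul_of_nonneg_right this hL0.le).trans hN1
  let a : ℕ → ℝ := fun k => T + k * L
  let J : ℕ → Set ℂ := fun k => sbox (a k) (a k + L) L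
  have hcover : sbox T (2 * T) L ⊆ ⋃ k ∈ Finset.range (N + 1), J k := by
    rintro z ⟨hz0, hz1, hz2⟩
    have hx : 0 ≤ (z.re - T) / L := div_nonneg (by linarith) hL0.le
    have hk1 := Nat.floor_le hx
    have hk2 := Nat.lt_floor_add_one ((z.re - T) / L)
    rw [le_div_iff₀ hL0] at hk1
    rw [div_lt_iff₀ hL0] at hk2
    have hkN' : ⌊(z.re - T) / L⌋₊ ≤ N := by
      apply Nat.floor_le_floor
      apply div_le_div_of_nonneg_right _ hL0.le
      linarith
    simp only [Set.mem_iUnion, Finset.mem_range]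
    refine ⟨⌊(z.re - T) / L⌋₊, by omega, hz0, ?_, ?_⟩
    · show T + _ * L ≤ z.re
      linarith
    · show z.re ≤ T + _ * L + L
      have : ((⌊(z.re - T) / L⌋₊ : ℝ) + 1) * L = (⌊(z.re - T) / L⌋₊ : ℝ) * L + L := by ring
      linarith
  let Good : ℕ → Prop := fun k => ∃ x : ℝ, a k ≤ x ∧ x ≤ a k + L ∧
    Real.exp (-(3 * (q ^ 2 * μ * l ^ 2))) < ‖f x‖ * Real.exp (Real.pi / 4 * |x|)
  have hgood : ∀ k ≤ N, Good k → zc f (J k) ≤ ENNReal.ofReal (3600 * (q ^ 2 * μ * l ^ 2)) := by
    rintro k hk ⟨x, hx1, hx2, hx3⟩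
    have hka := hkN k hk
    have hk0 : 0 ≤ (k : ℝ) * L := by positivity
    have hxa : T ≤ x := le_trans (by show T ≤ T + k * L; linarith) hx1
    have hxb : x ≤ 3 * T := by
      refine hx2.trans ?_
      show T + k * L + L ≤ 3 * T
      linarith
    have hsub : J k ⊆ closedBall (x : ℂ) (2 * L) := by
      rintro z ⟨hz0, hz1, hz2⟩
      rw [mem_closedBall, Complex.dist_eq]
      refine (Complex.norm_le_abs_re_add_abs_im _).trans ?_
      have e1 : (z - x).re = z.re - x := by simp
      have e2 : (z - x).im = z.im := by simp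
      rw [e1, e2]
      have e3 : |z.re - x| ≤ L := by rw [abs_le]; constructor <;> linarith
      linarith
    have hlog : Real.log x ≤ l + 2 := by
      have h5 : Real.log x ≤ Real.log (3 * T) := Real.log_le_log (by linarith) hxb
      rw [Real.log_mul (by norm_num) hT0.ne'] at h5
      have h6 : Real.log 3 ≤ 2 := by
        have := Real.log_le_sub_one_of_pos (show (0:ℝ) < 3 by norm_num)
        linarith
      linarith
    refine (zc_mono f hsub).trans ((count_dyadic_ball hμ0 hC' hJ (by linarith)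
      (show 0 < 2 * L by linarith)
      (by linarith) hlog (by positivity) hx3).trans ?_)
    apply ENNReal.ofReal_le_ofReal
    have e9 : 9 * (2 * L) ^ 2 / (4 * μ) = 3600 * (q ^ 2 * μ * l ^ 2) := by
      rw [hLdef]; field_simp; ring
    rw [e9, div_le_iff₀ (by norm_num)]
    linarith [show 0 < q ^ 2 * μ * l ^ 2 by positivity]
  have hany : ∀ k ≤ N, zc f (J k) ≤ ENNReal.ofReal (40 * (μ * l ^ 2)) := by
    intro k hk
    have hka := hkN k hk
    have hk0 : 0 ≤ (k : ℝ) * L := by positivity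
    obtain ⟨x, hx1, hx2⟩ := h1 T (a k) e3 (by show T ≤ T + k * L; linarith)
      (by show T + k * L ≤ 3 * T; linarith)
    rw [abs_le] at hx1
    have hxl : T + k * L - 11 / 5 * (μ * l) ≤ x := by
      have := hx1.1
      have ea : a k = T + k * L := rfl
      rw [ea] at this
      linarith
    have hxu : x ≤ T + k * L + 11 / 5 * (μ * l) := by
      have := hx1.2
      have ea : a k = T + k * L := rfl
      rw [ea] at this
      linarith
    have hsub : J k ⊆ closedBall (x : ℂ) (4 * (μ * l)) := by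
      rintro z ⟨hz0, hz1, hz2⟩
      rw [mem_closedBall, Complex.dist_eq]
      refine (Complex.norm_le_abs_re_add_abs_im _).trans ?_
      have e1 : (z - x).re = z.re - x := by simp
      have e2 : (z - x).im = z.im := by simp
      rw [e1, e2]
      have ea : a k = T + k * L := rfl
      rw [ea] at hz1 hz2
      have e3 : |z.re - x| ≤ 11 / 5 * (μ * l) + L := by rw [abs_le]; constructor <;> linarith
      linarith
    have hlog : Real.log x ≤ l + 2 := by
      have h5 : Real.log x ≤ Real.log (3 * T) := Real.log_le_log (by linarith) (by linarith)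
      rw [Real.log_mul (by norm_num) hT0.ne'] at h5
      have h6 : Real.log 3 ≤ 2 := by
        have := Real.log_le_sub_one_of_pos (show (0:ℝ) < 3 by norm_num)
        linarith
      linarith
    have hx2' : Real.exp (-(11 / 20 * (μ * l ^ 2))) < ‖f x‖ * Real.exp (Real.pi / 4 * |x|) := by
      have e : -(11 / 20 * (μ * l ^ 2)) = -(11 / 20) * μ * l ^ 2 := by ring
      rw [e]; exact hx2
    refine (zc_mono f hsub).trans ((count_dyadic_ball hμ0 hC' hJ (by linarith) (by positivity)
      (by linarith) hlog (by positivity) hx2').trans ?_)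
    apply ENNReal.ofReal_le_ofReal
    have e9 : 9 * (4 * (μ * l)) ^ 2 / (4 * μ) = 36 * (μ * l ^ 2) := by
      field_simp; ring
    rw [e9, div_le_iff₀ (by norm_num)]
    linarith
  -- the bad windows
  let B : Finset ℕ := (Finset.range N).filter fun k => ¬ Good k
  have hB : (B.card : ℝ) * (L / 4) ≤ q ^ 2 / 10 * T := by
    refine le_trans ?_ (h3 T e5)
    let I : ℕ → Set ℝ := fun k => Set.Icc (a k + 3 * L / 8) (a k + 5 * L / 8)
    have hdisj : (B : Set ℕ).PairwiseDisjoint I := by
      intro i _ j _ hij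
      show Disjoint (I i) (I j)
      rw [Set.disjoint_left]
      rintro x ⟨hi1, hi2⟩ ⟨hj1, hj2⟩
      have ea : ∀ k, a k = T + k * L := fun k => rfl
      rw [ea] at hi1 hi2 hj1 hj2
      rcases lt_or_gt_of_ne hij with h | h
      · have : (i : ℝ) + 1 ≤ j := by exact_mod_cast h
        have := mul_le_mul_of_nonneg_right this hL0.le
        linarith
      · have : (j : ℝ) + 1 ≤ i := by exact_mod_cast h
        have := mul_le_mul_of_nonneg_right this hL0.le
        linarith
    have hvol : volume (⋃ k ∈ B, I k) = ENNReal.ofReal ((B.card : ℝ) * (L / 4)) := by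
      rw [measure_biUnion_finset hdisj (fun _ _ => measurableSet_Icc)]
      have e : ∀ k ∈ B, volume (I k) = ENNReal.ofReal (L / 4) := by
        intro k _
        rw [Real.volume_Icc]
        congr 1; ring
      rw [Finset.sum_congr rfl e, Finset.sum_const, nsmul_eq_mul,
        ENNReal.ofReal_mul (by positivity), ENNReal.ofReal_natCast]
    have hsub : (⋃ k ∈ B, I k) ⊆ {x : ℝ | x ∈ Set.Icc T (2 * T) ∧ T + 5 / 2 * q * μ * l ≤ x ∧
        ∀ y : ℝ, |y - x| ≤ 15 / 2 * q * μ * l →
          ‖f y‖ * Real.exp (Real.pi / 4 * |y|) ≤ Real.exp (-3 * q ^ 2 * μ * l ^ 2)} := by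
      intro x hx
      simp only [Set.mem_iUnion] at hx
      obtain ⟨k, hkB, hx1, hx2⟩ := hx
      obtain ⟨hkN1, hbad⟩ := Finset.mem_filter.1 hkB
      rw [Finset.mem_range] at hkN1
      have hk1 : ((k : ℝ) + 1) * L ≤ T := by
        have := hkN (k + 1) (by omega)
        push_cast at this
        exact this
      have hk0 : 0 ≤ (k : ℝ) * L := by positivity
      have ea : a k = T + k * L := rfl
      rw [ea] at hx1 hx2
      have e5q : 5 / 2 * q * μ * l = L / 8 := by rw [hLdef]; ring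
      have e15q : 15 / 2 * q * μ * l = 3 * L / 8 := by rw [hLdef]; ring
      refine ⟨⟨by linarith, by linarith⟩, by rw [e5q]; linarith, fun y hy => ?_⟩
      rw [e15q, abs_le] at hy
      by_contra hcon
      apply hbad
      refine ⟨y, ?_, ?_, ?_⟩
      · rw [ea]; linarith
      · rw [ea]; linarith
      · have e : -(3 * (q ^ 2 * μ * l ^ 2)) = -3 * q ^ 2 * μ * l ^ 2 := by ring
        rw [e]
        exact not_le.1 hcon
    have hfin : volume {x : ℝ | x ∈ Set.Icc T (2 * T) ∧ T + 5 / 2 * q * μ * l ≤ x ∧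
        ∀ y : ℝ, |y - x| ≤ 15 / 2 * q * μ * l →
          ‖f y‖ * Real.exp (Real.pi / 4 * |y|) ≤ Real.exp (-3 * q ^ 2 * μ * l ^ 2)} ≠ ⊤ := by
      refine ne_of_lt (lt_of_le_of_lt (measure_mono (t := Set.Icc T (2 * T)) fun x hx => hx.1) ?_)
      rw [Real.volume_Icc]; exact ENNReal.ofReal_lt_top
    have hle := measure_mono (μ := volume) hsub
    rw [hvol] at hle
    exact (ENNReal.ofReal_le_iff_le_toReal hfin).1 hle
  have hcard : (B.card : ℝ) * (40 * (μ * l ^ 2)) ≤ 4 / 5 * (q * T * l) := by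
    have h6 : (B.card : ℝ) * (40 * (μ * l ^ 2)) = (B.card : ℝ) * (L / 4) * (8 * l / q) := by
      rw [hLdef]; field_simp; ring
    rw [h6]
    have h7 := mul_le_mul_of_nonneg_right hB (show 0 ≤ 8 * l / q by positivity)
    refine h7.trans (le_of_eq ?_)
    field_simp
    ring
  -- summation
  have hsum : zc f (sbox T (2 * T) L) ≤ ∑ k ∈ Finset.range (N + 1),
      ENNReal.ofReal (3600 * (q ^ 2 * μ * l ^ 2) + if k ∈ B ∨ k = N then 40 * (μ * l ^ 2) else 0) := by
    refine (zc_mono f hcover).trans ((zc_biUnion_le f _ _).trans (Finset.sum_le_sum ?_))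
    intro k hk
    have hk' : k ≤ N := by
      have := Finset.mem_range.1 hk; omega
    by_cases hkB : k ∈ B ∨ k = N
    · rw [if_pos hkB]
      refine (hany k hk').trans (ENNReal.ofReal_le_ofReal ?_)
      linarith [show 0 < q ^ 2 * μ * l ^ 2 by positivity]
    · rw [if_neg hkB, add_zero]
      refine hgood k hk' ?_
      by_contra hng
      apply hkB
      by_cases hkN2 : k = N
      · exact Or.inr hkN2
      · left
        exact Finset.mem_filter.2 ⟨Finset.mem_range.2 (by omega), hng⟩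
  refine hsum.trans ?_
  rw [← ENNReal.ofReal_sum_of_nonneg]
  · apply ENNReal.ofReal_le_ofReal
    rw [Finset.sum_add_distrib, Finset.sum_const, Finset.card_range, nsmul_eq_mul,
      Finset.sum_range_succ]
    have hs : ∑ k ∈ Finset.range N, (if k ∈ B ∨ k = N then 40 * (μ * l ^ 2) else 0) =
        (B.card : ℝ) * (40 * (μ * l ^ 2)) := by
      have e : ∀ k ∈ Finset.range N, (if k ∈ B ∨ k = N then 40 * (μ * l ^ 2) else 0) =
          if k ∈ B then 40 * (μ * l ^ 2) else 0 := by
        intro k hk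
        have : k ≠ N := by have := Finset.mem_range.1 hk; omega
        simp [this]
      rw [Finset.sum_congr rfl e, ← Finset.sum_filter, Finset.sum_const, nsmul_eq_mul]
      congr 2
      congr 1
      ext k
      simp only [B, Finset.mem_filter]
      tauto
    rw [hs, if_pos (Or.inr rfl)]
    have hN2 : ((N : ℝ) + 1) * (3600 * (q ^ 2 * μ * l ^ 2)) ≤ 180 * (q * T * l) + 3 * (μ * l ^ 2) := by
      have h5 : (N : ℝ) * (3600 * (q ^ 2 * μ * l ^ 2)) = (N : ℝ) * L * (180 * (q * l)) := by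
        rw [hLdef]; ring
      have h6 : (N : ℝ) * L * (180 * (q * l)) ≤ T * (180 * (q * l)) :=
        mul_le_mul_of_nonneg_right hN1 (by positivity)
      have h7 : 3600 * (q ^ 2 * μ * l ^ 2) ≤ 3 * (μ * l ^ 2) := by
        have := mul_le_mul_of_nonneg_right hq2 hml2.le
        linarith
      calc ((N : ℝ) + 1) * (3600 * (q ^ 2 * μ * l ^ 2)) =
            (N : ℝ) * (3600 * (q ^ 2 * μ * l ^ 2)) + 3600 * (q ^ 2 * μ * l ^ 2) := by ring
        _ ≤ T * (180 * (q * l)) + 3 * (μ * l ^ 2) := add_le_add (h5.le.trans h6) h7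
        _ = _ := by ring
    have h41 : 43 * (μ * l ^ 2) ≤ 43 / 100 * (q * T * l) := by
      have := mul_le_mul_of_nonneg_right hTq hl0.le
      linarith [show μ * l * l = μ * l ^ 2 by ring]
    have hp : 0 < q * T * l := by positivity
    push_cast
    linarith
  · intro k _
    split_ifs <;> positivity

end Pool.Agent.T6.H61.KK
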