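import Pool.Agent.Y971.KK.RTop
import Pool.Agent.T6.H61.KK.SCount

set_option autoImplicit false

/-!
# Few zeros of `Ξ_{-μ}` in `|Im z| ≤ κ log T`, for every `μ > 0`
-/

namespace Pool.Agent.T6.H61.KK

open Complex MeasureTheory Filter Topology Metric Pool.Agent.Helper242.KK Pool.Agent.Y971.KK

/-- few zeros in dyadic boxes, for every `μ > 0` -/
theorem few_box {μ : ℝ} (hμ : 0 < μ) {q : ℝ} (hq : 0 < q) (hq1 : q ≤ 1 / 40) :
    ∃ T₀ : ℝ, ∀ T : ℝ, T₀ ≤ T →
      zc (XiM μ) (sbox T (2 * T) (20 * q * μ * Real.log T)) ≤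
        ENNReal.ofReal (200 * q * T * Real.log T) := by
  have hf := differentiable_XiM hμ.le
  obtain ⟨C, X, hC, hX, hD⟩ := Dser_window hμ
  obtain ⟨Cs, hCs, hstrip⟩ := XiM_strip hμ
  obtain ⟨C', hC', hJ⟩ := zc_real_centre hf hμ hstrip
  have h1 := exists_good_universal' hμ hC hX (fun x => Dser_zero_lower hμ.le x) hD
  obtain ⟨P, hPo, T₁, hst⟩ := stat_rough (μ := μ) (β := 1 / 2 - q) (ρ := 5 / 2 * q * μ)
    (ε := q ^ 2 / 10) hμ (by linarith) (by linarith) (by positivity) (by positivity)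
  have hP1 : (1 : ℝ) ≤ P := by exact_mod_cast hPo.pos
  obtain ⟨T₂, hsm⟩ := small_of_bad' (K₀ := Real.log P) hμ hq hq1 (Real.log_nonneg hP1) hC hX hD
  have ev1 : ∀ᶠ T : ℝ in atTop, 5 / 2 * q * μ * Real.log T ≤ T := by
    have hc0 : 0 < 5 / 2 * q * μ := by positivity
    have h := Real.isLittleO_log_id_atTop.bound (c := 1 / (5 / 2 * q * μ)) (by positivity)
    filter_upwards [h, eventually_ge_atTop 1] with T hT hT1
    have hl : 0 ≤ Real.log T := Real.log_nonneg hT1
    simp only [id] at hT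
    rw [Real.norm_eq_abs, Real.norm_eq_abs, abs_of_nonneg hl, abs_of_nonneg (by linarith)] at hT
    calc 5 / 2 * q * μ * Real.log T ≤ 5 / 2 * q * μ * (1 / (5 / 2 * q * μ) * T) :=
          mul_le_mul_of_nonneg_left hT hc0.le
      _ = T := by field_simp
  have ev := ev1.and ((eventually_ge_atTop T₁).and ((eventually_ge_atTop T₂).and
    ((eventually_ge_atTop (1 : ℝ)).and (eventually_ge_atTop (P : ℝ)))))
  obtain ⟨T₃, hT₃⟩ := eventually_atTop.1 ev
  refine count_box (f := XiM μ) hq hq1 hμ hC' hJ h1 ⟨T₃, fun T hT => ?_⟩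
  obtain ⟨e1, e2, e3, e4, e5⟩ := hT₃ T hT
  refine le_trans ?_ (hst T e2)
  have hT0 : 0 < T := by linarith
  have hfin : (volume {x : ℝ | x ∈ Set.Icc T (2 * T) ∧ ∀ r : ℝ, |r| ≤ 5 / 2 * q * μ * Real.log T →
        ‖Rs P μ ((1 / 2 - q) * Real.log T) (x + r)‖ ≤ (T ^ 2)⁻¹}) ≠ ⊤ := by
    refine ne_top_of_le_ne_top ?_ (measure_mono (fun x hx => hx.1) : _ ≤ volume (Set.Icc T (2 * T)))
    rw [Real.volume_Icc]
    exact ENNReal.ofReal_ne_top
  refine ENNReal.toReal_mono hfin (measure_mono ?_)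
  rintro x ⟨hx, hx2, hx3⟩
  refine ⟨hx, fun r hr => ?_⟩
  have hr' := abs_le.1 hr
  have hbound : ∀ δ : ℝ, 0 ≤ δ → δ ≤ Real.log P →
      ‖Dser μ ((1 / 2 - q) * Real.log T - δ) (x + r)‖ ≤ (T ^ 3)⁻¹ := by
    refine hsm T (x + r) e3 (by linarith) (by linarith [hx.2]) ?_
    intro y hy
    apply hx3
    have h2 : |y - x| ≤ |y - (x + r)| + |r| := by
      have : y - x = (y - (x + r)) + r := by ring
      rw [this]
      exact abs_add_le _ _
    have h3 : 5 * q * μ * Real.log T + 5 / 2 * q * μ * Real.log T = 15 / 2 * q * μ * Real.log T := by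
      ring
    linarith
  refine (norm_Rs_le hμ.le hPo hbound).trans ?_
  rw [← div_eq_mul_inv, div_le_iff₀ (by positivity), inv_mul_eq_div, le_div_iff₀ (by positivity)]
  calc (P : ℝ) * T ^ 2 ≤ T * T ^ 2 := mul_le_mul_of_nonneg_right e5 (by positivity)
    _ = T ^ 3 := by ring

/-- summation over dyadic boxes -/
theorem sum_boxes {f : ℂ → ℂ} {q S h : ℝ} (hq : 0 < q) (hS : 3 ≤ S)
    (hdy : ∀ T : ℝ, S ≤ T → zc f (sbox T (2 * T) h) ≤ ENNReal.ofReal (200 * q * T * Real.log T))
    (n : ℕ) :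
    ∀ R : ℝ, S ≤ R → R ≤ 2 ^ n * (2 * S) →
      zc f (sbox 0 R h) ≤ zc f (sbox 0 (2 * S) h) + ENNReal.ofReal (200 * q * R * Real.log R) := by
  have base : ∀ R : ℝ, R ≤ 2 * S →
      zc f (sbox 0 R h) ≤ zc f (sbox 0 (2 * S) h) + ENNReal.ofReal (200 * q * R * Real.log R) := by
    intro R hR
    refine (zc_mono f ?_).trans le_self_add
    rintro z ⟨h1, h2, h3⟩
    exact ⟨h1, h2, h3.trans hR⟩
  induction n with
  | zero =>
    intro R _ hR
    exact base R (by simpa using hR)
  | succ n ih =>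
    intro R hR1 hR2
    rcases le_or_gt R (2 * S) with h | h
    · exact base R h
    · have h1 : S ≤ R / 2 := by linarith
      have h2 : R / 2 ≤ 2 ^ n * (2 * S) := by rw [pow_succ] at hR2; linarith
      have h3 := ih (R / 2) h1 h2
      have h4 := hdy (R / 2) h1
      rw [show 2 * (R / 2) = R by ring] at h4
      have hlog : 0 ≤ Real.log (R / 2) := Real.log_nonneg (by linarith)
      have hlog2 : Real.log (R / 2) ≤ Real.log R := Real.log_le_log (by linarith) (by linarith)
      have hnn : 0 ≤ 200 * q * (R / 2) * Real.log (R / 2) := by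
        have : 0 ≤ R / 2 := by linarith
        positivity
      calc zc f (sbox 0 R _) ≤ zc f (sbox 0 (R / 2) _ ∪ sbox (R / 2) R _) := by
            apply zc_mono
            rintro z ⟨h1, h2, h3⟩
            rcases le_total z.re (R / 2) with h5 | h5
            · exact Or.inl ⟨h1, h2, h5⟩
            · exact Or.inr ⟨h1, h5, h3⟩
        _ ≤ zc f (sbox 0 (R / 2) _) + zc f (sbox (R / 2) R _) := zc_union_le _ _ _
        _ ≤ (zc f (sbox 0 (2 * S) _) + ENNReal.ofReal (200 * q * (R / 2) * Real.log (R / 2))) +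
            ENNReal.ofReal (200 * q * (R / 2) * Real.log (R / 2)) := add_le_add h3 h4
        _ = zc f (sbox 0 (2 * S) _) + ENNReal.ofReal (200 * q * R * Real.log (R / 2)) := by
            rw [add_assoc, ← ENNReal.ofReal_add hnn hnn]
            congr 2
            ring
        _ ≤ _ := by
            have hR0 : 0 ≤ R := by linarith
            gcongr

/-- few zeros with `|Re z| ≤ R` and `|Im z| ≤ 10 q μ log R` -/
theorem few_strip {μ : ℝ} (hμ : 0 < μ) {q : ℝ} (hq : 0 < q) (hq1 : q ≤ 1 / 40) :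
    ∃ R₀ : ℝ, ∀ R : ℝ, R₀ ≤ R →
      zc (XiM μ) {z | |z.re| ≤ R ∧ |z.im| ≤ 10 * q * μ * Real.log R} ≤
        ENNReal.ofReal (500 * q * R * Real.log R) := by
  have hf := differentiable_XiM hμ.le
  have he := XiM_neg μ
  have h0 := XiM_zero_ne hμ.le
  obtain ⟨Cu, hCu, hup⟩ := XiM_upper hμ.le
  obtain ⟨r, hr16, hN⟩ := many_N_upper hf h0 hup
  obtain ⟨T₀, hT₀⟩ := few_box hμ hq hq1
  set f := XiM μ with hfdef
  -- large `R`
  have ev1 : ∀ᶠ R : ℝ in atTop, 10 * q * μ * Real.log R ≤ Real.sqrt R := by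
    have hc0 : 0 < 20 * q * μ := by positivity
    have h := Real.isLittleO_log_id_atTop.bound (c := 1 / (20 * q * μ)) (by positivity)
    have h2 := Real.tendsto_sqrt_atTop.eventually h
    filter_upwards [h2, eventually_ge_atTop 1] with R hR hR1
    have hs : 1 ≤ Real.sqrt R := Real.one_le_sqrt.2 hR1
    have hl : 0 ≤ Real.log (Real.sqrt R) := Real.log_nonneg hs
    simp only [id] at hR
    rw [Real.norm_eq_abs, Real.norm_eq_abs, abs_of_nonneg hl, abs_of_nonneg (by linarith),
      Real.log_sqrt (by linarith)] at hR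
    calc 10 * q * μ * Real.log R = 20 * q * μ * (Real.log R / 2) := by ring
      _ ≤ 20 * q * μ * (1 / (20 * q * μ) * Real.sqrt R) :=
          mul_le_mul_of_nonneg_left hR hc0.le
      _ = Real.sqrt R := by field_simp
  have ev2 : ∀ᶠ R : ℝ in atTop, max (max (max T₀ r) 3) (9 / q) ≤ Real.sqrt R :=
    Real.tendsto_sqrt_atTop.eventually_ge_atTop _
  obtain ⟨R₀, hR₀⟩ := eventually_atTop.1 (ev1.and (ev2.and (eventually_ge_atTop (9 : ℝ))))
  refine ⟨R₀, fun R hR => ?_⟩
  obtain ⟨e1, e2, e3⟩ := hR₀ R hR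
  set S := Real.sqrt R with hSdef
  have hR0 : 0 < R := by linarith
  have hSS : S * S = R := Real.mul_self_sqrt hR0.le
  have hST : T₀ ≤ S := (le_max_left _ _).trans ((le_max_left _ _).trans ((le_max_left _ _).trans e2))
  have hSr : r ≤ S := (le_max_right _ _).trans ((le_max_left _ _).trans ((le_max_left _ _).trans e2))
  have hS3 : 3 ≤ S := (le_max_right _ _).trans ((le_max_left _ _).trans e2)
  have hSq : 9 / q ≤ S := (le_max_right _ _).trans e2
  have hlS : Real.log S = Real.log R / 2 := Real.log_sqrt hR0.le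
  have hlR : 0 ≤ Real.log R := Real.log_nonneg (by linarith)
  set h : ℝ := 10 * q * μ * Real.log R with hh
  have hSR : S ≤ R := by nlinarith
  have hdy : ∀ T : ℝ, S ≤ T → zc f (sbox T (2 * T) h) ≤
      ENNReal.ofReal (200 * q * T * Real.log T) := by
    intro T hT
    refine (zc_mono f ?_).trans (hT₀ T (hST.trans hT))
    rintro z ⟨h1, h2, h3⟩
    refine ⟨h1.trans ?_, h2, h3⟩
    have : Real.log S ≤ Real.log T := Real.log_le_log (by linarith) hT
    have h5 : Real.log R ≤ 2 * Real.log T := by linarith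
    have hc0 : 0 ≤ 10 * q * μ := by positivity
    calc h = 10 * q * μ * Real.log R := hh
      _ ≤ 10 * q * μ * (2 * Real.log T) := mul_le_mul_of_nonneg_left h5 hc0
      _ = 20 * q * μ * Real.log T := by ring
  obtain ⟨n, hn⟩ := pow_unbounded_of_one_lt R (one_lt_two)
  have hbox := sum_boxes (f := f) hq hS3 hdy n R hSR (by
    have : (0:ℝ) < 2 ^ n := by positivity
    nlinarith)
  -- the central part
  have hcen : zc f (sbox 0 (2 * S) h) ≤ ENNReal.ofReal (9 * S * Real.log R) := by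
    have hsub : sbox 0 (2 * S) h ⊆ closedBall 0 (3 * S) := by
      rintro z ⟨h1, h2, h3⟩
      rw [mem_closedBall, dist_zero_right]
      refine (Complex.norm_le_abs_re_add_abs_im _).trans ?_
      rw [abs_of_nonneg h2]
      linarith
    refine (zc_mono f hsub).trans ?_
    rw [zc_closedBall hf ⟨0, h0⟩ 0 (by linarith)]
    apply ENNReal.ofReal_le_ofReal
    refine (hN (3 * S) (by linarith)).trans ?_
    have h6 : Real.log (3 * S) ≤ Real.log R := by
      apply Real.log_le_log (by linarith)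
      nlinarith
    have h7 := mul_le_mul_of_nonneg_left h6 (show 0 ≤ 3 * (3 * S) by linarith)
    linarith
  have hmain : zc f (sbox 0 R h) ≤ ENNReal.ofReal (9 * S * Real.log R + 200 * q * R * Real.log R) := by
    rw [ENNReal.ofReal_add (by positivity) (by positivity)]
    exact hbox.trans (add_le_add hcen le_rfl)
  calc zc f {z | |z.re| ≤ R ∧ |z.im| ≤ h} ≤ zc f (sbox 0 R h ∪ (fun z => -z) '' (sbox 0 R h)) := by
        apply zc_mono
        rintro z ⟨h1, h2⟩
        rw [abs_le] at h1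
        rcases le_total 0 z.re with h5 | h5
        · exact Or.inl ⟨h2, h5, h1.2⟩
        · refine Or.inr ⟨-z, ⟨?_, ?_, ?_⟩, neg_neg z⟩
          · simpa using h2
          · simpa using h5
          · simp only [Complex.neg_re]; linarith
    _ ≤ zc f (sbox 0 R h) + zc f ((fun z => -z) '' (sbox 0 R h)) := zc_union_le _ _ _
    _ = 2 * zc f (sbox 0 R h) := by rw [zc_neg he, two_mul]
    _ ≤ 2 * ENNReal.ofReal (9 * S * Real.log R + 200 * q * R * Real.log R) := by gcongr
    _ = ENNReal.ofReal (2 * (9 * S * Real.log R + 200 * q * R * Real.log R)) := by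
        rw [ENNReal.ofReal_mul (by norm_num)]
        simp
    _ ≤ _ := by
        apply ENNReal.ofReal_le_ofReal
        rw [div_le_iff₀ hq] at hSq
        have h8 : 9 * S ≤ q * R := by
          have := mul_le_mul_of_nonneg_left hSq (show 0 ≤ S by linarith)
          calc 9 * S = S * 9 := by ring
            _ ≤ S * (S * q) := this
            _ = q * (S * S) := by ring
            _ = q * R := by rw [hSS]
        have h9 := mul_le_mul_of_nonneg_right h8 hlR
        have h10 : 0 ≤ q * R * Real.log R := by positivity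
        linarith

/-- the proportion of the zeros with `|Im z| ≤ κ log R` -/
theorem strip_ratio {μ κ : ℝ} (hμ : 0 < μ) (hκ : 0 < κ) :
    ∀ᶠ R : ℝ in atTop, zc (XiM μ) {z | |z.re| ≤ R ∧ |z.im| ≤ κ * Real.log R} ≤
      ENNReal.ofReal (180000 * (κ / μ)) * zc (XiM μ) {z | |z.re| ≤ R} := by
  rcases le_or_gt (κ / (10 * μ)) (1 / 40) with hk | hk
  · obtain ⟨q, hq⟩ : ∃ q : ℝ, q = κ / (10 * μ) := ⟨_, rfl⟩
    have hq0 : 0 < q := by rw [hq]; positivity
    obtain ⟨R₀, h0⟩ := few_strip hμ hq0 (hq ▸ hk)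
    obtain ⟨R₁, h1⟩ := many_XiM hμ.le
    filter_upwards [eventually_ge_atTop R₀, eventually_ge_atTop R₁, eventually_ge_atTop 1] with R a b c
    have h2 := h0 R a
    have h3 := h1 R b
    have hqκ : 10 * q * μ = κ := by rw [hq]; field_simp
    rw [hqκ] at h2
    have hlR : 0 ≤ Real.log R := Real.log_nonneg c
    calc _ ≤ ENNReal.ofReal (500 * q * R * Real.log R) := h2
      _ = ENNReal.ofReal ((180000 * (κ / μ)) * (R * Real.log R / 3600)) := by
          congr 1
          rw [← hqκ]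
          field_simp
          ring
      _ = ENNReal.ofReal (180000 * (κ / μ)) * ENNReal.ofReal (R * Real.log R / 3600) :=
          ENNReal.ofReal_mul (by positivity)
      _ ≤ _ := by gcongr
  · filter_upwards with R
    have h1 : zc (XiM μ) {z | |z.re| ≤ R ∧ |z.im| ≤ κ * Real.log R} ≤
        zc (XiM μ) {z | |z.re| ≤ R} := zc_mono _ fun z hz => hz.1
    refine h1.trans (le_mul_of_one_le_left zero_le ?_)
    rw [← ENNReal.ofReal_one]
    apply ENNReal.ofReal_le_ofReal
    have h2 : κ / (10 * μ) = κ / μ / 10 := by field_simp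
    rw [h2] at hk
    linarith

end Pool.Agent.T6.H61.KK
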