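import Pool.Agent.T6.H61.KK.UDef

set_option autoImplicit false

/-!
# Averages over discs along horizontal lines
-/

namespace Pool.Agent.T6.H61.KK

open Complex MeasureTheory Filter Topology Metric Pool.Agent.Helper242.KK Pool.Agent.Y971.KK

/-- the integral over a rectangle in terms of the integrals over discs with the centres on
horizontal lines -/
theorem avg_cover {ι : Type*} {φ : ℂ → ENNReal} (hφ : Measurable φ) {T L H : ℝ} (hL : 0 < L)
    (hLT : L ≤ T / 2) (s : Finset ι) (a : ι → ℝ)
    (hs : ∀ z ∈ sbox T (2 * T) H, ∃ j ∈ s, |z.im - a j| ≤ L) :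
    ENNReal.ofReal L * ∫⁻ z in sbox T (2 * T) H, φ z ≤
      ∑ j ∈ s, ∫⁻ x in Set.Icc T (2 * T), ∫⁻ z in ball ((x : ℂ) + a j * I) (2 * L), φ z := by
  have hm : ∀ j : ι, MeasurableSet {p : ℝ × ℂ | p.2 ∈ ball ((p.1 : ℂ) + a j * I) (2 * L)} := by
    intro j
    apply IsOpen.measurableSet
    simp only [mem_ball, dist_eq_norm]
    exact isOpen_lt (by fun_prop) continuous_const
  have h1 : ∀ j ∈ s, ∫⁻ x in Set.Icc T (2 * T), ∫⁻ z in ball ((x : ℂ) + a j * I) (2 * L), φ z =
      ∫⁻ z : ℂ, φ z * volume {x : ℝ | x ∈ Set.Icc T (2 * T) ∧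
        z ∈ ball ((x : ℂ) + a j * I) (2 * L)} := by
    intro j _
    have e1 : ∀ x : ℝ, ∫⁻ z in ball ((x : ℂ) + a j * I) (2 * L), φ z =
        ∫⁻ z : ℂ, ({p : ℝ × ℂ | p.2 ∈ ball ((p.1 : ℂ) + a j * I) (2 * L)}.indicator
          (fun p => φ p.2)) (x, z) := by
      intro x
      rw [← lintegral_indicator measurableSet_ball]
      rfl
    simp_rw [e1]
    rw [lintegral_lintegral_swap]
    · refine lintegral_congr fun z => ?_
      have hmz : MeasurableSet {x : ℝ | z ∈ ball ((x : ℂ) + a j * I) (2 * L)} := by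
        apply IsOpen.measurableSet
        simp only [mem_ball, dist_eq_norm]
        exact isOpen_lt (by fun_prop) continuous_const
      have e2 : ∀ x : ℝ, ({p : ℝ × ℂ | p.2 ∈ ball ((p.1 : ℂ) + a j * I) (2 * L)}.indicator
          (fun p => φ p.2)) (x, z) =
          {x : ℝ | z ∈ ball ((x : ℂ) + a j * I) (2 * L)}.indicator (fun _ => φ z) x := by
        intro x
        rfl
      simp_rw [e2]
      rw [lintegral_indicator hmz, setLIntegral_const, Measure.restrict_apply hmz]
      congr 2
      ext x
      simp only [Set.mem_inter_iff, Set.mem_ofPred_eq]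
      tauto
    · exact ((hφ.comp measurable_snd).indicator (hm j)).aemeasurable
  rw [Finset.sum_congr rfl h1, ← lintegral_finsetSum' _ (fun j _ => ?_), mul_comm,
    ← lintegral_mul_const' _ _ ENNReal.ofReal_ne_top,
    ← lintegral_indicator (measurableSet_sbox T (2 * T) H)]
  · refine lintegral_mono fun z => ?_
    simp only
    by_cases hz : z ∈ sbox T (2 * T) H
    · rw [Set.indicator_of_mem hz]
      obtain ⟨j, hj, hja⟩ := hs z hz
      obtain ⟨hz1, hz2, hz3⟩ := hz
      have hball : ∀ x : ℝ, |x - z.re| ≤ L → z ∈ ball ((x : ℂ) + a j * I) (2 * L) := by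
        intro x hx
        rw [mem_ball, dist_eq_norm, Complex.norm_eq_sqrt_sq_add_sq]
        rw [Real.sqrt_lt' (by positivity)]
        have g1 : (z - ((x : ℂ) + a j * I)).re = z.re - x := by simp
        have g2 : (z - ((x : ℂ) + a j * I)).im = z.im - a j := by simp
        rw [g1, g2]
        have g3 : (z.re - x) ^ 2 ≤ L ^ 2 := by
          rw [← sq_abs, abs_sub_comm]
          exact pow_le_pow_left₀ (abs_nonneg _) hx 2
        have g4 : (z.im - a j) ^ 2 ≤ L ^ 2 := by
          rw [← sq_abs]
          exact pow_le_pow_left₀ (abs_nonneg _) hja 2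
        nlinarith
      have hvol : ENNReal.ofReal L ≤ volume {x : ℝ | x ∈ Set.Icc T (2 * T) ∧
        z ∈ ball ((x : ℂ) + a j * I) (2 * L)} := by
        rcases le_total (z.re + L) (2 * T) with h | h
        · calc ENNReal.ofReal L = volume (Set.Icc z.re (z.re + L)) := by
                rw [Real.volume_Icc]; congr 1; ring
            _ ≤ _ := by
                apply measure_mono
                rintro x ⟨hx1, hx2⟩
                refine ⟨⟨by linarith, by linarith⟩, hball x ?_⟩
                rw [abs_le]
                constructor <;> linarith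
        · calc ENNReal.ofReal L = volume (Set.Icc (z.re - L) z.re) := by
                rw [Real.volume_Icc]; congr 1; ring
            _ ≤ _ := by
                apply measure_mono
                rintro x ⟨hx1, hx2⟩
                refine ⟨⟨by linarith, by linarith⟩, hball x ?_⟩
                rw [abs_le]
                constructor <;> linarith
      calc φ z * ENNReal.ofReal L ≤ φ z * volume {x : ℝ | x ∈ Set.Icc T (2 * T) ∧
            z ∈ ball ((x : ℂ) + a j * I) (2 * L)} := by gcongr
        _ ≤ _ := Finset.single_le_sum (f := fun j => φ z * volume {x : ℝ | x ∈ Set.Icc T (2 * T) ∧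
            z ∈ ball ((x : ℂ) + a j * I) (2 * L)}) (fun _ _ => zero_le) hj
    · rw [Set.indicator_of_notMem hz]
      exact zero_le
  · refine (hφ.mul ?_).aemeasurable
    have e3 : (fun z : ℂ => volume {x : ℝ | x ∈ Set.Icc T (2 * T) ∧
        z ∈ ball ((x : ℂ) + a j * I) (2 * L)}) =
        fun z : ℂ => volume ((fun x : ℝ => (z, x)) ⁻¹' {p : ℂ × ℝ | p.2 ∈ Set.Icc T (2 * T) ∧
          p.1 ∈ ball ((p.2 : ℂ) + a j * I) (2 * L)}) := rfl
    rw [e3]
    apply measurable_measure_prodMk_left
    apply MeasurableSet.inter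
    · exact measurable_snd measurableSet_Icc
    · apply IsOpen.measurableSet
      change IsOpen {p : ℂ × ℝ | p.1 ∈ ball ((p.2 : ℂ) + a j * I) (2 * L)}
      simp only [mem_ball, dist_eq_norm]
      exact isOpen_lt (by fun_prop) continuous_const

end Pool.Agent.T6.H61.KK
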