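import Pool.Agent.Y971.KK.RStat
import Pool.Agent.Y971.KK.RAsym
import Pool.Agent.Y971.KK.RSer
import Pool.Agent.T6.H61.KK.HWin

set_option autoImplicit false

/-!
# Few windows in which `Ξ_{-μ}` is small, on the line `Im z = - s μ log T`, `0 ≤ s < 1`
-/

namespace Pool.Agent.T6.H61.KK

open Complex MeasureTheory Filter Topology Metric Pool.Agent.Helper242.KK Pool.Agent.Y971.KK

/-- smallness of the function near a point of the line `Im z = - s μ log T` gives smallness of the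
Dirichlet series at the frequencies `(1 / 2 - s / 2 - q) log T - δ` -/
theorem small_of_bad_h {μ q s C X K₀ : ℝ} (hμ : 0 < μ) (hq : 0 < q) (hs0 : 0 ≤ s)
    (hsq : s / 2 + q < 1 / 2) (hK₀ : 0 ≤ K₀) {f : ℝ → ℝ → ℂ}
    {D : ℝ → ℝ → ℂ} (hC : 0 < C) (hX : 1 ≤ X)
    (hD : ∀ a x₀ b ρ m : ℝ, X ≤ x₀ → 0 ≤ b → b ≤ Real.log x₀ → 0 ≤ ρ → 0 ≤ m →
      (∀ x : ℝ, |x - x₀| ≤ ρ → ‖f a x‖ * Real.exp (Real.pi / 4 * |x|) ≤ m) →
      ‖D b x₀‖ ≤ C * x₀ ^ 4 *
        Real.exp (2 * μ * (1 + 1 / 20) * (Real.log x₀ / 2 - b + a / (2 * μ)) ^ 2) *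
        (m + Real.exp (-(1 - 1 / 20) ^ 2 * ρ ^ 2 / (8 * μ)))) :
    ∃ T₁ : ℝ, ∀ T x₀ : ℝ, T₁ ≤ T → T ≤ x₀ → x₀ ≤ 3 * T →
      (∀ x : ℝ, |x - x₀| ≤ 5 * q * μ * Real.log T →
        ‖f (-(s * μ * Real.log T)) x‖ * Real.exp (Real.pi / 4 * |x|) ≤
          Real.exp (-3 * q ^ 2 * μ * Real.log T ^ 2)) →
      ∀ δ : ℝ, 0 ≤ δ → δ ≤ K₀ → ‖D ((1 / 2 - s / 2 - q) * Real.log T - δ) x₀‖ ≤ (T ^ 3)⁻¹ := by
  obtain ⟨Y, hY⟩ : ∃ Y, Y = (5 * μ * q * (1 + K₀) + 3 * μ * (1 + K₀) ^ 2 + 14) /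
    (1 / 2 * (μ * q ^ 2)) := ⟨_, rfl⟩
  have hY0 : 0 < Y := by rw [hY]; positivity
  obtain ⟨c0, hc0⟩ : ∃ c0, c0 = 1 / 2 - s / 2 - q := ⟨_, rfl⟩
  have hc0pos : 0 < c0 := by rw [hc0]; linarith
  refine ⟨max X (Real.exp (1 + Y + K₀ / c0 + 24 * C)), fun T x₀ hT hx0 hx1 hc δ hδ0 hδ1 => ?_⟩
  have hTpos : 0 < T := (Real.exp_pos _).trans_le ((le_max_right _ _).trans hT)
  have hl := (Real.le_log_iff_exp_le hTpos).2 ((le_max_right _ _).trans hT)
  have hX' : X ≤ x₀ := ((le_max_left _ _).trans hT).trans hx0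
  have hx4 := aux_xpow hTpos hx0 hx1
  obtain ⟨hlg1, hlg2⟩ := aux_log hTpos hx0 hx1
  have hT3 : (T ^ 3)⁻¹ = Real.exp (-(3 * Real.log T)) := by
    have : 3 * Real.log T = ((3 : ℕ) : ℝ) * Real.log T := by norm_num
    rw [this, Real.exp_neg, Real.exp_nat_mul, Real.exp_log hTpos]
  rw [hT3, ← hc0]
  set l := Real.log T with hldef
  have hKc : 0 ≤ K₀ / c0 := by positivity
  have hlpos : 1 ≤ l := by linarith
  have hlY : Y ≤ l := by linarith
  have hlK : K₀ / c0 ≤ l := by linarith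
  rw [div_le_iff₀ hc0pos] at hlK
  rw [hY, div_le_iff₀ (by positivity)] at hlY
  have hb0 : 0 ≤ c0 * l - δ := by linarith
  have hb1 : c0 * l - δ ≤ Real.log x₀ := by
    have h1 : c0 * l ≤ 1 * l := mul_le_mul_of_nonneg_right (by linarith) (by linarith)
    linarith
  have h := hD (-(s * μ * l)) x₀ (c0 * l - δ) (5 * q * μ * l) (Real.exp (-3 * q ^ 2 * μ * l ^ 2)) hX'
    hb0 hb1 (by positivity) (Real.exp_pos _).le hc
  have harg : Real.log x₀ / 2 - (c0 * l - δ) + -(s * μ * l) / (2 * μ) =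
      Real.log x₀ / 2 - l / 2 + q * l + δ := by
    rw [hc0]
    field_simp
    ring
  rw [harg] at h
  have hql0 : 0 ≤ q * l := by positivity
  have e2 : Real.exp (2 * μ * (1 + 1 / 20) * (Real.log x₀ / 2 - l / 2 + q * l + δ) ^ 2) ≤
      Real.exp (21 / 10 * μ * (q * l + (1 + K₀)) ^ 2) := by
    apply Real.exp_le_exp.2
    have h1 : (Real.log x₀ / 2 - l / 2 + q * l + δ) ^ 2 ≤ (q * l + (1 + K₀)) ^ 2 :=
      pow_le_pow_left₀ (by linarith) (by linarith) 2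
    have h2 := mul_le_mul_of_nonneg_left h1 (show 0 ≤ 21 / 10 * μ by positivity)
    calc 2 * μ * (1 + 1 / 20) * (Real.log x₀ / 2 - l / 2 + q * l + δ) ^ 2 =
          21 / 10 * μ * (Real.log x₀ / 2 - l / 2 + q * l + δ) ^ 2 := by ring
      _ ≤ _ := h2
  have e3 : Real.exp (-3 * q ^ 2 * μ * l ^ 2) +
      Real.exp (-(1 - 1 / 20) ^ 2 * (5 * q * μ * l) ^ 2 / (8 * μ)) ≤
      2 * Real.exp (-(282 / 100) * μ * (q * l) ^ 2) := by
    have hml : 0 ≤ μ * (q * l) ^ 2 := by positivity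
    have h1 : Real.exp (-3 * q ^ 2 * μ * l ^ 2) ≤ Real.exp (-(282 / 100) * μ * (q * l) ^ 2) := by
      apply Real.exp_le_exp.2
      nlinarith only [hml]
    have h2 : Real.exp (-(1 - 1 / 20) ^ 2 * (5 * q * μ * l) ^ 2 / (8 * μ)) ≤
        Real.exp (-(282 / 100) * μ * (q * l) ^ 2) := by
      apply Real.exp_le_exp.2
      have h3 : -(1 - 1 / 20) ^ 2 * (5 * q * μ * l) ^ 2 / (8 * μ) =
          -(361 / 128) * (μ * (q * l) ^ 2) := by
        field_simp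
        norm_num
      rw [h3]
      nlinarith only [hml]
    linarith
  have hfin : ‖D (c0 * l - δ) x₀‖ ≤ C * (81 * Real.exp (4 * l)) *
      Real.exp (21 / 10 * μ * (q * l + (1 + K₀)) ^ 2) *
      (2 * Real.exp (-(282 / 100) * μ * (q * l) ^ 2)) := by
    refine h.trans ?_
    gcongr
  have h5 : C * (81 * Real.exp (4 * l)) * Real.exp (21 / 10 * μ * (q * l + (1 + K₀)) ^ 2) *
      (2 * Real.exp (-(282 / 100) * μ * (q * l) ^ 2)) =
      162 * C * Real.exp (4 * l + 21 / 10 * μ * (q * l + (1 + K₀)) ^ 2 +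
        -(282 / 100) * μ * (q * l) ^ 2) := by
    rw [Real.exp_add, Real.exp_add]
    ring
  rw [h5] at hfin
  have h6 : 4 * l + 21 / 10 * μ * (q * l + (1 + K₀)) ^ 2 + -(282 / 100) * μ * (q * l) ^ 2 ≤
      -(10 * l) := by
    have g1 := mul_le_mul_of_nonneg_right hlY (show 0 ≤ l by linarith)
    have g2 : 3 * μ * (1 + K₀) ^ 2 ≤ 3 * μ * (1 + K₀) ^ 2 * l :=
      le_mul_of_one_le_right (by positivity) hlpos
    have g3 : 0 ≤ μ * q ^ 2 * l ^ 2 := by positivity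
    have g4 : 0 ≤ μ * q * (1 + K₀) * l := by positivity
    have g5 : 0 ≤ μ * (1 + K₀) ^ 2 := by positivity
    have g6 : 21 / 10 * μ * (q * l + (1 + K₀)) ^ 2 = 21 / 10 * (μ * q ^ 2 * l ^ 2) +
      21 / 5 * (μ * q * (1 + K₀) * l) + 21 / 10 * (μ * (1 + K₀) ^ 2) := by ring
    have g7 : -(282 / 100) * μ * (q * l) ^ 2 = -(282 / 100) * (μ * q ^ 2 * l ^ 2) := by ring
    have g8 : l * (1 / 2 * (μ * q ^ 2)) * l = 1 / 2 * (μ * q ^ 2 * l ^ 2) := by ring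
    have g9 : (5 * μ * q * (1 + K₀) + 3 * μ * (1 + K₀) ^ 2 + 14) * l =
      5 * (μ * q * (1 + K₀) * l) + 3 * μ * (1 + K₀) ^ 2 * l + 14 * l := by ring
    rw [g8, g9] at g1
    rw [g6, g7]
    linarith
  have h7 := Real.exp_le_exp.2 h6
  have h8 : ‖D (c0 * l - δ) x₀‖ ≤ 162 * C * Real.exp (-(10 * l)) :=
    hfin.trans (mul_le_mul_of_nonneg_left h7 (by positivity))
  refine h8.trans ?_
  have h9 : 7 * l + 1 ≤ Real.exp (7 * l) := Real.add_one_le_exp _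
  have hl3 : 24 * C ≤ l := by linarith
  have h10 : 162 * C ≤ Real.exp (7 * l) := by linarith
  have h11 : Real.exp (-(3 * l)) = Real.exp (7 * l) * Real.exp (-(10 * l)) := by
    rw [← Real.exp_add]
    congr 1
    ring
  rw [h11]
  exact mul_le_mul_of_nonneg_right h10 (Real.exp_pos _).le

/-- the measure of the bad windows at the height `- s μ log T` -/
theorem bad_measure {μ q s ε : ℝ} (hμ : 0 < μ) (hq : 0 < q) (hs0 : 0 ≤ s)
    (hsq : s / 2 + q < 1 / 2) (hε : 0 < ε) :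
    ∃ T₀ : ℝ, ∀ T : ℝ, T₀ ≤ T →
      volume {x : ℝ | x ∈ Set.Icc T (2 * T) ∧ ∀ y : ℝ, |y - x| ≤ 15 / 2 * q * μ * Real.log T →
        ‖fa μ (-(s * μ * Real.log T)) y‖ * Real.exp (Real.pi / 4 * |y|) ≤
          Real.exp (-3 * q ^ 2 * μ * Real.log T ^ 2)} ≤ ENNReal.ofReal (ε * T) := by
  obtain ⟨C, X, hC, hX, hD⟩ := Dser_window_h hμ
  obtain ⟨P, hPo, T₁, hst⟩ := stat_rough (μ := μ) (β := 1 / 2 - s / 2 - q) (ρ := 5 / 2 * q * μ)
    (ε := ε / 2) hμ (by linarith) (by linarith) (by positivity) (by positivity)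
  have hP1 : (1 : ℝ) ≤ P := by exact_mod_cast hPo.pos
  obtain ⟨T₂, hsm⟩ := small_of_bad_h (K₀ := Real.log P) hμ hq hs0 hsq (Real.log_nonneg hP1) hC hX hD
  have ev1 : ∀ᶠ T : ℝ in atTop, 5 / 2 * q * μ * Real.log T ≤ min 1 (ε / 2) * T := by
    have hc0 : 0 < 5 / 2 * q * μ := by positivity
    have hm : 0 < min 1 (ε / 2) := lt_min one_pos (by positivity)
    have h := Real.isLittleO_log_id_atTop.bound (c := min 1 (ε / 2) / (5 / 2 * q * μ)) (by positivity)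
    filter_upwards [h, eventually_ge_atTop 1] with T hT hT1
    have hl : 0 ≤ Real.log T := Real.log_nonneg hT1
    simp only [id] at hT
    rw [Real.norm_eq_abs, Real.norm_eq_abs, abs_of_nonneg hl, abs_of_nonneg (by linarith)] at hT
    calc 5 / 2 * q * μ * Real.log T ≤ 5 / 2 * q * μ * (min 1 (ε / 2) / (5 / 2 * q * μ) * T) :=
          mul_le_mul_of_nonneg_left hT hc0.le
      _ = min 1 (ε / 2) * T := by field_simp
  have ev := ev1.and ((eventually_ge_atTop T₁).and ((eventually_ge_atTop T₂).and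
    ((eventually_ge_atTop (1 : ℝ)).and (eventually_ge_atTop (P : ℝ)))))
  obtain ⟨T₃, hT₃⟩ := eventually_atTop.1 ev
  refine ⟨T₃, fun T hT => ?_⟩
  obtain ⟨e1, e2, e3, e4, e5⟩ := hT₃ T hT
  have hT0 : 0 < T := by linarith
  have hl0 : 0 ≤ Real.log T := Real.log_nonneg e4
  obtain ⟨w, hw⟩ : ∃ w, w = 5 / 2 * q * μ * Real.log T := ⟨_, rfl⟩
  have hw0 : 0 ≤ w := by rw [hw]; positivity
  rw [← hw] at e1
  have hwT : w ≤ T := e1.trans (by
    have := mul_le_mul_of_nonneg_right (min_le_left 1 (ε / 2)) hT0.le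
    linarith)
  have hwε : w ≤ ε / 2 * T := e1.trans (mul_le_mul_of_nonneg_right (min_le_right _ _) hT0.le)
  set B := {x : ℝ | x ∈ Set.Icc T (2 * T) ∧ ∀ r : ℝ, |r| ≤ 5 / 2 * q * μ * Real.log T →
        ‖Rs P μ ((1 / 2 - s / 2 - q) * Real.log T) (x + r)‖ ≤ (T ^ 2)⁻¹} with hB
  have hfin : volume B ≠ ⊤ := by
    refine ne_top_of_le_ne_top ?_ (measure_mono (fun x hx => hx.1) : _ ≤ volume (Set.Icc T (2 * T)))
    rw [Real.volume_Icc]
    exact ENNReal.ofReal_ne_top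
  have hB1 : volume B ≤ ENNReal.ofReal (ε / 2 * T) := by
    rw [← ENNReal.ofReal_toReal hfin]
    exact ENNReal.ofReal_le_ofReal (hst T e2)
  have hsub : {x : ℝ | x ∈ Set.Icc T (2 * T) ∧ ∀ y : ℝ, |y - x| ≤ 15 / 2 * q * μ * Real.log T →
        ‖fa μ (-(s * μ * Real.log T)) y‖ * Real.exp (Real.pi / 4 * |y|) ≤
          Real.exp (-3 * q ^ 2 * μ * Real.log T ^ 2)} ⊆ Set.Icc T (T + w) ∪ B := by
    rintro x ⟨hx, hx3⟩
    rcases le_total x (T + w) with hxw | hxw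
    · exact Or.inl ⟨hx.1, hxw⟩
    refine Or.inr ⟨hx, fun r hr => ?_⟩
    rw [← hw] at hr
    have hr' := abs_le.1 hr
    have hbound : ∀ δ : ℝ, 0 ≤ δ → δ ≤ Real.log P →
        ‖Dser μ ((1 / 2 - s / 2 - q) * Real.log T - δ) (x + r)‖ ≤ (T ^ 3)⁻¹ := by
      refine hsm T (x + r) e3 (by linarith) (by linarith [hx.2]) ?_
      intro y hy
      apply hx3
      have h2 : |y - x| ≤ |y - (x + r)| + |r| := by
        have : y - x = (y - (x + r)) + r := by ring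
        rw [this]
        exact abs_add_le _ _
      have h3 : 5 * q * μ * Real.log T + w = 15 / 2 * q * μ * Real.log T := by
        rw [hw]; ring
      linarith
    refine (norm_Rs_le hμ.le hPo hbound).trans ?_
    rw [← div_eq_mul_inv, div_le_iff₀ (by positivity), inv_mul_eq_div, le_div_iff₀ (by positivity)]
    calc (P : ℝ) * T ^ 2 ≤ T * T ^ 2 := mul_le_mul_of_nonneg_right e5 (by positivity)
      _ = T ^ 3 := by ring
  refine (measure_mono hsub).trans ((measure_union_le _ _).trans ?_)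
  rw [Real.volume_Icc]
  calc ENNReal.ofReal (T + w - T) + volume B ≤
        ENNReal.ofReal (ε / 2 * T) + ENNReal.ofReal (ε / 2 * T) :=
        add_le_add (ENNReal.ofReal_le_ofReal (by linarith)) hB1
    _ = ENNReal.ofReal (ε * T) := by
        rw [← ENNReal.ofReal_add (by positivity) (by positivity)]
        congr 1
        ring

end Pool.Agent.T6.H61.KK
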