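import Pool.Agent.T6.H61.KK.UStrip

set_option autoImplicit false

/-!
# The asymptotic number of zeros of `Ξ_{-μ}` in discs
-/

namespace Pool.Agent.T6.H61.KK

open Complex MeasureTheory Filter Topology Metric Pool.Agent.Helper242.KK Pool.Agent.Y971.KK

theorem integral_abs_sin : ∫ θ in (0:ℝ)..(2 * Real.pi), |Real.sin θ| = 4 := by
  have hc : Continuous fun θ : ℝ => |Real.sin θ| := by fun_prop
  rw [← intervalIntegral.integral_add_adjacent_intervals (b := Real.pi)
    (hc.intervalIntegrable _ _) (hc.intervalIntegrable _ _)]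
  have h1 : ∫ θ in (0:ℝ)..Real.pi, |Real.sin θ| = ∫ θ in (0:ℝ)..Real.pi, Real.sin θ := by
    apply intervalIntegral.integral_congr
    intro θ hθ
    rw [Set.uIcc_of_le Real.pi_pos.le] at hθ
    exact abs_of_nonneg (Real.sin_nonneg_of_mem_Icc hθ)
  have h2 : ∫ θ in Real.pi..(2 * Real.pi), |Real.sin θ| =
      ∫ θ in Real.pi..(2 * Real.pi), -Real.sin θ := by
    apply intervalIntegral.integral_congr
    intro θ hθ
    rw [Set.uIcc_of_le (by linarith [Real.pi_pos])] at hθ
    simp only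
    rw [abs_of_nonpos]
    have h3 : Real.sin θ = -Real.sin (θ - Real.pi) := by
      rw [Real.sin_sub_pi]; ring
    rw [h3, neg_nonpos]
    exact Real.sin_nonneg_of_mem_Icc ⟨by linarith [hθ.1], by linarith [hθ.2]⟩
  rw [h1, h2, intervalIntegral.integral_neg, integral_sin, integral_sin]
  simp
  norm_num

theorem circleAverage_abs_im {R : ℝ} (hR : 0 ≤ R) :
    Real.circleAverage (fun z : ℂ => |z.im|) 0 R = 2 * R / Real.pi := by
  rw [Real.circleAverage_def]
  have h1 : ∀ θ : ℝ, |(circleMap 0 R θ).im| = R * |Real.sin θ| := by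
    intro θ
    have : (circleMap 0 R θ).im = R * Real.sin θ := by
      simp [circleMap, Complex.exp_im]
    rw [this, abs_mul, abs_of_nonneg hR]
  simp_rw [h1]
  rw [intervalIntegral.integral_const_mul, integral_abs_sin, smul_eq_mul]
  field_simp
  ring

/-- the upper bound for the logarithmic counting function -/
theorem Ssum_upper {μ : ℝ} (hμ : 0 ≤ μ) : ∃ C : ℝ, 0 ≤ C ∧ ∀ R : ℝ, 1 ≤ R →
    Ssum (XiM μ) R 0 ≤ R / Real.pi * Real.log R + C * R := by
  obtain ⟨C, hC, h⟩ := XiM_upper hμ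
  have hf := differentiable_XiM hμ
  have hf0 := XiM_zero_ne hμ
  refine ⟨2 * C + 2 + |Real.log ‖XiM μ 0‖|, by positivity, fun R hR => ?_⟩
  have hR0 : 0 < R := by linarith
  have hA : AnalyticOnNhd ℂ (XiM μ) (closedBall 0 |R|) := fun x _ => hf.analyticAt x
  have hS : AnalyticOnNhd ℂ (XiM μ) (sphere 0 |R|) := fun x _ => hf.analyticAt x
  have hJ := AnalyticOnNhd.circleAverage_log_norm hR0.ne' hA hf0
  have hav : Real.circleAverage (fun z => Real.log ‖XiM μ z‖) 0 R ≤
      Real.circleAverage (fun z : ℂ => Real.log (2 + R) / 2 * |z.im| + C * (1 + R)) 0 R := by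
    apply Real.circleAverage_mono
    · exact hS.meromorphicOn.circleIntegrable_log_norm
    · exact ContinuousOn.circleIntegrable' (by fun_prop)
    · intro z hz
      rw [mem_sphere, dist_zero_right, abs_of_pos hR0] at hz
      have h1 : |z.im| ≤ R := by rw [← hz]; exact Complex.abs_im_le_norm z
      have h2 : 0 ≤ |z.im| := abs_nonneg _
      have h3 : 0 ≤ Real.log (2 + |z.im|) := Real.log_nonneg (by linarith)
      have h4 : Real.log (2 + |z.im|) ≤ Real.log (2 + R) := Real.log_le_log (by linarith) (by linarith)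
      have h5 : Real.log ‖XiM μ z‖ ≤ |z.im| / 2 * Real.log (2 + |z.im|) + C * (1 + |z.im|) := by
        rcases eq_or_lt_of_le (norm_nonneg (XiM μ z)) with h0 | h0
        · rw [← h0, Real.log_zero]
          positivity
        · exact (Real.log_le_iff_le_exp h0).2 (h z)
      refine h5.trans ?_
      have h6 : |z.im| / 2 * Real.log (2 + |z.im|) ≤ |z.im| / 2 * Real.log (2 + R) := by gcongr
      have h7 : C * (1 + |z.im|) ≤ C * (1 + R) := by gcongr
      linarith
  have hav2 : Real.circleAverage (fun z : ℂ => Real.log (2 + R) / 2 * |z.im| + C * (1 + R)) 0 R =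
      R / Real.pi * Real.log (2 + R) + C * (1 + R) := by
    have e1 := Real.circleAverage_fun_add (c := (0:ℂ)) (R := R)
      (f₁ := fun z : ℂ => (Real.log (2 + R) / 2) • |z.im|)
      (f₂ := fun _ : ℂ => C * (1 + R))
      (ContinuousOn.circleIntegrable' (by fun_prop)) (ContinuousOn.circleIntegrable' (by fun_prop))
    rw [Real.circleAverage_const, Real.circleAverage_fun_smul, circleAverage_abs_im hR0.le] at e1
    simp only [smul_eq_mul] at e1
    rw [e1]
    ring
  have hlog : Real.log (2 + R) ≤ Real.log R + 2 := by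
    have h1 : Real.log (2 + R) ≤ Real.log (R * 3) := Real.log_le_log (by linarith) (by linarith)
    rw [Real.log_mul hR0.ne' (by norm_num)] at h1
    have h2 := Real.log_le_sub_one_of_pos (show (0:ℝ) < 3 by norm_num)
    linarith
  have hSs : Ssum (XiM μ) R 0 = Real.circleAverage (fun z => Real.log ‖XiM μ z‖) 0 R -
      Real.log ‖XiM μ 0‖ := by
    rw [hJ]
    unfold Ssum
    ring
  rw [hSs]
  rw [hav2] at hav
  have h1 : R / Real.pi * Real.log (2 + R) ≤ R / Real.pi * Real.log R + R / Real.pi * 2 := by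
    rw [← mul_add]
    gcongr
  have h2 : R / Real.pi ≤ R := by
    apply div_le_self hR0.le
    linarith [Real.pi_gt_three]
  have h3 := neg_abs_le (Real.log ‖XiM μ 0‖)
  have h4 : |Real.log ‖XiM μ 0‖| ≤ |Real.log ‖XiM μ 0‖| * R :=
    le_mul_of_one_le_right (abs_nonneg _) hR
  have h5 : C * 1 ≤ C * R := mul_le_mul_of_nonneg_left hR hC.le
  linarith

/-- the number of `j` with `r ρ ^ j ≤ R` -/
theorem count_j {r R ρ : ℝ} (hr : 0 < r) (hrR : r ≤ R) (hρ : 1 < ρ) (m : ℕ) (P : ℕ → Prop)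
    [DecidablePred P] (hP : ∀ j, P j → r * ρ ^ j ≤ R) :
    Real.log ρ * (((Finset.Icc 1 m).filter P).card : ℝ) ≤ Real.log (R * r⁻¹) := by
  have hl : 0 < Real.log ρ := Real.log_pos hρ
  have hRr : 1 ≤ R * r⁻¹ := by
    rw [← div_eq_mul_inv, le_div_iff₀ hr]; linarith
  have hx : 0 ≤ Real.log (R * r⁻¹) / Real.log ρ := div_nonneg (Real.log_nonneg hRr) hl.le
  have h1 : (Finset.Icc 1 m).filter P ⊆ Finset.Icc 1 ⌊Real.log (R * r⁻¹) / Real.log ρ⌋₊ := by
    intro j hj
    rw [Finset.mem_filter, Finset.mem_Icc] at hj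
    rw [Finset.mem_Icc]
    refine ⟨hj.1.1, ?_⟩
    rw [Nat.le_floor_iff hx, le_div_iff₀ hl]
    have h2 := hP j hj.2
    have h3 : ρ ^ j ≤ R * r⁻¹ := by
      rw [← div_eq_mul_inv, le_div_iff₀ hr]; linarith
    have h4 := Real.log_le_log (by positivity) h3
    rwa [Real.log_pow] at h4
  have h2 := Finset.card_le_card h1
  rw [Nat.card_Icc] at h2
  have h3 : ((Finset.Icc 1 m).filter P).card ≤ ⌊Real.log (R * r⁻¹) / Real.log ρ⌋₊ := by omega
  have h4 : (((Finset.Icc 1 m).filter P).card : ℝ) ≤ Real.log (R * r⁻¹) / Real.log ρ :=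
    (Nat.cast_le.2 h3).trans (Nat.floor_le hx)
  rw [le_div_iff₀ hl] at h4
  linarith

/-- The logarithmic counting function bounds the number of zeros of large imaginary part plus the
number of zeros of small imaginary part in a sequence of discs. -/
theorem ball_sum {f : ℂ → ℂ} (hf : Differentiable ℂ f) (h0 : f 0 ≠ 0) {R ρ H : ℝ} (m : ℕ)
    (hR : 0 < R) (hρ : 1 < ρ) (hH : 0 ≤ H) (Hj : ℕ → ℝ) (hHj : ∀ j, Hj j ≤ H) :
    zc f {z | ‖z‖ ≤ R / Real.exp 1 ∧ H < |z.im|} +
      ENNReal.ofReal (Real.log ρ) *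
        ∑ j ∈ Finset.Icc 1 m, zc f {z | ‖z‖ ≤ R / ρ ^ j ∧ |z.im| ≤ Hj j} ≤
      ENNReal.ofReal (Ssum f R 0) := by
  classical
  have hl : 0 < Real.log ρ := Real.log_pos hρ
  set E := MeromorphicOn.divisor f (closedBall (0 : ℂ) R) with hE
  set s := (E.finiteSupport (isCompact_closedBall 0 R)).toFinset with hs
  have hsub1 : {z : ℂ | ‖z‖ ≤ R / Real.exp 1 ∧ H < |z.im|} ⊆ closedBall 0 R := by
    rintro z ⟨h1, -⟩
    rw [mem_closedBall, dist_zero_right]
    exact h1.trans (div_le_self hR.le (Real.one_le_exp (by norm_num)))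
  have hsub2 : ∀ j : ℕ, {z : ℂ | ‖z‖ ≤ R / ρ ^ j ∧ |z.im| ≤ Hj j} ⊆ closedBall 0 R := by
    rintro j z ⟨h1, -⟩
    rw [mem_closedBall, dist_zero_right]
    exact h1.trans (div_le_self hR.le (one_le_pow₀ hρ.le))
  rw [Ssum_eq hf hR h0 (Set.Subset.refl _), zc_eq_sum hf ⟨0, h0⟩ hsub1,
    ENNReal.ofReal_sum_of_nonneg
      (fun u _ => mul_nonneg (divisor_nonneg hf _ u) Real.posLog_nonneg)]
  have h2 : ∀ j ∈ Finset.Icc 1 m, zc f {z | ‖z‖ ≤ R / ρ ^ j ∧ |z.im| ≤ Hj j} =
      ∑ u ∈ s, if u ∈ {z : ℂ | ‖z‖ ≤ R / ρ ^ j ∧ |z.im| ≤ Hj j} then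
        ENNReal.ofReal (E u : ℝ) else 0 := by
    intro j _
    rw [zc_eq_sum hf ⟨0, h0⟩ (hsub2 j), Finset.sum_filter]
  rw [Finset.sum_congr rfl h2, Finset.sum_comm, Finset.mul_sum, Finset.sum_filter,
    ← Finset.sum_add_distrib]
  refine Finset.sum_le_sum fun u hu => ?_
  have hD := divisor_nonneg hf (closedBall (0:ℂ) R) u
  have hu0 : u ≠ 0 := by
    rintro rfl
    rw [Set.Finite.mem_toFinset, Function.mem_support] at hu
    apply hu
    have hA' : AnalyticOnNhd ℂ f (closedBall 0 R) := fun x _ => hf.analyticAt x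
    rw [MeromorphicOn.AnalyticOnNhd.divisor_apply hA' (mem_closedBall_self hR.le),
            (hf.analyticAt 0).analyticOrderAt_eq_zero.2 h0]
    rfl
  have hun : 0 < ‖u‖ := norm_pos_iff.2 hu0
  have hsum : (∑ j ∈ Finset.Icc 1 m, if u ∈ {z : ℂ | ‖z‖ ≤ R / ρ ^ j ∧ |z.im| ≤ Hj j} then
        ENNReal.ofReal (E u : ℝ) else 0) = ENNReal.ofReal (E u : ℝ) *
        ENNReal.ofReal ((((Finset.Icc 1 m).filter
          (fun j => u ∈ {z : ℂ | ‖z‖ ≤ R / ρ ^ j ∧ |z.im| ≤ Hj j})).card : ℝ)) := by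
    rw [← Finset.sum_filter, Finset.sum_const, nsmul_eq_mul, mul_comm, ENNReal.ofReal_natCast]
  rw [hsum, ENNReal.ofReal_mul hD, zero_sub, norm_neg]
  by_cases huE : u ∈ {z : ℂ | ‖z‖ ≤ R / Real.exp 1 ∧ H < |z.im|}
  · rw [if_pos huE]
    have h3 : (Finset.Icc 1 m).filter
          (fun j => u ∈ {z : ℂ | ‖z‖ ≤ R / ρ ^ j ∧ |z.im| ≤ Hj j}) = ∅ := by
      rw [Finset.filter_eq_empty_iff]
      rintro j - ⟨-, h4⟩
      linarith [huE.2, hHj j]
    rw [h3]
    simp only [Finset.card_empty, Nat.cast_zero, ENNReal.ofReal_zero, mul_zero, add_zero]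
    apply le_mul_of_one_le_right zero_le
    rw [← ENNReal.ofReal_one]
    apply ENNReal.ofReal_le_ofReal
    refine le_trans ?_ (le_max_right _ _)
    rw [Real.le_log_iff_exp_le (by positivity), ← div_eq_mul_inv, le_div_iff₀ hun]
    have h4 := huE.1
    rw [le_div_iff₀ (Real.exp_pos _)] at h4
    linarith
  · rw [if_neg huE, zero_add, mul_left_comm, ← ENNReal.ofReal_mul hl.le]
    gcongr
    rcases le_or_gt ‖u‖ R with h4 | h4
    · refine (count_j hun h4 hρ m _ ?_).trans (le_max_right _ _)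
      rintro j ⟨h5, -⟩
      rwa [le_div_iff₀ (by positivity)] at h5
    · have h3 : (Finset.Icc 1 m).filter
          (fun j => u ∈ {z : ℂ | ‖z‖ ≤ R / ρ ^ j ∧ |z.im| ≤ Hj j}) = ∅ := by
        rw [Finset.filter_eq_empty_iff]
        rintro j - ⟨h5, -⟩
        have := h5.trans (div_le_self hR.le (one_le_pow₀ hρ.le))
        linarith
      rw [h3]
      simp only [Finset.card_empty, Nat.cast_zero, mul_zero]
      exact Real.posLog_nonneg

end Pool.Agent.T6.H61.KK
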