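import Pool.Agent.T6.H61.KK.UTop

set_option autoImplicit false

/-!
# A sector around the imaginary axis without zeros of `Ξ_{-μ}`
-/

namespace Pool.Agent.T6.H61.KK

open Complex MeasureTheory Filter Topology Metric Pool.Agent.Helper242.KK Pool.Agent.Y971.KK
open Pool.Agent.Helper242 (RK.S)

/-- the kernel in the strip `|Im t| ≤ π / 8` -/
theorem PhC_cone : ∃ A : ℝ, 0 < A ∧ ∀ t : ℂ, |t.im| ≤ Real.pi / 8 →
    ‖PhC t‖ ≤ A * Real.exp (9 / 2 * |t.re| - Real.pi * Real.cos (2 * t.im) *
      Real.exp (2 * |t.re|)) := by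
  have hpi := Real.pi_pos
  obtain ⟨A, hA, h⟩ := Pool.Agent.Helper242.RK.norm_g_le (c := Real.pi / 2) (by positivity)
  have key : ∀ t : ℂ, |t.im| ≤ Real.pi / 8 → 0 ≤ t.re →
      ‖PhC t‖ ≤ 2 * A * Real.pi ^ 2 * Real.exp (9 / 2 * |t.re| - Real.pi * Real.cos (2 * t.im) *
      Real.exp (2 * |t.re|)) := by
    intro t ht ht0
    have e1 : (4 * (t / 2)).im = 2 * t.im := by simp; ring
    have e2 : (4 * (t / 2)).re = 2 * t.re := by simp; ring
    have h1 : ((Real.pi : ℂ) * cexp (4 * (t / 2))).re =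
        Real.pi * Real.exp (2 * t.re) * Real.cos (2 * t.im) := by
      rw [re_ofReal_mul, exp_re, e1, e2]
      ring
    have hcos : 1 / 2 ≤ Real.cos (2 * t.im) := by
      have : Real.cos (Real.pi / 3) ≤ Real.cos (2 * t.im) := by
        rw [← Real.cos_abs (2 * t.im)]
        apply Real.cos_le_cos_of_nonneg_of_le_pi (abs_nonneg _)
        · linarith
        · rw [abs_mul, abs_of_pos (by norm_num : (0:ℝ) < 2)]
          linarith
      rwa [Real.cos_pi_div_three] at this
    have h2 : Real.pi / 2 ≤ ((Real.pi : ℂ) * cexp (4 * (t / 2))).re := by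
      rw [h1]
      have h3 : 1 ≤ Real.exp (2 * t.re) := Real.one_le_exp (by linarith)
      calc Real.pi / 2 = Real.pi * 1 * (1 / 2) := by ring
        _ ≤ _ := by gcongr
    have h3 : ‖(Real.pi : ℂ) * cexp (4 * (t / 2))‖ = Real.pi * Real.exp (2 * t.re) := by
      rw [norm_mul, norm_real, Real.norm_of_nonneg Real.pi_pos.le, norm_exp, e2]
    have h4 := h _ h2
    rw [h1, h3] at h4
    have e3 : (t / 2).re = t.re / 2 := by simp
    rw [PhC, Pool.Agent.Helper242.RK.PhiC, norm_mul, norm_mul, norm_exp, abs_of_nonneg ht0, e3]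
    simp only [norm_ofNat]
    calc 2 * (Real.exp (t.re / 2) *
          ‖Pool.Agent.Helper242.RK.g ((Real.pi : ℂ) * cexp (4 * (t / 2)))‖)
        ≤ 2 * (Real.exp (t.re / 2) * (A * (Real.pi * Real.exp (2 * t.re)) ^ 2 *
          Real.exp (-(Real.pi * Real.exp (2 * t.re) * Real.cos (2 * t.im))))) := by gcongr
      _ = 2 * A * Real.pi ^ 2 * (Real.exp (t.re / 2) * (Real.exp (2 * t.re)) ^ 2 *
          Real.exp (-(Real.pi * Real.exp (2 * t.re) * Real.cos (2 * t.im)))) := by ring
      _ = _ := by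
          rw [← Real.exp_nat_mul, ← Real.exp_add, ← Real.exp_add]
          congr 2
          push_cast
          ring
  refine ⟨2 * A * Real.pi ^ 2, by positivity, fun t ht => ?_⟩
  rcases le_total 0 t.re with h0 | h0
  · exact key t ht h0
  · have h1 := key (-t) (by simpa using ht) (by simpa using h0)
    have h2 : PhC (-t) = PhC t := by
      unfold PhC
      have hm : t / 2 ∈ Pool.Agent.Helper242.RK.S := by
        simp only [Pool.Agent.Helper242.RK.S, Set.mem_ofPred_eq]
        have e : (t / 2).im = t.im / 2 := by simp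
        rw [e, abs_div, abs_of_pos (by norm_num : (0 : ℝ) < 2)]
        linarith [abs_nonneg t.im]
      rw [show -t / 2 = -(t / 2) by ring, Pool.Agent.Helper242.RK.PhiC_even hm]
    rw [h2] at h1
    simp only [Complex.neg_re, Complex.neg_im, abs_neg, mul_neg, Real.cos_neg] at h1
    exact h1

/-- a sharp lower bound of the kernel -/
theorem Ph_lower2 {t : ℝ} (ht : 0 ≤ t) :
    Real.exp (9 / 2 * t - Real.pi * Real.exp (2 * t)) ≤ Ph t := by
  have h := (Pool.Agent.Helper242.RK.summable_Phi (t / 2)).sum_le_tsum (Finset.range 1)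
    (fun n _ => Pool.Agent.Helper242.RK.Phi_term_nonneg (by linarith) n)
  simp only [Finset.range_one, Finset.sum_singleton, Nat.cast_zero, zero_add, one_pow,
    mul_one, one_mul] at h
  have h0 : Real.exp (9 / 2 * t - Real.pi * Real.exp (2 * t)) ≤
      Pool.Agent.Helper242.RK.Phi (t / 2) := by
    refine le_trans ?_ h
    rw [show 9 * (t / 2) = 9 / 2 * t by ring, show 5 * (t / 2) = 5 / 2 * t by ring,
      show 4 * (t / 2) = 2 * t by ring]
    have h9 : Real.exp (9 / 2 * t) = Real.exp (5 / 2 * t) * Real.exp (2 * t) := by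
      rw [← Real.exp_add]; congr 1; ring
    have h1 : 1 ≤ Real.exp (2 * t) := Real.one_le_exp (by linarith)
    have h5 := Real.exp_pos (5 / 2 * t)
    have h3 := Real.pi_gt_three
    have h6 : Real.exp (9 / 2 * t) ≤
        2 * Real.pi ^ 2 * Real.exp (9 / 2 * t) - 3 * Real.pi * Real.exp (5 / 2 * t) := by
      have h7 : Real.exp (5 / 2 * t) ≤ Real.exp (9 / 2 * t) := by
        rw [h9]
        nlinarith
      have h8 : 3 * Real.pi * Real.exp (5 / 2 * t) ≤ 3 * Real.pi * Real.exp (9 / 2 * t) := by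
        gcongr
      have h10 : 0 < Real.exp (9 / 2 * t) := Real.exp_pos _
      have h11 : 1 + 3 * Real.pi ≤ 2 * Real.pi ^ 2 := by nlinarith
      have h12 := mul_le_mul_of_nonneg_right h11 h10.le
      linarith
    rw [sub_eq_add_neg (9 / 2 * t), Real.exp_add]
    exact mul_le_mul_of_nonneg_right h6 (Real.exp_pos _).le
  unfold Ph
  have := Real.exp_pos (9 / 2 * t - Real.pi * Real.exp (2 * t))
  linarith

/-- `Ξ_{-μ}(-i w)` as a Laplace transform -/
theorem XiM_negI (μ : ℝ) (w : ℂ) : XiM μ (-I * w) =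
    ∫ t : ℝ, PhC t * cexp (-μ * (t : ℂ) ^ 2) * cexp (w * t) := by
  unfold XiM FT
  refine integral_congr_ae (Eventually.of_forall fun t => ?_)
  simp only [PhC_ofReal, wk]
  push_cast
  have h1 : I * (-I * w) * (t : ℂ) = w * t := by
    have : I * I = -1 := I_mul_I
    linear_combination (-w * t) * this
  rw [h1]

/-- the elementary inequality for the exponential function -/
theorem exp_quad (u : ℝ) : min (u ^ 2 / 6) (|u| / 3) ≤ Real.exp u - 1 - u := by
  rcases le_total 0 u with hu | hu
  · have h1 := Real.quadratic_le_exp_of_nonneg hu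
    refine (min_le_left _ _).trans ?_
    nlinarith [sq_nonneg u]
  · rcases le_total (-u) 2 with h2 | h2
    · have h3 := Real.one_sub_div_pow_le_exp_neg (n := 2) (t := -u) (by push_cast; linarith)
      rw [neg_neg] at h3
      push_cast at h3
      refine (min_le_left _ _).trans ?_
      nlinarith [sq_nonneg u]
    · refine (min_le_right _ _).trans ?_
      rw [abs_of_nonpos hu]
      have := Real.exp_pos u
      linarith

/-- the exponent near the saddle point -/
theorem saddle_upper {y b₀ s : ℝ} (hy : 0 < y) (hb0 : 0 ≤ b₀) (h1 : b₀ ^ 2 ≤ y) (h2 : 6 * b₀ ≤ y) :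
    Real.exp (b₀ * |s| - y / 2 * (Real.exp (2 * s) - 1 - 2 * s)) ≤
      Real.exp (3 / 2) * Real.exp (-(y / 6) * s ^ 2) + Real.exp (-(y / 6) * |s|) := by
  have h3 := exp_quad (2 * s)
  have h4 : min ((2 * s) ^ 2 / 6) (|2 * s| / 3) = 2 / 3 * min (s ^ 2) |s| := by
    rw [abs_mul, abs_of_pos (by norm_num : (0:ℝ) < 2), mul_min_of_nonneg _ _ (by norm_num)]
    congr 1 <;> ring
  rw [h4] at h3
  have h5 := mul_le_mul_of_nonneg_left h3 (show 0 ≤ y / 2 by positivity)
  have hs := abs_nonneg s
  have hsq : |s| ^ 2 = s ^ 2 := sq_abs s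
  rcases le_total |s| 1 with h6 | h6
  · have h7 : min (s ^ 2) |s| = s ^ 2 := by
      apply min_eq_left
      rw [← hsq]
      nlinarith
    rw [h7] at h5
    refine le_trans ?_ (le_add_of_nonneg_right (Real.exp_pos _).le)
    rw [← Real.exp_add]
    apply Real.exp_le_exp.2
    have h8 : b₀ * |s| ≤ y / 6 * s ^ 2 + 3 / 2 := by
      have h9 : 0 ≤ (y / 3 * |s| - b₀) ^ 2 := sq_nonneg _
      have h10 : 2 * (y / 3) * (b₀ * |s|) ≤ (y / 3) ^ 2 * s ^ 2 + b₀ ^ 2 := by
        rw [← hsq]
        nlinarith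
      have h11 : 2 * (y / 3) * (b₀ * |s|) ≤ 2 * (y / 3) * (y / 6 * s ^ 2 + 3 / 2) := by
        nlinarith
      exact le_of_mul_le_mul_left h11 (by positivity)
    linarith
  · have h7 : min (s ^ 2) |s| = |s| := by
      apply min_eq_right
      rw [← hsq]
      nlinarith
    rw [h7] at h5
    refine le_trans ?_ (le_add_of_nonneg_left (by positivity))
    apply Real.exp_le_exp.2
    have h8 : 6 * b₀ * |s| ≤ y * |s| := mul_le_mul_of_nonneg_right h2 hs
    linarith

/-- the integral of the majorant -/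
theorem saddle_int {y : ℝ} (hy : 1 ≤ y) :
    Integrable (fun s : ℝ => Real.exp (3 / 2) * Real.exp (-(y / 6) * s ^ 2) +
      Real.exp (-(y / 6) * |s|)) ∧
    ∫ s : ℝ, (Real.exp (3 / 2) * Real.exp (-(y / 6) * s ^ 2) + Real.exp (-(y / 6) * |s|)) ≤
      40 / Real.sqrt y := by
  have hy6 : 0 < y / 6 := by positivity
  have hi1 : Integrable (fun s : ℝ => Real.exp (3 / 2) * Real.exp (-(y / 6) * s ^ 2)) :=
    (integrable_exp_neg_mul_sq hy6).const_mul _
  have hi2 : Integrable (fun s : ℝ => Real.exp (-(y / 6) * |s|)) := by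
    have h1 : IntegrableOn (fun s : ℝ => Real.exp (-(y / 6) * |s|)) (Set.Ioi 0) := by
      refine (integrableOn_exp_mul_Ioi (a := -(y / 6)) (by linarith) 0).congr_fun ?_
        measurableSet_Ioi
      intro s hs
      simp only
      rw [abs_of_pos hs]
    have h2 : IntegrableOn (fun s : ℝ => Real.exp (-(y / 6) * |s|)) (Set.Iic 0) := by
      have h3 := (integrableOn_exp_mul_Iic (a := y / 6) (by linarith) 0)
      refine h3.congr_fun ?_ measurableSet_Iic
      intro s hs
      simp only
      rw [abs_of_nonpos hs]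
      congr 1
      ring
    have h3 := h2.union h1
    rwa [Set.Iic_union_Ioi, integrableOn_univ] at h3
  refine ⟨hi1.add hi2, ?_⟩
  rw [integral_add hi1 hi2, integral_const_mul, integral_gaussian]
  have h1 : ∫ s : ℝ, Real.exp (-(y / 6) * |s|) = 12 / y := by
    have h2 := integral_comp_abs (f := fun s : ℝ => Real.exp (-(y / 6) * s))
    rw [h2, integral_exp_mul_Ioi (by linarith) 0]
    simp only [mul_zero, Real.exp_zero]
    field_simp
    ring
  rw [h1]
  have hsy : 0 < Real.sqrt y := Real.sqrt_pos.2 (by linarith)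
  have hss : Real.sqrt y * Real.sqrt y = y := Real.mul_self_sqrt (by linarith)
  have hs1 : 1 ≤ Real.sqrt y := Real.one_le_sqrt.2 hy
  have h3 : Real.sqrt (Real.pi / (y / 6)) ≤ 5 / Real.sqrt y := by
    rw [Real.sqrt_le_left (by positivity), div_pow, Real.sq_sqrt (by linarith)]
    rw [div_div_eq_mul_div]
    gcongr
    have := Real.pi_lt_d2
    linarith
  have h4 : Real.exp (3 / 2) ≤ 5 := by
    have h5 : Real.exp (3 / 2) = Real.exp 1 * Real.exp (1 / 2) := by
      rw [← Real.exp_add]; norm_num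
    have h6 := Real.exp_one_lt_d9
    have h7 : Real.exp (1 / 2) ≤ 1.8 := by
      have h8 : Real.exp (1 / 2) ^ 2 = Real.exp 1 := by
        rw [← Real.exp_nat_mul]; norm_num
      have h9 := Real.exp_pos (1 / 2)
      nlinarith
    rw [h5]
    have := Real.exp_pos (1 / 2)
    nlinarith
  have h5 : 12 / y ≤ 12 / Real.sqrt y := by
    have h6 : Real.sqrt y ≤ y := by
      calc Real.sqrt y = Real.sqrt y * 1 := (mul_one _).symm
        _ ≤ Real.sqrt y * Real.sqrt y := by gcongr
        _ = y := hss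
    gcongr
  calc Real.exp (3 / 2) * Real.sqrt (Real.pi / (y / 6)) + 12 / y ≤
      5 * (5 / Real.sqrt y) + 12 / Real.sqrt y := by gcongr
    _ = 37 / Real.sqrt y := by ring
    _ ≤ 40 / Real.sqrt y := by gcongr; norm_num

end Pool.Agent.T6.H61.KK
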