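import Pool.Agent.T6.H61.KK.UCone

set_option autoImplicit false

/-!
# A sector around the imaginary axis without zeros of `Ξ_{-μ}`: the two bounds
-/

namespace Pool.Agent.T6.H61.KK

open Complex MeasureTheory Filter Topology Metric Pool.Agent.Helper242.KK Pool.Agent.Y971.KK

/-- `t₁ = (1/2) log (|w| / 2π)` -/
noncomputable def tt (w : ℂ) : ℝ := Real.log (‖w‖ / (2 * Real.pi)) / 2

/-- half of the argument -/
noncomputable def ph (w : ℂ) : ℝ := arg w / 2

/-- the exponent -/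
noncomputable def Ere (μ : ℝ) (w : ℂ) : ℝ :=
  w.re * tt w - w.im * ph w - w.re / 2 + 7 / 2 * tt w - μ * (tt w ^ 2 - ph w ^ 2)

theorem norm_le_two_re {w : ℂ} (h0 : 0 ≤ w.re) (h : |w.im| ≤ w.re) : ‖w‖ ≤ 2 * w.re :=
  (Complex.norm_le_abs_re_add_abs_im w).trans (by rw [abs_of_nonneg h0]; linarith)

theorem exp_tt {w : ℂ} (hw : w ≠ 0) : Real.exp (2 * tt w) = ‖w‖ / (2 * Real.pi) := by
  unfold tt
  have h1 : 0 < ‖w‖ := norm_pos_iff.2 hw
  rw [show 2 * (Real.log (‖w‖ / (2 * Real.pi)) / 2) = Real.log (‖w‖ / (2 * Real.pi)) by ring,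
    Real.exp_log (by positivity)]

theorem abs_ph_le {w : ℂ} (h0 : 0 < w.re) (h : |w.im| ≤ w.re) : |ph w| ≤ Real.pi / 8 := by
  unfold ph
  rw [abs_div, abs_of_pos (by norm_num : (0:ℝ) < 2)]
  have hw : w ≠ 0 := by
    rintro rfl
    simp at h0
  have hn : 0 < ‖w‖ := norm_pos_iff.2 hw
  have h1 : |arg w| ≤ Real.pi / 4 := by
    by_contra hcon
    push Not at hcon
    have h2 : Real.cos |arg w| < Real.cos (Real.pi / 4) :=
      Real.cos_lt_cos_of_nonneg_of_le_pi (by positivity) (abs_arg_le_pi w) hcon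
    rw [Real.cos_abs, Complex.cos_arg hw, Real.cos_pi_div_four, div_lt_iff₀ hn] at h2
    have h3 : ‖w‖ ^ 2 = w.re ^ 2 + w.im ^ 2 := by
      rw [← Complex.normSq_eq_norm_sq, Complex.normSq_apply]
      ring
    have h4 : w.im ^ 2 ≤ w.re ^ 2 := by
      rw [← sq_abs w.im]
      exact pow_le_pow_left₀ (abs_nonneg _) h 2
    have h5 : (Real.sqrt 2 / 2 * ‖w‖) ^ 2 ≤ w.re ^ 2 := by
      rw [mul_pow, div_pow, Real.sq_sqrt (by norm_num)]
      rw [h3]
      linarith
    have h6 := abs_le_of_sq_le_sq' h5 h0.le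
    linarith [h6.2]
  linarith

theorem ev_sqrt_log (a b : ℝ) : ∀ᶠ y : ℝ in atTop, a + b * Real.log y ≤ Real.sqrt y := by
  have h := isLittleO_log_rpow_atTop (show (0:ℝ) < 1 / 2 by norm_num)
  have h2 := h.bound (show (0:ℝ) < 1 / (2 * (|b| + 1)) by positivity)
  have h3 : ∀ᶠ y : ℝ in atTop, 2 * a ≤ Real.sqrt y :=
    Real.tendsto_sqrt_atTop.eventually_ge_atTop _
  filter_upwards [h2, h3, eventually_ge_atTop 1] with y e1 e2 e3
  have hl : 0 ≤ Real.log y := Real.log_nonneg e3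
  rw [← Real.sqrt_eq_rpow, Real.norm_of_nonneg hl, Real.norm_of_nonneg (Real.sqrt_nonneg _)] at e1
  have e4 : b * Real.log y ≤ |b| * (1 / (2 * (|b| + 1)) * Real.sqrt y) :=
    (mul_le_mul_of_nonneg_right (le_abs_self b) hl).trans
      (mul_le_mul_of_nonneg_left e1 (abs_nonneg b))
  have e5 : |b| * (1 / (2 * (|b| + 1)) * Real.sqrt y) ≤ 1 / 2 * Real.sqrt y := by
    have e6 : |b| * (1 / (2 * (|b| + 1))) ≤ 1 / 2 := by
      rw [mul_one_div, div_le_div_iff₀ (by positivity) (by norm_num)]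
      linarith [abs_nonneg b]
    calc |b| * (1 / (2 * (|b| + 1)) * Real.sqrt y) =
        (|b| * (1 / (2 * (|b| + 1)))) * Real.sqrt y := by ring
      _ ≤ 1 / 2 * Real.sqrt y := by gcongr
  linarith

/-- the exponent on the line through the saddle point -/
theorem expo_line {μ y L v : ℝ} (hμ : 0 < μ) (hL : 0 < L) {t₁ : ℝ} (ht₁ : 0 ≤ t₁)
    (hexp : Real.exp (2 * t₁) = L / (2 * Real.pi)) :
    9 / 2 * v - Real.pi * (y / L) * Real.exp (2 * v) - μ * v ^ 2 + y * v ≤
      (9 / 2 * t₁ + y * t₁ - y / 2 - μ * t₁ ^ 2) + ((9 / 2 + 2 * μ * t₁) * |v - t₁| -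
        y / 2 * (Real.exp (2 * (v - t₁)) - 1 - 2 * (v - t₁))) := by
  have h1 : Real.exp (2 * v) = L / (2 * Real.pi) * Real.exp (2 * (v - t₁)) := by
    rw [← hexp, ← Real.exp_add]
    congr 1
    ring
  have h2 : Real.pi * (y / L) * Real.exp (2 * v) = y / 2 * Real.exp (2 * (v - t₁)) := by
    rw [h1]
    field_simp
  rw [h2]
  obtain ⟨s, hs⟩ : ∃ s, s = v - t₁ := ⟨_, rfl⟩
  have hv : v = t₁ + s := by rw [hs]; ring
  rw [← hs, hv]
  have h3 : 9 / 2 * s ≤ 9 / 2 * |s| := by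
    have := le_abs_self s
    linarith
  have h4 : -(2 * μ * t₁ * s) ≤ 2 * μ * t₁ * |s| := by
    have h5 := neg_abs_le s
    have h6 : 0 ≤ 2 * μ * t₁ := by positivity
    nlinarith
  have h7 : 0 ≤ μ * s ^ 2 := by positivity
  linarith

/-- **The upper bound in the sector.** -/
theorem cone_upper {μ : ℝ} (hμ : 0 < μ) : ∃ C Y : ℝ, 0 < C ∧ 1 ≤ Y ∧ ∀ w : ℂ, Y ≤ w.re →
    |w.im| ≤ w.re → ‖XiM μ (-I * w)‖ ≤ C * Real.exp (Ere μ w) := by
  obtain ⟨A, hA, hP⟩ := PhC_cone
  have hpi := Real.pi_gt_three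
  have hpi0 := Real.pi_pos
  have hev : ∀ᶠ y : ℝ in atTop, 6 * (9 / 2 + 2 * μ) + 6 * μ * Real.log y ≤ Real.sqrt y :=
    ev_sqrt_log _ _
  obtain ⟨Y, hY⟩ := eventually_atTop.1 (hev.and (eventually_ge_atTop (2 * Real.pi)))
  refine ⟨80 * A, max Y 1, by positivity, le_max_right _ _, fun w hwY hw => ?_⟩
  obtain ⟨e1, e2⟩ := hY w.re ((le_max_left _ _).trans hwY)
  have hy1 : 1 ≤ w.re := (le_max_right _ _).trans hwY
  have hy0 : 0 < w.re := by linarith
  have hw0 : w ≠ 0 := by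
    rintro rfl
    simp at hy0
  have hL0 : 0 < ‖w‖ := norm_pos_iff.2 hw0
  have hLy : w.re ≤ ‖w‖ := Complex.re_le_norm w
  have hL2 := norm_le_two_re hy0.le hw
  have hφ := abs_ph_le hy0 hw
  have hexp := exp_tt hw0
  have ht₁ : 0 ≤ tt w := by
    unfold tt
    have : 0 ≤ Real.log (‖w‖ / (2 * Real.pi)) := by
      apply Real.log_nonneg
      rw [le_div_iff₀ (by positivity)]
      linarith
    linarith
  have ht₁u : tt w ≤ Real.log w.re / 2 := by
    unfold tt
    have : Real.log (‖w‖ / (2 * Real.pi)) ≤ Real.log w.re := by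
      apply Real.log_le_log (by positivity)
      rw [div_le_iff₀ (by positivity)]
      nlinarith
    linarith
  have hcos : Real.cos (2 * ph w) = w.re / ‖w‖ := by
    unfold ph
    rw [show 2 * (arg w / 2) = arg w by ring, Complex.cos_arg hw0]
  set y := w.re with hyd
  set x := w.im with hxd
  set φ := ph w with hφd
  set t₁ := tt w with htd
  -- the conditions on `b₀`
  obtain ⟨b₀, hb₀⟩ : ∃ b₀, b₀ = 9 / 2 + 2 * μ * t₁ := ⟨_, rfl⟩
  have hb0 : 0 ≤ b₀ := by rw [hb₀]; positivity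
  have hly : 0 ≤ Real.log y := Real.log_nonneg hy1
  have hsy1 : 1 ≤ Real.sqrt y := Real.one_le_sqrt.2 hy1
  have hss : Real.sqrt y * Real.sqrt y = y := Real.mul_self_sqrt hy0.le
  have hb1 : 6 * b₀ ≤ Real.sqrt y := by
    have h1 : 2 * μ * t₁ ≤ 2 * μ * (Real.log y / 2) := by gcongr
    have h2 : 0 ≤ μ * Real.log y := by positivity
    rw [hb₀]
    linarith
  have hb2 : b₀ ^ 2 ≤ y := by
    have h1 : b₀ ≤ Real.sqrt y := by linarith
    calc b₀ ^ 2 ≤ Real.sqrt y ^ 2 := pow_le_pow_left₀ hb0 h1 2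
      _ = y := Real.sq_sqrt hy0.le
  have hb3 : 6 * b₀ ≤ y := by
    refine hb1.trans ?_
    calc Real.sqrt y = Real.sqrt y * 1 := (mul_one _).symm
      _ ≤ Real.sqrt y * Real.sqrt y := by gcongr
      _ = y := hss
  -- shift of the line
  set H : ℂ → ℂ := fun τ => PhC τ * cexp (-μ * τ ^ 2) * cexp (w * τ) with hH
  have hnH : ∀ τ : ℂ, |τ.im| ≤ Real.pi / 8 → ‖H τ‖ ≤ A * Real.exp (9 / 2 * |τ.re| -
      Real.pi * Real.cos (2 * τ.im) * Real.exp (2 * |τ.re|)) *
      Real.exp (-μ * (τ.re ^ 2 - τ.im ^ 2)) * Real.exp (y * τ.re - x * τ.im) := by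
    intro τ hτ
    have n1 : ‖cexp (-μ * τ ^ 2)‖ = Real.exp (-μ * (τ.re ^ 2 - τ.im ^ 2)) := by
      rw [Complex.norm_exp]
      congr 1
      have : (-(μ : ℂ) * τ ^ 2) = ((-μ : ℝ) : ℂ) * τ ^ 2 := by push_cast; rfl
      rw [this, re_ofReal_mul]
      simp [pow_two]
    have n2 : ‖cexp (w * τ)‖ = Real.exp (y * τ.re - x * τ.im) := by
      rw [Complex.norm_exp, Complex.mul_re]
    rw [hH]
    simp only
    rw [norm_mul, norm_mul, n1, n2]
    gcongr
    exact hP τ hτ
  have hshift : XiM μ (-I * w) = ∫ t : ℝ, H (t + φ * I) := by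
    have h1 : XiM μ (-I * w) = ∫ t : ℝ, H (t + ((0:ℝ) : ℂ) * I) := by
      rw [XiM_negI]
      refine integral_congr_ae (Eventually.of_forall fun t => ?_)
      simp only [hH, Complex.ofReal_zero, zero_mul, add_zero]
    rw [h1]
    obtain ⟨K, hK⟩ : ∃ K, K = A * Real.exp (μ + |x| + (y + 5) ^ 2 / (2 * μ)) := ⟨_, rfl⟩
    refine shift_line (δ := μ / 2) (K := K) (by positivity) ?_ ?_
    · intro z hz
      have hz1 : |z.im| < Real.pi / 4 := by
        have h2 : |z.im| ≤ |φ| := by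
          rw [Set.mem_uIcc] at hz
          rcases hz with hz | hz
          · rw [abs_of_nonneg hz.1]; exact hz.2.trans (le_abs_self _)
          · rw [abs_of_nonpos hz.2]; exact (neg_le_neg hz.1).trans (neg_le_abs _)
        linarith
      have hm : z / 2 ∈ Pool.Agent.Helper242.RK.S := by
        simp only [Pool.Agent.Helper242.RK.S, Set.mem_ofPred_eq]
        have e : (z / 2).im = z.im / 2 := by simp
        rw [e, abs_div, abs_of_pos (by norm_num : (0 : ℝ) < 2)]
        linarith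
      have h2 : DifferentiableAt ℂ PhC z := by
        unfold PhC
        have h3 := Pool.Agent.Helper242.RK.differentiableAt_PhiC hm
        have h4 : DifferentiableAt ℂ (fun t : ℂ => Pool.Agent.Helper242.RK.PhiC (t / 2)) z :=
          DifferentiableAt.comp (f := fun t : ℂ => t / 2) (g := Pool.Agent.Helper242.RK.PhiC) z h3
            (differentiableAt_id.div_const 2)
        exact h4.const_mul 2
      exact (h2.mul (by fun_prop)).mul (by fun_prop)
    · intro z hz
      have hz2 : |z.im| ≤ |φ| := by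
        rw [Set.mem_uIcc] at hz
        rcases hz with hz | hz
        · rw [abs_of_nonneg hz.1]; exact hz.2.trans (le_abs_self _)
        · rw [abs_of_nonpos hz.2]; exact (neg_le_neg hz.1).trans (neg_le_abs _)
      have hz3 : |z.im| ≤ Real.pi / 8 := hz2.trans hφ
      have hpi4 := Real.pi_lt_d2
      have hz4 : |z.im| ≤ 1 := by linarith
      refine (hnH z hz3).trans ?_
      rw [hK]
      have hcz : 0 ≤ Real.pi * Real.cos (2 * z.im) * Real.exp (2 * |z.re|) := by
        have : 0 ≤ Real.cos (2 * z.im) := by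
          apply Real.cos_nonneg_of_mem_Icc
          have := abs_le.1 hz3
          constructor <;> linarith [this.1, this.2]
        positivity
      have h5 : 9 / 2 * |z.re| - Real.pi * Real.cos (2 * z.im) * Real.exp (2 * |z.re|) +
          -μ * (z.re ^ 2 - z.im ^ 2) + (y * z.re - x * z.im) ≤
          (μ + |x| + (y + 5) ^ 2 / (2 * μ)) + -(μ / 2) * z.re ^ 2 := by
        have g1 : μ * z.im ^ 2 ≤ μ := by
          have : z.im ^ 2 ≤ 1 := by
            rw [← sq_abs]
            calc |z.im| ^ 2 ≤ 1 ^ 2 := pow_le_pow_left₀ (abs_nonneg _) hz4 2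
              _ = 1 := by norm_num
          nlinarith
        have g2 : -(x * z.im) ≤ |x| := by
          calc -(x * z.im) ≤ |x * z.im| := neg_le_abs _
            _ = |x| * |z.im| := abs_mul _ _
            _ ≤ |x| * 1 := by gcongr
            _ = |x| := mul_one _
        have g3 : y * z.re ≤ y * |z.re| := by
          have := le_abs_self z.re
          gcongr
        have g4 : (y + 5) * |z.re| ≤ μ / 2 * z.re ^ 2 + (y + 5) ^ 2 / (2 * μ) := by
          have g5 : 0 ≤ (μ * |z.re| - (y + 5)) ^ 2 := sq_nonneg _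
          have g6 : μ / 2 * z.re ^ 2 + (y + 5) ^ 2 / (2 * μ) - (y + 5) * |z.re| =
              (μ * |z.re| - (y + 5)) ^ 2 / (2 * μ) := by
            rw [← sq_abs z.re]
            field_simp
            ring
          have g7 : 0 ≤ (μ * |z.re| - (y + 5)) ^ 2 / (2 * μ) := by positivity
          linarith
        have g8 := abs_nonneg z.re
        linarith
      calc A * Real.exp (9 / 2 * |z.re| - Real.pi * Real.cos (2 * z.im) * Real.exp (2 * |z.re|)) *
          Real.exp (-μ * (z.re ^ 2 - z.im ^ 2)) * Real.exp (y * z.re - x * z.im) =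
          A * Real.exp (9 / 2 * |z.re| - Real.pi * Real.cos (2 * z.im) * Real.exp (2 * |z.re|) +
          -μ * (z.re ^ 2 - z.im ^ 2) + (y * z.re - x * z.im)) := by
            rw [Real.exp_add, Real.exp_add]; ring
        _ ≤ A * Real.exp ((μ + |x| + (y + 5) ^ 2 / (2 * μ)) + -(μ / 2) * z.re ^ 2) := by gcongr
        _ = _ := by rw [Real.exp_add]; ring
  -- the bound of the integrand
  obtain ⟨E₀, hE₀⟩ : ∃ E₀, E₀ = 9 / 2 * t₁ + y * t₁ - y / 2 - μ * t₁ ^ 2 := ⟨_, rfl⟩
  set B : ℝ → ℝ := fun s => Real.exp (3 / 2) * Real.exp (-(y / 6) * s ^ 2) +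
      Real.exp (-(y / 6) * |s|) with hB
  obtain ⟨hBi, hBv⟩ := saddle_int hy1
  have hpt : ∀ t : ℝ, ‖H (t + φ * I)‖ ≤
      (A * Real.exp (E₀ + μ * φ ^ 2 - x * φ)) * (B (t - t₁) + B (-t - t₁)) := by
    intro t
    have him : ((t : ℂ) + φ * I).im = φ := by simp
    have hre : ((t : ℂ) + φ * I).re = t := by simp
    have h1 := hnH (t + φ * I) (by rw [him]; exact hφ)
    rw [him, hre, hcos] at h1
    refine h1.trans ?_
    have h2 := expo_line (μ := μ) (y := y) (v := |t|) hμ hL0 ht₁ hexp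
    rw [← hE₀, ← hb₀] at h2
    have h3 := saddle_upper (s := |t| - t₁) hy0 hb0 hb2 hb3
    have h4 : y * t ≤ y * |t| := by
      have := le_abs_self t
      gcongr
    have h5 : B (|t| - t₁) ≤ B (t - t₁) + B (-t - t₁) := by
      have hB0 : ∀ s, 0 ≤ B s := fun s => by rw [hB]; positivity
      rcases abs_choice t with h | h
      · rw [h]; linarith [hB0 (-t - t₁)]
      · rw [h]; linarith [hB0 (t - t₁)]
    calc A * Real.exp (9 / 2 * |t| - Real.pi * (y / ‖w‖) * Real.exp (2 * |t|)) *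
          Real.exp (-μ * (t ^ 2 - φ ^ 2)) * Real.exp (y * t - x * φ) =
          A * Real.exp (9 / 2 * |t| - Real.pi * (y / ‖w‖) * Real.exp (2 * |t|) +
            -μ * (t ^ 2 - φ ^ 2) + (y * t - x * φ)) := by
            rw [Real.exp_add, Real.exp_add]; ring
      _ ≤ A * Real.exp ((E₀ + μ * φ ^ 2 - x * φ) + (b₀ * |(|t| - t₁)| -
            y / 2 * (Real.exp (2 * (|t| - t₁)) - 1 - 2 * (|t| - t₁)))) := by
            rw [sq_abs] at h2
            refine mul_le_mul_of_nonneg_left (Real.exp_le_exp.2 ?_) hA.le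
            linarith
      _ = (A * Real.exp (E₀ + μ * φ ^ 2 - x * φ)) * Real.exp (b₀ * |(|t| - t₁)| -
            y / 2 * (Real.exp (2 * (|t| - t₁)) - 1 - 2 * (|t| - t₁))) := by
            rw [Real.exp_add]; ring
      _ ≤ (A * Real.exp (E₀ + μ * φ ^ 2 - x * φ)) * B (|t| - t₁) := by
            gcongr
      _ ≤ _ := by gcongr
  rw [hshift]
  have hi1 : Integrable (fun t : ℝ => B (t - t₁)) := hBi.comp_sub_right t₁
  have hi2 : Integrable (fun t : ℝ => B (-t - t₁)) := by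
    have := (hBi.comp_sub_right t₁).comp_neg
    exact this
  have hint : ‖∫ t : ℝ, H (t + φ * I)‖ ≤
      (A * Real.exp (E₀ + μ * φ ^ 2 - x * φ)) * (2 * (40 / Real.sqrt y)) := by
    refine (norm_integral_le_of_norm_le ((hi1.add hi2).const_mul _)
      (Eventually.of_forall hpt)).trans ?_
    rw [integral_const_mul]
    apply mul_le_mul_of_nonneg_left _ (by positivity)
    have v1 : ∫ t : ℝ, B (t - t₁) = ∫ s : ℝ, B s := integral_sub_right_eq_self B t₁
    have v2 : ∫ t : ℝ, B (-t - t₁) = ∫ s : ℝ, B s := by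
      have h6 := integral_neg_eq_self (fun t : ℝ => B (t - t₁)) volume
      rw [h6, v1]
    have v3 : ∫ t : ℝ, (B (t - t₁) + B (-t - t₁)) = (∫ s : ℝ, B s) + ∫ s : ℝ, B s := by
      rw [integral_add hi1 hi2, v1, v2]
    simp only [Pi.add_apply]
    rw [v3]
    linarith
  refine hint.trans ?_
  have hEre : E₀ + μ * φ ^ 2 - x * φ = Ere μ w + t₁ := by
    rw [hE₀]
    unfold Ere
    rw [← hyd, ← hxd, ← hφd, ← htd]
    ring
  rw [hEre, Real.exp_add]
  have het : Real.exp t₁ ≤ Real.sqrt y := by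
    apply Real.le_sqrt_of_sq_le
    rw [← Real.exp_nat_mul]
    push_cast
    rw [hexp, div_le_iff₀ (by positivity)]
    nlinarith
  have hsy0 : 0 < Real.sqrt y := by linarith
  calc A * (Real.exp (Ere μ w) * Real.exp t₁) * (2 * (40 / Real.sqrt y)) ≤
      A * (Real.exp (Ere μ w) * Real.sqrt y) * (2 * (40 / Real.sqrt y)) := by gcongr
    _ = 80 * A * Real.exp (Ere μ w) := by
        field_simp
        ring

end Pool.Agent.T6.H61.KK
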