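import Pool.Agent.T6.H61.KK.UCone2

set_option autoImplicit false

/-!
# A sector around the imaginary axis without zeros of `Ξ_{-μ}`
-/

namespace Pool.Agent.T6.H61.KK

open Complex MeasureTheory Filter Topology Metric Pool.Agent.Helper242.KK Pool.Agent.Y971.KK

/-- **The lower bound on the imaginary axis.** -/
theorem axis_lower {μ : ℝ} (hμ : 0 < μ) : ∃ c Y : ℝ, 0 < c ∧ 1 ≤ Y ∧ ∀ y : ℝ, Y ≤ y →
    c * Real.exp (Ere μ y) ≤ ‖XiM μ (-I * y)‖ := by
  have hpi := Real.pi_gt_three
  have hpi0 := Real.pi_pos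
  have hev : ∀ᶠ y : ℝ in atTop, 2 + μ * Real.log y ≤ Real.sqrt y := ev_sqrt_log _ _
  obtain ⟨Y, hY⟩ := eventually_atTop.1 (hev.and (eventually_ge_atTop (2 * Real.pi)))
  refine ⟨Real.exp (-(3 + μ)) / 3, max Y 1, by positivity, le_max_right _ _, fun y hyY => ?_⟩
  obtain ⟨e1, e2⟩ := hY y ((le_max_left _ _).trans hyY)
  have hy1 : 1 ≤ y := (le_max_right _ _).trans hyY
  have hy0 : 0 < y := by linarith
  have hw0 : (y : ℂ) ≠ 0 := by exact_mod_cast hy0.ne'
  have hn : ‖(y : ℂ)‖ = y := by rw [Complex.norm_real, Real.norm_of_nonneg hy0.le]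
  have hexp := exp_tt hw0
  rw [hn] at hexp
  have ht₁ : 0 ≤ tt y := by
    unfold tt
    rw [hn]
    have : 0 ≤ Real.log (y / (2 * Real.pi)) := by
      apply Real.log_nonneg
      rw [le_div_iff₀ (by positivity)]
      linarith
    linarith
  have ht₁u : tt y ≤ Real.log y / 2 := by
    unfold tt
    rw [hn]
    have : Real.log (y / (2 * Real.pi)) ≤ Real.log y := by
      apply Real.log_le_log (by positivity)
      rw [div_le_iff₀ (by positivity)]
      nlinarith
    linarith
  have hph : ph (y : ℂ) = 0 := by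
    unfold ph
    rw [Complex.arg_ofReal_of_nonneg hy0.le]
    simp
  set t₁ := tt (y : ℂ) with htd
  have hsy1 : 1 ≤ Real.sqrt y := Real.one_le_sqrt.2 hy1
  have hss : Real.sqrt y * Real.sqrt y = y := Real.mul_self_sqrt hy0.le
  have hly : 0 ≤ Real.log y := Real.log_nonneg hy1
  have hsy2 : 2 ≤ Real.sqrt y := by
    have : 0 ≤ μ * Real.log y := by positivity
    linarith
  have hsy0 : 0 < Real.sqrt y := by linarith
  obtain ⟨E₀, hE₀⟩ : ∃ E₀, E₀ = 9 / 2 * t₁ + y * t₁ - y / 2 - μ * t₁ ^ 2 := ⟨_, rfl⟩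
  -- the value is a positive integral
  obtain ⟨A, -, hA⟩ := wk_upper (μ := μ) hμ.le
  have hint := integrable_FT (continuous_wk μ) hA (-I * y)
  have hre : ∀ t : ℝ, ((wk μ t : ℝ) : ℂ) * cexp (I * (-I * y) * t) =
      ((wk μ t * Real.exp (y * t) : ℝ) : ℂ) := by
    intro t
    have h1 : I * (-I * y) * (t : ℂ) = ((y * t : ℝ) : ℂ) := by
      push_cast
      have : I * I = -1 := I_mul_I
      linear_combination (-(y : ℂ) * t) * this
    rw [h1, ← Complex.ofReal_exp, ← Complex.ofReal_mul]
  have hval : XiM μ (-I * y) = ((∫ t : ℝ, wk μ t * Real.exp (y * t) : ℝ) : ℂ) := by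
    unfold XiM FT
    rw [← integral_complex_ofReal]
    exact integral_congr_ae (Eventually.of_forall hre)
  have hintr : Integrable (fun t : ℝ => wk μ t * Real.exp (y * t)) := by
    have h2 := hint.congr (Eventually.of_forall hre)
    have h3 := h2.re
    exact h3.congr (Eventually.of_forall fun t => Complex.ofReal_re _)
  have hnn : ∀ t : ℝ, 0 ≤ wk μ t * Real.exp (y * t) := fun t =>
    mul_nonneg (wk_pos μ t).le (Real.exp_pos _).le
  have hpt : ∀ t ∈ Set.Icc t₁ (t₁ + 1 / Real.sqrt y),
      Real.exp (E₀ - (3 + μ)) ≤ wk μ t * Real.exp (y * t) := by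
    rintro t ⟨ha, hb⟩
    have ht0 : 0 ≤ t := by linarith
    obtain ⟨s, hs⟩ : ∃ s, s = t - t₁ := ⟨_, rfl⟩
    have hts : t = t₁ + s := by rw [hs]; ring
    have hs0 : 0 ≤ s := by rw [hs]; linarith
    have hs1 : s ≤ 1 / Real.sqrt y := by rw [hs]; linarith
    have hs2 : s ≤ 1 / 2 := by
      refine hs1.trans ?_
      gcongr
    have hss1 : y * s ^ 2 ≤ 1 := by
      have h4 : s * Real.sqrt y ≤ 1 := by
        rw [le_div_iff₀ hsy0] at hs1
        exact hs1
      calc y * s ^ 2 = (s * Real.sqrt y) ^ 2 := by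
            rw [mul_pow, Real.sq_sqrt hy0.le]; ring
        _ ≤ 1 ^ 2 := pow_le_pow_left₀ (by positivity) h4 2
        _ = 1 := by norm_num
    have h1 : Real.exp (2 * t) = y / (2 * Real.pi) * Real.exp (2 * s) := by
      rw [← hexp, ← Real.exp_add]
      congr 1
      rw [hts]
      ring
    have h2 : Real.exp (2 * s) ≤ 1 + 2 * s + (2 * s) ^ 2 := by
      have h3 := Real.abs_exp_sub_one_sub_id_le (x := 2 * s) (by
        rw [abs_of_nonneg (by positivity)]; linarith)
      have h4 := le_abs_self (Real.exp (2 * s) - 1 - 2 * s)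
      linarith
    have h5 : 9 / 2 * t - Real.pi * Real.exp (2 * t) + -μ * t ^ 2 + y * t ≥ E₀ - (3 + μ) := by
      rw [h1]
      have h6 : Real.pi * (y / (2 * Real.pi) * Real.exp (2 * s)) = y / 2 * Real.exp (2 * s) := by
        field_simp
      rw [h6]
      have h7 := mul_le_mul_of_nonneg_left h2 (show 0 ≤ y / 2 by positivity)
      have h8 : 2 * μ * t₁ * s ≤ 1 := by
        have h9 : 2 * μ * t₁ ≤ Real.sqrt y := by
          have : 2 * μ * t₁ ≤ 2 * μ * (Real.log y / 2) := by gcongr
          linarith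
        calc 2 * μ * t₁ * s ≤ Real.sqrt y * (1 / Real.sqrt y) := by gcongr
          _ = 1 := by field_simp
      have h9 : μ * s ^ 2 ≤ μ := by
        have : s ^ 2 ≤ 1 := by nlinarith
        nlinarith
      rw [hE₀, hts]
      nlinarith
    have h10 := Ph_lower2 ht0
    unfold wk
    calc Real.exp (E₀ - (3 + μ)) ≤
        Real.exp (9 / 2 * t - Real.pi * Real.exp (2 * t) + -μ * t ^ 2 + y * t) :=
          Real.exp_le_exp.2 h5
      _ = Real.exp (9 / 2 * t - Real.pi * Real.exp (2 * t)) * Real.exp (-μ * t ^ 2) *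
          Real.exp (y * t) := by rw [Real.exp_add, Real.exp_add]
      _ ≤ _ := by gcongr
  have hlow : Real.exp (E₀ - (3 + μ)) * (1 / Real.sqrt y) ≤ ∫ t : ℝ, wk μ t * Real.exp (y * t) := by
    have h1 : ∫ t in Set.Icc t₁ (t₁ + 1 / Real.sqrt y), Real.exp (E₀ - (3 + μ)) =
        Real.exp (E₀ - (3 + μ)) * (1 / Real.sqrt y) := by
      rw [setIntegral_const, smul_eq_mul, mul_comm]
      congr 1
      rw [Real.volume_real_Icc_of_le (by
        have : 0 < 1 / Real.sqrt y := by positivity
        linarith)]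
      ring
    rw [← h1]
    refine (setIntegral_mono_on ?_ hintr.integrableOn measurableSet_Icc hpt).trans
      (setIntegral_le_integral hintr (Eventually.of_forall hnn))
    exact integrableOn_const (by rw [Real.volume_Icc]; exact ENNReal.ofReal_ne_top)
  rw [hval, Complex.norm_real, Real.norm_of_nonneg (integral_nonneg hnn)]
  refine le_trans ?_ hlow
  have hEre : E₀ = Ere μ y + t₁ := by
    rw [hE₀]
    unfold Ere
    rw [← htd, hph, Complex.ofReal_re, Complex.ofReal_im]
    ring
  have het : Real.sqrt y / 3 ≤ Real.exp t₁ := by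
    have h1 : Real.exp t₁ ^ 2 = y / (2 * Real.pi) := by
      rw [← hexp, ← Real.exp_nat_mul]
      push_cast
      rfl
    have h2 : (Real.sqrt y / 3) ^ 2 ≤ Real.exp t₁ ^ 2 := by
      rw [h1, div_pow, Real.sq_sqrt hy0.le]
      gcongr
      have := Real.pi_lt_d2
      linarith
    exact le_of_sq_le_sq h2 (Real.exp_pos _).le
  rw [hEre]
  have e1 : Real.exp (Ere μ y + t₁ - (3 + μ)) =
      Real.exp (-(3 + μ)) * Real.exp (Ere μ y) * Real.exp t₁ := by
    rw [← Real.exp_add, ← Real.exp_add]
    congr 1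
    ring
  rw [e1]
  calc Real.exp (-(3 + μ)) / 3 * Real.exp (Ere μ y) =
      Real.exp (-(3 + μ)) * Real.exp (Ere μ y) * (Real.sqrt y / 3) * (1 / Real.sqrt y) := by
        field_simp
    _ ≤ _ := by gcongr

/-- the holomorphic exponent -/
noncomputable def hh (μ : ℝ) (w : ℂ) : ℂ :=
  w * (Complex.log (w / (2 * Real.pi)) / 2) - w / 2 + 7 / 2 * (Complex.log (w / (2 * Real.pi)) / 2) -
    μ * (Complex.log (w / (2 * Real.pi)) / 2) ^ 2

theorem hh_re (μ : ℝ) {w : ℂ} (hw : w ≠ 0) : (hh μ w).re = Ere μ w := by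
  have hpi := Real.pi_pos
  have h1 : Complex.log (w / (2 * Real.pi)) / 2 = (tt w : ℂ) + (ph w : ℂ) * I := by
    unfold tt ph
    have h2 : w / (2 * Real.pi) = (((2 * Real.pi)⁻¹ : ℝ) : ℂ) * w := by
      push_cast
      rw [div_eq_inv_mul]
    have hn : ‖w / (2 * Real.pi)‖ = ‖w‖ / (2 * Real.pi) := by
      rw [norm_div, norm_mul, Complex.norm_real, Real.norm_of_nonneg hpi.le]
      simp
    have ha : arg (w / (2 * Real.pi)) = arg w := by
      rw [h2, Complex.arg_real_mul w (by positivity)]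
    rw [Complex.log, hn, ha]
    push_cast
    ring
  unfold hh Ere
  rw [h1]
  simp [Complex.add_re, Complex.mul_re, pow_two]

theorem hh_diff (μ : ℝ) : DifferentiableOn ℂ (hh μ) {w | 0 < w.re} := by
  have h1 : DifferentiableOn ℂ (fun w : ℂ => Complex.log (w / (2 * Real.pi))) {w | 0 < w.re} := by
    intro w hw
    apply DifferentiableAt.differentiableWithinAt
    refine DifferentiableAt.clog (by fun_prop) ?_
    left
    have h2 : w / (2 * Real.pi) = (((2 * Real.pi)⁻¹ : ℝ) : ℂ) * w := by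
      push_cast
      rw [div_eq_inv_mul]
    rw [h2, Complex.re_ofReal_mul]
    have : 0 < w.re := hw
    positivity
  have h2 : DifferentiableOn ℂ (fun w : ℂ => w) {w | 0 < w.re} := differentiableOn_id
  unfold hh
  exact (((h2.mul (h1.div_const 2)).sub (h2.div_const 2)).add
    ((h1.div_const 2).const_mul _)).sub (((h1.div_const 2).pow 2).const_mul _)

/-- **A sector without zeros.** -/
theorem cone_zero_free {μ : ℝ} (hμ : 0 < μ) : ∃ c Y : ℝ, 0 < c ∧ 1 ≤ Y ∧ ∀ z : ℂ,
    Y ≤ |z.im| → |z.re| ≤ c * |z.im| → XiM μ z ≠ 0 := by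
  obtain ⟨C, Y₁, hC, hY₁, hup⟩ := cone_upper hμ
  obtain ⟨c₀, Y₂, hc₀, hY₂, hlow⟩ := axis_lower hμ
  obtain ⟨c, hc⟩ : ∃ c, c = min (1 / 8) (c₀ / (8 * C)) := ⟨_, rfl⟩
  have hc1 : c ≤ 1 / 8 := by rw [hc]; exact min_le_left _ _
  have hc2 : c ≤ c₀ / (8 * C) := by rw [hc]; exact min_le_right _ _
  have hcpos : 0 < c := by rw [hc]; positivity
  obtain ⟨Y, hY⟩ : ∃ Y, Y = 2 * Y₁ + Y₂ := ⟨_, rfl⟩
  -- the half plane `Im z < 0`
  have key : ∀ w : ℂ, Y ≤ w.re → |w.im| ≤ c * w.re → XiM μ (-I * w) ≠ 0 := by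
    intro w hw1 hw2 hzero
    have hy0 : 0 < w.re := by linarith
    set G : ℂ → ℂ := fun v => XiM μ (-I * v) * cexp (-hh μ v) with hG
    have hball : ∀ v ∈ ball w (w.re / 4), Y₁ ≤ v.re ∧ |v.im| ≤ v.re ∧ 0 < v.re := by
      intro v hv
      rw [mem_ball, dist_eq_norm] at hv
      have h1 := (Complex.abs_re_le_norm (v - w)).trans hv.le
      have h2 := (Complex.abs_im_le_norm (v - w)).trans hv.le
      rw [Complex.sub_re, abs_le] at h1
      rw [Complex.sub_im] at h2
      have h3 : |v.im| ≤ |w.im| + |v.im - w.im| := by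
        calc |v.im| = |w.im + (v.im - w.im)| := by ring_nf
          _ ≤ _ := abs_add_le _ _
      have h4 : c * w.re ≤ 1 / 8 * w.re := by gcongr
      refine ⟨by linarith [h1.1], by linarith [h1.1], by linarith [h1.1]⟩
    have hGd : DifferentiableOn ℂ G (ball w (w.re / 4)) := by
      intro v hv
      obtain ⟨-, -, h3⟩ := hball v hv
      have h4 : DifferentiableAt ℂ (hh μ) v :=
        (hh_diff μ v h3).differentiableAt ((isOpen_lt continuous_const continuous_re).mem_nhds h3)
      have h5 : DifferentiableAt ℂ (fun v => XiM μ (-I * v)) v :=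
        ((differentiable_XiM hμ.le).comp (by fun_prop : Differentiable ℂ fun v : ℂ => -I * v)) v
      exact (h5.mul h4.neg.cexp).differentiableWithinAt
    have hnG : ∀ v : ℂ, v ≠ 0 → ‖G v‖ = ‖XiM μ (-I * v)‖ * Real.exp (-Ere μ v) := by
      intro v hv
      rw [hG]
      simp only
      rw [norm_mul, Complex.norm_exp, Complex.neg_re, hh_re μ hv]
    have hGw : G w = 0 := by
      rw [hG]
      simp only
      rw [hzero, zero_mul]
    have hmaps : Set.MapsTo G (ball w (w.re / 4)) (closedBall (G w) C) := by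
      intro v hv
      obtain ⟨h1, h2, h3⟩ := hball v hv
      have hv0 : v ≠ 0 := by
        rintro rfl
        simp at h3
      rw [hGw, mem_closedBall, dist_zero_right, hnG v hv0]
      calc ‖XiM μ (-I * v)‖ * Real.exp (-Ere μ v) ≤
          (C * Real.exp (Ere μ v)) * Real.exp (-Ere μ v) := by
            gcongr
            exact hup v h1 h2
        _ = C := by
            rw [mul_assoc, ← Real.exp_add]
            simp
    have hcen : (w.re : ℂ) ∈ ball w (w.re / 4) := by
      rw [mem_ball, dist_eq_norm]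
      have h1 : (w.re : ℂ) - w = -(w.im : ℂ) * I := by
        apply Complex.ext <;> simp
      rw [h1, norm_mul, norm_neg, Complex.norm_real, Complex.norm_I, mul_one, Real.norm_eq_abs]
      have h4 : c * w.re ≤ 1 / 8 * w.re := by gcongr
      linarith
    have hS := Complex.dist_le_div_mul_dist_of_mapsTo_ball hGd hmaps hcen
    rw [hGw, dist_zero_right] at hS
    have hd : dist (w.re : ℂ) w ≤ c * w.re := by
      rw [dist_eq_norm]
      have h1 : (w.re : ℂ) - w = -(w.im : ℂ) * I := by
        apply Complex.ext <;> simp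
      rw [h1, norm_mul, norm_neg, Complex.norm_real, Complex.norm_I, mul_one, Real.norm_eq_abs]
      exact hw2
    have hy0' : (w.re : ℂ) ≠ 0 := by exact_mod_cast hy0.ne'
    have hGl : c₀ ≤ ‖G w.re‖ := by
      rw [hnG _ hy0']
      calc c₀ = (c₀ * Real.exp (Ere μ w.re)) * Real.exp (-Ere μ w.re) := by
            rw [mul_assoc, ← Real.exp_add]
            simp
        _ ≤ _ := by
            gcongr
            exact hlow w.re (by linarith)
    have hfin : c₀ ≤ C / (w.re / 4) * (c * w.re) :=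
      hGl.trans (hS.trans (mul_le_mul_of_nonneg_left hd (by positivity)))
    have h6 : C / (w.re / 4) * (c * w.re) = 4 * C * c := by
      field_simp
    rw [h6] at hfin
    have h7 : 4 * C * c ≤ c₀ / 2 := by
      calc 4 * C * c ≤ 4 * C * (c₀ / (8 * C)) := by gcongr
        _ = c₀ / 2 := by field_simp; ring
    linarith
  refine ⟨c, Y, hcpos, by rw [hY]; linarith, fun z hz1 hz2 => ?_⟩
  rcases le_total z.im 0 with h | h
  · have h1 := key (I * z) (by
      rw [Complex.mul_re, Complex.I_re, Complex.I_im]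
      rw [abs_of_nonpos h] at hz1
      linarith) (by
      rw [Complex.mul_re, Complex.mul_im, Complex.I_re, Complex.I_im]
      rw [abs_of_nonpos h] at hz2
      simp only [zero_mul, one_mul, zero_add, zero_sub]
      exact hz2)
    have h2 : -I * (I * z) = z := by
      have : I * I = -1 := I_mul_I
      linear_combination (-z) * this
    rwa [h2] at h1
  · have h1 := key (-(I * z)) (by
      rw [Complex.neg_re, Complex.mul_re, Complex.I_re, Complex.I_im]
      rw [abs_of_nonneg h] at hz1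
      linarith) (by
      rw [Complex.neg_re, Complex.neg_im, Complex.mul_re, Complex.mul_im, Complex.I_re,
        Complex.I_im]
      rw [abs_of_nonneg h] at hz2
      simp only [zero_mul, one_mul, zero_add, zero_sub, neg_neg, abs_neg]
      exact hz2)
    have h2 : -I * (-(I * z)) = -z := by
      have : I * I = -1 := I_mul_I
      linear_combination z * this
    rwa [h2, XiM_neg] at h1

end Pool.Agent.T6.H61.KK
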