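import Pool.Agent.T6.H61.KK.URect
import Pool.Agent.T6.H61.KK.UBad
import Pool.Agent.Y971.KK.RMain

set_option autoImplicit false

/-!
# The defect of `Ξ_{-μ}`
-/

namespace Pool.Agent.T6.H61.KK

open Complex MeasureTheory Filter Topology Metric Pool.Agent.Helper242.KK Pool.Agent.Y971.KK

theorem XiM_conj (μ : ℝ) (z : ℂ) : XiM μ ((starRingEnd ℂ) z) = (starRingEnd ℂ) (XiM μ z) := by
  have h1 : XiM μ ((starRingEnd ℂ) z) = XiM μ (-(starRingEnd ℂ) z) := (XiM_neg μ _).symm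
  rw [h1]
  unfold XiM FT
  rw [← integral_conj]
  refine integral_congr_ae (Eventually.of_forall fun t => ?_)
  simp only
  rw [map_mul, Complex.conj_ofReal, ← Complex.exp_conj, map_mul, map_mul, Complex.conj_I,
    Complex.conj_ofReal]
  congr 2
  ring

/-- the function `Ξ_{-μ}(z) exp(π z / 4)` -/
noncomputable def FX (μ : ℝ) (z : ℂ) : ℂ := XiM μ z * cexp (((Real.pi / 4 : ℝ) : ℂ) * z)

theorem differentiable_FX {μ : ℝ} (hμ : 0 ≤ μ) : Differentiable ℂ (FX μ) := by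
  unfold FX
  exact (differentiable_XiM hμ).mul (by fun_prop)

theorem norm_FX (μ : ℝ) (z : ℂ) : ‖FX μ z‖ = ‖XiM μ z‖ * Real.exp (Real.pi / 4 * z.re) := by
  rw [FX, norm_mul, Complex.norm_exp, Complex.re_ofReal_mul]

theorem FX_ne {μ : ℝ} (hμ : 0 ≤ μ) : ∃ z, FX μ z ≠ 0 :=
  ⟨0, mul_ne_zero (XiM_zero_ne hμ) (Complex.exp_ne_zero _)⟩

theorem zc_FX {μ : ℝ} (hμ : 0 ≤ μ) (S : Set ℂ) : zc (FX μ) S = zc (XiM μ) S :=
  zc_mul_exp (differentiable_XiM hμ) _ S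

theorem norm_fa (μ a x : ℝ) : ‖fa μ a x‖ = Real.exp (-(a ^ 2 / (4 * μ))) * ‖XiM μ (x + a * I)‖ := by
  rw [fa, norm_mul, Complex.norm_real, Real.norm_of_nonneg (Real.exp_pos _).le]

theorem norm_fa_neg (μ a x : ℝ) : ‖fa μ (-a) x‖ = ‖fa μ a x‖ := by
  rw [norm_fa, norm_fa, neg_sq]
  have h1 : ((x : ℂ) + ((-a : ℝ) : ℂ) * I) = (starRingEnd ℂ) (x + a * I) := by
    simp
  rw [h1, XiM_conj, Complex.norm_conj]

/-- the defect at a good point -/
theorem dfc_good {μ K a y t : ℝ} (hy : 0 ≤ y)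
    (h : Real.exp (-t) < ‖fa μ a y‖ * Real.exp (Real.pi / 4 * |y|)) :
    FX μ (y + a * I) ≠ 0 ∧ dfc (FX μ) μ K (y + a * I) ≤ K + t := by
  rw [norm_fa, abs_of_nonneg hy] at h
  have h1 : ‖FX μ (y + a * I)‖ = ‖XiM μ (y + a * I)‖ * Real.exp (Real.pi / 4 * y) := by
    rw [norm_FX]
    simp
  have h2 : Real.exp (a ^ 2 / (4 * μ) - t) < ‖FX μ (y + a * I)‖ := by
    rw [h1, sub_eq_add_neg, Real.exp_add]
    have h3 : Real.exp (a ^ 2 / (4 * μ)) * Real.exp (-(a ^ 2 / (4 * μ))) = 1 := by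
      rw [← Real.exp_add]; simp
    calc Real.exp (a ^ 2 / (4 * μ)) * Real.exp (-t) <
          Real.exp (a ^ 2 / (4 * μ)) * (Real.exp (-(a ^ 2 / (4 * μ))) *
            ‖XiM μ (y + a * I)‖ * Real.exp (Real.pi / 4 * y)) :=
          mul_lt_mul_of_pos_left h (Real.exp_pos _)
      _ = (Real.exp (a ^ 2 / (4 * μ)) * Real.exp (-(a ^ 2 / (4 * μ)))) *
            (‖XiM μ (y + a * I)‖ * Real.exp (Real.pi / 4 * y)) := by ring
      _ = _ := by rw [h3, one_mul]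
  have h3 : 0 < ‖FX μ (y + a * I)‖ := (Real.exp_pos _).trans h2
  refine ⟨norm_pos_iff.1 h3, ?_⟩
  have h4 : a ^ 2 / (4 * μ) - t ≤ Real.log ‖FX μ (y + a * I)‖ :=
    (Real.le_log_iff_exp_le h3).2 h2.le
  unfold dfc gq
  have h5 : ((y : ℂ) + a * I).im = a := by simp
  rw [h5]
  linarith

/-- the defect is nonnegative -/
theorem dfc_FX_nonneg {μ : ℝ} (hμ : 0 < μ) : ∃ T₀ : ℝ, 1 ≤ T₀ ∧ ∀ T : ℝ, T₀ ≤ T → ∀ z : ℂ,
    2 ≤ z.re → z.re ≤ 8 * T → 0 ≤ dfc (FX μ) μ (4 * Real.log T) z := by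
  obtain ⟨C, hC, h⟩ := XiM_strip hμ
  refine ⟨max 1 (512 * C), le_max_left _ _, fun T hT z hz1 hz2 => ?_⟩
  have hT1 : 1 ≤ T := (le_max_left _ _).trans hT
  have hT2 : 512 * C ≤ T := (le_max_right _ _).trans hT
  have hT0 : 0 < T := by linarith
  unfold dfc gq
  rcases eq_or_lt_of_le (norm_nonneg (FX μ z)) with h0 | h0
  · rw [← h0, Real.log_zero]
    have := Real.log_nonneg hT1
    have h1 : 0 ≤ z.im ^ 2 / (4 * μ) := by positivity
    linarith
  · have h1 : ‖FX μ z‖ ≤ Real.exp (z.im ^ 2 / (4 * μ) + 4 * Real.log T) := by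
      have h2 := h z.re z.im hz1
      rw [Complex.re_add_im] at h2
      rw [norm_FX]
      have h3 : C * z.re ^ 3 ≤ T ^ 4 := by
        have h4 : z.re ^ 3 ≤ (8 * T) ^ 3 := pow_le_pow_left₀ (by linarith) hz2 3
        calc C * z.re ^ 3 ≤ C * (8 * T) ^ 3 := mul_le_mul_of_nonneg_left h4 (by positivity)
          _ = (512 * C) * T ^ 3 := by ring
          _ ≤ T * T ^ 3 := mul_le_mul_of_nonneg_right hT2 (by positivity)
          _ = T ^ 4 := by ring
      have h5 : Real.exp (4 * Real.log T) = T ^ 4 := by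
        have : 4 * Real.log T = ((4 : ℕ) : ℝ) * Real.log T := by norm_num
        rw [this, Real.exp_nat_mul, Real.exp_log hT0]
      calc ‖XiM μ z‖ * Real.exp (Real.pi / 4 * z.re) ≤
            (C * z.re ^ 3 * Real.exp (-(Real.pi / 4) * z.re + z.im ^ 2 / (4 * μ))) *
              Real.exp (Real.pi / 4 * z.re) := by gcongr
        _ = C * z.re ^ 3 * Real.exp (z.im ^ 2 / (4 * μ)) := by
            rw [mul_assoc, ← Real.exp_add]
            congr 2
            ring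
        _ ≤ T ^ 4 * Real.exp (z.im ^ 2 / (4 * μ)) := by gcongr
        _ = _ := by rw [Real.exp_add, h5]; ring
    have h2 := (Real.log_le_iff_le_exp h0).2 h1
    linarith

/-- the integral of the defect over a disc near a good point -/
theorem disc_good {μ K t a x y R R' : ℝ} (hμ : 0 < μ) (hK : 0 ≤ K) (ht : 0 ≤ t) (hR : 0 < R)
    (hR' : 0 < R') (hy : 0 ≤ y) (h : Real.exp (-t) < ‖fa μ a y‖ * Real.exp (Real.pi / 4 * |y|))
    (hxy : |y - x| + R' ≤ R) (hn : ∀ z ∈ closedBall ((y : ℂ) + a * I) R, 0 ≤ dfc (FX μ) μ K z) :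
    ∫⁻ z in ball ((x : ℂ) + a * I) R', Dfc (FX μ) μ K z ≤
      ENNReal.ofReal (Real.pi * R ^ 2 * (K + t + R ^ 2 / (16 * μ))) := by
  obtain ⟨h1, h2⟩ := dfc_good (K := K) hy h
  have h3 := lint_disc (differentiable_FX hμ.le) hμ hR h1 hn
  have h4 : ball ((x : ℂ) + a * I) R' ⊆ ball ((y : ℂ) + a * I) R := by
    apply ball_subset_ball'
    rw [dist_eq_norm]
    have h5 : ((x : ℂ) + a * I) - (y + a * I) = ((x - y : ℝ) : ℂ) := by push_cast; ring
    rw [h5, Complex.norm_real, Real.norm_eq_abs, abs_sub_comm]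
    linarith
  refine (lintegral_mono_set h4).trans (h3.trans ?_)
  apply ENNReal.ofReal_le_ofReal
  apply mul_le_mul_of_nonneg_left _ (by positivity)
  linarith

end Pool.Agent.T6.H61.KK
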