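import Pool.Agent.T6.H61.KK.UCone3

set_option autoImplicit false

/-!
# The law of the zeros of `Ξ_{-μ}` in vertical strips
-/

namespace Pool.Agent.T6.H61.KK

open Complex MeasureTheory Filter Topology Metric Pool.Agent.Helper242.KK Pool.Agent.Y971.KK

theorem zc_mono_zeros {f : ℂ → ℂ} (hf : Differentiable ℂ f) {S T : Set ℂ}
    (h : ∀ z ∈ S, f z = 0 → z ∈ T) : zc f S ≤ zc f T := by
  unfold zc
  rw [tsum_subtype S (fun z => ((analyticOrderAt f (z : ℂ) : ℕ∞) : ENNReal)),
    tsum_subtype T (fun z => ((analyticOrderAt f (z : ℂ) : ℕ∞) : ENNReal))]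
  refine ENNReal.tsum_le_tsum fun z => ?_
  by_cases hz : z ∈ S
  · by_cases hfz : f z = 0
    · rw [Set.indicator_of_mem hz, Set.indicator_of_mem (h z hz hfz)]
    · rw [Set.indicator_of_mem hz, (hf.analyticAt z).analyticOrderAt_eq_zero.2 hfz]
      simp
  · rw [Set.indicator_of_notMem hz]
    exact zero_le

/-- few zeros with large imaginary part in discs -/
theorem exc_few {μ δ : ℝ} (hμ : 0 < μ) (hδ : 0 < δ) (hδ1 : δ ≤ 1 / 8) :
    ∀ᶠ R : ℝ in atTop, zc (XiM μ) {z | ‖z‖ ≤ R ∧ (1 - δ) * μ * Real.log R < |z.im|} ≤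
      ENNReal.ofReal (3 * δ * R * Real.log R) := by
  have hpi := Real.pi_gt_three
  have hpi0 := Real.pi_pos
  filter_upwards [ball_upper hμ hδ, disc_strip_lower (κ := 1 - δ) hμ (by linarith) hδ,
    eventually_ge_atTop 3] with R h1 h2 h3
  have hl : 0 < Real.log R := Real.log_pos (by linarith)
  have hdis : Disjoint {z : ℂ | ‖z‖ ≤ R ∧ (1 - δ) * μ * Real.log R < |z.im|}
      {z : ℂ | ‖z‖ ≤ R ∧ |z.im| ≤ (1 - δ) * μ * Real.log R} := by
    rw [Set.disjoint_left]
    rintro z ⟨-, a⟩ ⟨-, b⟩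
    linarith
  have h4 : zc (XiM μ) {z | ‖z‖ ≤ R ∧ (1 - δ) * μ * Real.log R < |z.im|} +
      zc (XiM μ) {z | ‖z‖ ≤ R ∧ |z.im| ≤ (1 - δ) * μ * Real.log R} ≤
      zc (XiM μ) (closedBall 0 R) := by
    rw [← zc_union_disjoint _ hdis]
    apply zc_mono
    rintro z (⟨a, -⟩ | ⟨a, -⟩) <;> rwa [mem_closedBall, dist_zero_right]
  have h5 : zc (XiM μ) {z | ‖z‖ ≤ R ∧ (1 - δ) * μ * Real.log R < |z.im|} +
      ENNReal.ofReal (((1 - δ) / Real.pi - δ) * R * Real.log R) ≤
      ENNReal.ofReal (3 * δ * R * Real.log R) +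
      ENNReal.ofReal (((1 - δ) / Real.pi - δ) * R * Real.log R) := by
    refine (add_le_add le_rfl h2).trans (h4.trans (h1.trans ?_))
    have h6 : 0 ≤ (1 - δ) / Real.pi - δ := by
      have : 1 / 4 ≤ (1 - δ) / Real.pi := by
        rw [le_div_iff₀ hpi0]
        have := Real.pi_lt_d2
        linarith
      linarith
    rw [← ENNReal.ofReal_add (by positivity) (by positivity)]
    apply ENNReal.ofReal_le_ofReal
    have h7 : (1 - δ) / Real.pi = 1 / Real.pi - δ / Real.pi := by ring
    have h8 : δ / Real.pi ≤ δ := div_le_self hδ.le (by linarith)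
    have h9 : (1 / Real.pi + δ) ≤ 3 * δ + ((1 - δ) / Real.pi - δ) := by
      rw [h7]
      linarith
    calc (1 / Real.pi + δ) * R * Real.log R ≤
        (3 * δ + ((1 - δ) / Real.pi - δ)) * R * Real.log R := by gcongr
      _ = _ := by ring
  exact (ENNReal.add_le_add_iff_right ENNReal.ofReal_ne_top).1 h5

/-- **The upper bound for the number of zeros in a vertical strip.** -/
theorem vert_upper {μ ε : ℝ} (hμ : 0 < μ) (hε : 0 < ε) :
    ∀ᶠ T : ℝ in atTop, zc (XiM μ) {z | |z.re| ≤ T} ≤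
      ENNReal.ofReal ((1 / Real.pi + ε) * T * Real.log T) := by
  obtain ⟨c, Y, hc, hY, hcone⟩ := cone_zero_free hμ
  obtain ⟨A, hA⟩ : ∃ A, A = 1 + 1 / c := ⟨_, rfl⟩
  have hA1 : 1 < A := by
    have : 0 < 1 / c := by positivity
    rw [hA]; linarith
  have hA0 : 0 < A := by linarith
  obtain ⟨δ, hδ0, hδ1, hδ2⟩ : ∃ δ : ℝ, 0 < δ ∧ δ ≤ 1 / 8 ∧ (1 + 6 * A) * δ ≤ ε := by
    refine ⟨min (1 / 8) (ε / (1 + 6 * A)), lt_min (by norm_num) (by positivity), min_le_left _ _, ?_⟩
    have : min (1 / 8) (ε / (1 + 6 * A)) ≤ ε / (1 + 6 * A) := min_le_right _ _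
    rw [le_div_iff₀ (by positivity)] at this
    linarith
  have hten : Tendsto (fun T : ℝ => A * T) atTop atTop := tendsto_id.const_mul_atTop hA0
  filter_upwards [hten.eventually (exc_few hμ hδ0 hδ1),
    strip_upper (κ := 1 - δ / 2) hμ (by linarith) (by linarith) hδ0,
    eventually_ge_atTop (c * Y), eventually_ge_atTop 3,
    ev_log (2 * Real.log A / δ + Real.log A)] with T h1 h2 h3 h4 h5
  have hT0 : 0 < T := by linarith
  have hlA : 0 < Real.log A := Real.log_pos hA1
  have hq : 0 ≤ 2 * Real.log A / δ := by positivity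
  have h6 : 2 * Real.log A / δ ≤ Real.log T := by linarith
  have h7 : Real.log A ≤ Real.log T := by linarith
  rw [div_le_iff₀ hδ0] at h6
  have hlT : 0 < Real.log T := by linarith
  have hlog : Real.log (A * T) = Real.log A + Real.log T := Real.log_mul hA0.ne' hT0.ne'
  rw [hlog] at h1
  calc zc (XiM μ) {z | |z.re| ≤ T} ≤
      zc (XiM μ) ({z | |z.re| ≤ T ∧ |z.im| ≤ (1 - δ / 2) * μ * Real.log T} ∪
        {z | ‖z‖ ≤ A * T ∧ (1 - δ) * μ * (Real.log A + Real.log T) < |z.im|}) := by
        apply zc_mono_zeros (differentiable_XiM hμ.le)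
        intro z hz hz0
        have hz' : |z.re| ≤ T := hz
        rcases le_or_gt |z.im| ((1 - δ) * μ * (Real.log A + Real.log T)) with h8 | h8
        · refine Or.inl ⟨hz', h8.trans ?_⟩
          have h9 : (1 - δ) * (Real.log A + Real.log T) ≤ (1 - δ / 2) * Real.log T := by
            nlinarith
          have h10 := mul_le_mul_of_nonneg_right h9 hμ.le
          linarith
        · refine Or.inr ⟨?_, h8⟩
          refine (Complex.norm_le_abs_re_add_abs_im z).trans ?_
          have h9 : |z.im| ≤ T / c := by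
            by_contra hcon
            push Not at hcon
            have h10 : Y ≤ |z.im| := by
              have : Y ≤ T / c := by
                rw [le_div_iff₀ hc]; linarith
              linarith
            have h11 : |z.re| ≤ c * |z.im| := by
              rw [div_lt_iff₀ hc] at hcon
              linarith
            exact hcone z h10 h11 hz0
          have h12 : A * T = T + T / c := by rw [hA]; ring
          rw [h12]
          linarith
    _ ≤ zc (XiM μ) {z | |z.re| ≤ T ∧ |z.im| ≤ (1 - δ / 2) * μ * Real.log T} +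
        zc (XiM μ) {z | ‖z‖ ≤ A * T ∧ (1 - δ) * μ * (Real.log A + Real.log T) < |z.im|} :=
        zc_union_le _ _ _
    _ ≤ ENNReal.ofReal (((1 - δ / 2) / Real.pi + δ) * T * Real.log T) +
        ENNReal.ofReal (3 * δ * (A * T) * (Real.log A + Real.log T)) := add_le_add h2 h1
    _ ≤ _ := by
        have hpi0 := Real.pi_pos
        have h8 : 0 ≤ 1 - δ / 2 := by linarith
        rw [← ENNReal.ofReal_add (by positivity) (by positivity)]
        apply ENNReal.ofReal_le_ofReal
        have g1 : ((1 - δ / 2) / Real.pi + δ) * T * Real.log T ≤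
            (1 / Real.pi + δ) * T * Real.log T := by
          gcongr
          linarith
        have g2 : 3 * δ * (A * T) * (Real.log A + Real.log T) ≤
            3 * δ * (A * T) * (Real.log T + Real.log T) := by gcongr
        have g3 : ((1 + 6 * A) * δ) * (T * Real.log T) ≤ ε * (T * Real.log T) := by gcongr
        linarith

/-- the number of zeros in vertical strips -/
theorem law_vert {μ : ℝ} (hμ : 0 < μ) :
    Tendsto (fun T : ℝ => zc (XiM μ) {z | |z.re| ≤ T} / ENNReal.ofReal (T * Real.log T)) atTop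
      (𝓝 (ENNReal.ofReal (1 / Real.pi))) := by
  refine tendsto_of_bounds (by positivity) (fun ε hε => ?_) fun ε hε => vert_upper hμ hε
  filter_upwards [law_lower (κ := 1) hμ hε] with T h1
  rw [min_self] at h1
  exact h1.trans (zc_mono _ fun z hz => (Complex.abs_re_le_norm z).trans hz.1)

/-- bounds at the height `κ μ log T` from bounds at the height `κ μ log (α T)` -/
theorem scale_bounds {μ κ α ε : ℝ} (hμ : 0 < μ) (hκ : 0 ≤ κ) (hα : 0 < α) (hα1 : α ≤ 1)
    (hε : 0 < ε) (S : ℝ → Set ℂ)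
    (hlow : ∀ ε : ℝ, 0 < ε → ∀ᶠ T : ℝ in atTop,
      ENNReal.ofReal ((min κ 1 / Real.pi - ε) * T * Real.log T) ≤
      zc (XiM μ) {z | z ∈ S T ∧ |z.im| ≤ κ * μ * Real.log T})
    (hup : ∀ κ ε : ℝ, 0 ≤ κ → 0 < ε → ∀ᶠ T : ℝ in atTop,
      zc (XiM μ) {z | z ∈ S T ∧ |z.im| ≤ κ * μ * Real.log T} ≤
      ENNReal.ofReal ((min κ 1 / Real.pi + ε) * T * Real.log T)) :
    (∀ᶠ T : ℝ in atTop, ENNReal.ofReal ((α * min κ 1 / Real.pi - ε) * T * Real.log T) ≤
      zc (XiM μ) {z | z ∈ S (α * T) ∧ |z.im| ≤ κ * μ * Real.log T}) ∧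
    ∀ᶠ T : ℝ in atTop, zc (XiM μ) {z | z ∈ S (α * T) ∧ |z.im| ≤ κ * μ * Real.log T} ≤
      ENNReal.ofReal ((α * min κ 1 / Real.pi + ε) * T * Real.log T) := by
  have hpi := Real.pi_gt_three
  have hpi0 := Real.pi_pos
  have hten : Tendsto (fun T : ℝ => α * T) atTop atTop := tendsto_id.const_mul_atTop hα
  have hlα : Real.log α ≤ 0 := Real.log_nonpos hα.le hα1
  have hm0 : 0 ≤ min κ 1 := le_min hκ zero_le_one
  have hm1 : min κ 1 ≤ 1 := min_le_right _ _
  have hmπ : min κ 1 / Real.pi ≤ 1 := by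
    rw [div_le_one hpi0]; linarith
  have hmπ0 : 0 ≤ min κ 1 / Real.pi := by positivity
  constructor
  · filter_upwards [hten.eventually (hlow (ε / 2) (by positivity)), eventually_ge_atTop 1,
      ev_log (-(2 * Real.log α / ε)), ev_log (-Real.log α)] with T h1 h2 h3 h4
    have hT0 : 0 < T := by linarith
    have hlT : 0 ≤ Real.log T := Real.log_nonneg h2
    rw [Real.log_mul hα.ne' hT0.ne'] at h1
    refine le_trans (ENNReal.ofReal_le_ofReal ?_) (h1.trans (zc_mono _ ?_))
    · have h5 : -(2 * Real.log α) ≤ Real.log T * ε := by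
        rw [← neg_div, div_le_iff₀ hε] at h3
        exact h3
      have h6 : (α * (min κ 1 / Real.pi) - ε) * Real.log T ≤
          α * ((min κ 1 / Real.pi - ε / 2) * (Real.log α + Real.log T)) := by
        have h7 : α * (min κ 1 / Real.pi) * (-Real.log α) ≤ 1 * 1 * (-Real.log α) := by
          gcongr
          linarith
        have h8 : 0 ≤ α * (ε / 2) * (-Real.log α) := by
          have : 0 ≤ -Real.log α := by linarith
          positivity
        have h9 : α * (ε / 2) * Real.log T ≤ 1 * (ε / 2) * Real.log T := by gcongr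
        linarith
      have h10 := mul_le_mul_of_nonneg_left h6 hT0.le
      calc (α * min κ 1 / Real.pi - ε) * T * Real.log T =
          T * ((α * (min κ 1 / Real.pi) - ε) * Real.log T) := by ring
        _ ≤ T * (α * ((min κ 1 / Real.pi - ε / 2) * (Real.log α + Real.log T))) := h10
        _ = _ := by ring
    · rintro z ⟨a1, a2⟩
      refine ⟨a1, a2.trans ?_⟩
      gcongr
      linarith
  · obtain ⟨δ, hδ⟩ : ∃ δ, δ = ε / 2 := ⟨_, rfl⟩
    have hδ0 : 0 < δ := by rw [hδ]; positivity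
    filter_upwards [hten.eventually (hup (κ + δ) δ (by linarith) hδ0), eventually_ge_atTop 1,
      ev_log (-((κ + δ) * Real.log α / δ))] with T h1 h2 h3
    have hT0 : 0 < T := by linarith
    have hlT : 0 ≤ Real.log T := Real.log_nonneg h2
    rw [Real.log_mul hα.ne' hT0.ne'] at h1
    rw [← neg_div, div_le_iff₀ hδ0] at h3
    refine (zc_mono _ ?_).trans (h1.trans (ENNReal.ofReal_le_ofReal ?_))
    · rintro z ⟨a1, a2⟩
      refine ⟨a1, a2.trans ?_⟩
      have h5 : κ * Real.log T ≤ (κ + δ) * (Real.log α + Real.log T) := by linarith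
      have h6 := mul_le_mul_of_nonneg_right h5 hμ.le
      linarith
    · have h5 : min (κ + δ) 1 ≤ min κ 1 + δ := by
        rcases le_total κ 1 with h | h
        · rw [min_eq_left h]; exact min_le_left _ _
        · rw [min_eq_right h]; exact (min_le_right _ _).trans (by linarith)
      have h6 : min (κ + δ) 1 / Real.pi + δ ≤ min κ 1 / Real.pi + 2 * δ := by
        have h7 : min (κ + δ) 1 / Real.pi ≤ (min κ 1 + δ) / Real.pi := by gcongr
        have h8 : (min κ 1 + δ) / Real.pi = min κ 1 / Real.pi + δ / Real.pi := by ring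
        have h9 : δ / Real.pi ≤ δ := div_le_self hδ0.le (by linarith)
        linarith
      have hneg : (min (κ + δ) 1 / Real.pi + δ) * (α * T) * (Real.log α + Real.log T) ≤
          (min (κ + δ) 1 / Real.pi + δ) * (α * T) * Real.log T := by
        have h0 : 0 ≤ min (κ + δ) 1 := le_min (by linarith) zero_le_one
        gcongr
        linarith
      refine hneg.trans ?_
      calc (min (κ + δ) 1 / Real.pi + δ) * (α * T) * Real.log T ≤
          (min κ 1 / Real.pi + 2 * δ) * (α * T) * Real.log T := by gcongr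
        _ = (α * min κ 1 / Real.pi + α * ε) * T * Real.log T := by rw [hδ]; ring
        _ ≤ (α * min κ 1 / Real.pi + 1 * ε) * T * Real.log T := by gcongr
        _ = _ := by ring

/-- the quotient of two limits -/
theorem tendsto_ratio_of {N M : ℝ → ENNReal} {c d : ℝ} (hd : 0 < d)
    (h1 : Tendsto (fun T : ℝ => N T / ENNReal.ofReal (T * Real.log T)) atTop
      (𝓝 (ENNReal.ofReal c)))
    (h2 : Tendsto (fun T : ℝ => M T / ENNReal.ofReal (T * Real.log T)) atTop
      (𝓝 (ENNReal.ofReal d))) :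
    Tendsto (fun T : ℝ => N T / M T) atTop (𝓝 (ENNReal.ofReal (c / d))) := by
  have h3 := ENNReal.Tendsto.div h1 (Or.inr (by
    rw [Ne, ENNReal.ofReal_eq_zero, not_le]; exact hd)) h2 (Or.inl ENNReal.ofReal_ne_top)
  rw [← ENNReal.ofReal_div_of_pos hd] at h3
  refine h3.congr' ?_
  filter_upwards [eventually_ge_atTop 3] with T hT
  have hl : 0 < Real.log T := Real.log_pos (by linarith)
  have hTl : 0 < T * Real.log T := by positivity
  have hne : ENNReal.ofReal (T * Real.log T) ≠ 0 := by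
    rw [Ne, ENNReal.ofReal_eq_zero, not_le]; exact hTl
  rw [div_eq_mul_inv (N T), div_eq_mul_inv (M T), ENNReal.mul_div_mul_right _ _
    (ENNReal.inv_ne_zero.2 ENNReal.ofReal_ne_top) (ENNReal.inv_ne_top.2 hne)]

/-- **The law of the zeros**, rectangles -/
theorem law_rect_ratio {μ κ α : ℝ} (hμ : 0 < μ) (hκ : 0 ≤ κ) (hα : 0 < α) (hα1 : α ≤ 1) :
    Tendsto (fun T : ℝ => zc (XiM μ) {z | |z.re| ≤ α * T ∧ |z.im| ≤ κ * μ * Real.log T} /
      zc (XiM μ) {z | |z.re| ≤ T}) atTop (𝓝 (ENNReal.ofReal (α * min κ 1))) := by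
  have hb := fun ε (hε : 0 < ε) => scale_bounds (ε := ε) hμ hκ hα hα1 hε (fun T => {z | |z.re| ≤ T})
    (fun ε hε => by
      filter_upwards [law_lower (κ := κ) hμ hε] with T h1
      refine h1.trans (zc_mono _ ?_)
      rintro z ⟨a1, a2⟩
      exact ⟨(Complex.abs_re_le_norm z).trans a1, a2⟩)
    (fun κ ε hκ hε => law_upper_rect hμ hκ hε)
  have h0 : 0 ≤ min κ 1 := le_min hκ zero_le_one
  have h1 := tendsto_of_bounds (c := α * min κ 1 / Real.pi) (by positivity)
    (fun ε hε => (hb ε hε).1) (fun ε hε => (hb ε hε).2)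
  have h2 := tendsto_ratio_of (show 0 < 1 / Real.pi by positivity) h1 (law_vert hμ)
  have h3 : α * min κ 1 / Real.pi / (1 / Real.pi) = α * min κ 1 := by
    have := Real.pi_pos
    field_simp
  rw [h3] at h2
  exact h2

/-- **The law of the zeros**, discs -/
theorem law_disc_ratio {μ κ α : ℝ} (hμ : 0 < μ) (hκ : 0 ≤ κ) (hα : 0 < α) (hα1 : α ≤ 1) :
    Tendsto (fun T : ℝ => zc (XiM μ) {z | ‖z‖ ≤ α * T ∧ |z.im| ≤ κ * μ * Real.log T} /
      zc (XiM μ) {z | |z.re| ≤ T}) atTop (𝓝 (ENNReal.ofReal (α * min κ 1))) := by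
  have hb := fun ε (hε : 0 < ε) => scale_bounds (ε := ε) hμ hκ hα hα1 hε (fun T => {z | ‖z‖ ≤ T})
    (fun ε hε => law_lower (κ := κ) hμ hε)
    (fun κ ε hκ hε => law_upper hμ hκ hε)
  have h0 : 0 ≤ min κ 1 := le_min hκ zero_le_one
  have h1 := tendsto_of_bounds (c := α * min κ 1 / Real.pi) (by positivity)
    (fun ε hε => (hb ε hε).1) (fun ε hε => (hb ε hε).2)
  have h2 := tendsto_ratio_of (show 0 < 1 / Real.pi by positivity) h1 (law_vert hμ)
  have h3 : α * min κ 1 / Real.pi / (1 / Real.pi) = α * min κ 1 := by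
    have := Real.pi_pos
    field_simp
  rw [h3] at h2
  exact h2

/-- all zeros except for finitely many are in a double sector around the real axis -/
theorem sector_finite {μ : ℝ} (hμ : 0 < μ) :
    ∃ C : ℝ, {z : ℂ | XiM μ z = 0 ∧ C * |z.re| < |z.im|}.Finite := by
  obtain ⟨c, Y, hc, hY, hcone⟩ := cone_zero_free hμ
  refine ⟨1 / c, ?_⟩
  have hf := differentiable_XiM hμ.le
  obtain ⟨B, hB⟩ : ∃ B, B = c * Y + Y := ⟨_, rfl⟩
  have hA' : AnalyticOnNhd ℂ (XiM μ) (closedBall 0 B) := fun x _ => hf.analyticAt x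
  set E := MeromorphicOn.divisor (XiM μ) (closedBall (0 : ℂ) B) with hE
  have hfin : (Function.support E).Finite := E.finiteSupport (isCompact_closedBall 0 B)
  refine hfin.subset ?_
  rintro z ⟨hz0, hz1⟩
  have h1 : |z.re| < c * |z.im| := by
    rw [one_div, inv_mul_lt_iff₀ hc] at hz1
    exact hz1
  have h2 : |z.im| < Y := by
    by_contra hcon
    push Not at hcon
    exact hcone z hcon h1.le hz0
  have hzB : z ∈ closedBall (0:ℂ) B := by
    rw [mem_closedBall, dist_zero_right, hB]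
    refine (Complex.norm_le_abs_re_add_abs_im z).trans ?_
    have h3 : c * |z.im| ≤ c * Y := by gcongr
    linarith
  simp only [Function.mem_support, ne_eq]
  rw [hE, MeromorphicOn.AnalyticOnNhd.divisor_apply hA' hzB]
  intro h2
  have h3 : analyticOrderAt (XiM μ) z ≠ ⊤ := order_ne_top hf ⟨0, XiM_zero_ne hμ.le⟩ z
  have h4 : analyticOrderAt (XiM μ) z ≠ 0 := by
    rw [Ne, (hf.analyticAt z).analyticOrderAt_eq_zero]
    exact fun h => h hz0
  obtain ⟨k, hk⟩ := ENat.ne_top_iff_exists.1 h3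
  rw [← hk] at h2 h4
  simp at h2 h4
  exact h4 h2

end Pool.Agent.T6.H61.KK
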