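import Pool.Agent.T6.H61.KK.UBall

set_option autoImplicit false

/-!
# The law of the imaginary parts of the zeros of `Ξ_{-μ}`
-/

namespace Pool.Agent.T6.H61.KK

open Complex MeasureTheory Filter Topology Metric Pool.Agent.Helper242.KK Pool.Agent.Y971.KK

/-- the lower bound for the number of zeros in the intersection of the disc and the strip -/
theorem disc_strip_lower {μ κ ε : ℝ} (hμ : 0 < μ) (hκ : κ < 1) (hε : 0 < ε) :
    ∀ᶠ T : ℝ in atTop, ENNReal.ofReal ((κ / Real.pi - ε) * T * Real.log T) ≤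
      zc (XiM μ) {z | ‖z‖ ≤ T ∧ |z.im| ≤ κ * μ * Real.log T} := by
  rcases le_or_gt (κ / Real.pi - ε) 0 with hneg | hpos
  · filter_upwards [eventually_ge_atTop 1] with T hT
    rw [ENNReal.ofReal_eq_zero.2]
    · exact zero_le
    · have := Real.log_nonneg hT
      rw [mul_assoc]
      exact mul_nonpos_of_nonpos_of_nonneg hneg (by positivity)
  have hpi := Real.pi_gt_three
  have hpi0 := Real.pi_pos
  have hκp : 0 < κ / Real.pi := by linarith
  have hκ0 : 0 < κ := by
    by_contra h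
    push Not at h
    have := div_nonpos_of_nonpos_of_nonneg h hpi0.le
    linarith
  have hκ3 : κ / Real.pi ≤ 1 / 3 := by
    rw [div_le_iff₀ hpi0]
    linarith
  obtain ⟨δ, hδ⟩ : ∃ δ, δ = ε / 2 := ⟨_, rfl⟩
  have hδ0 : 0 < δ := by rw [hδ]; positivity
  have hδ1 : δ ≤ 1 / 6 := by rw [hδ]; linarith
  have hten : Tendsto (fun T : ℝ => (1 - δ) * T) atTop atTop :=
    tendsto_id.const_mul_atTop (by linarith)
  have h1 := hten.eventually (strip_lower hμ hκ (show 0 < ε / 2 by positivity))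
  filter_upwards [h1, eventually_ge_atTop 1, ev_log_small (c := δ / (κ * μ)) (by positivity),
    ev_log (3 * (κ / Real.pi) * 1 / ε + 1)] with T e1 e2 e3 e4
  have hT0 : 0 < T := by linarith
  have hl2 : -1 ≤ Real.log (1 - δ) := by
    have h2 := Real.one_sub_inv_le_log_of_pos (show 0 < 1 - δ by linarith)
    have h3 : (1 - δ)⁻¹ ≤ 2 := by
      rw [inv_le_comm₀ (by linarith) (by norm_num)]
      linarith
    linarith
  have hlog : Real.log ((1 - δ) * T) = Real.log (1 - δ) + Real.log T :=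
    Real.log_mul (by linarith) hT0.ne'
  have hlog0 : Real.log (1 - δ) ≤ 0 := Real.log_nonpos (by linarith) (by linarith)
  have hl1 : 1 ≤ Real.log T := by
    have : 0 ≤ 3 * (κ / Real.pi) * 1 / ε := by positivity
    linarith
  have hl0 : 0 < Real.log T := by linarith
  refine le_trans ?_ (e1.trans (zc_mono _ ?_))
  · apply ENNReal.ofReal_le_ofReal
    rw [hlog]
    have g1 : (κ / Real.pi - ε / 2) * (1 - δ) ≥ κ / Real.pi - 2 / 3 * ε := by
      rw [hδ]
      nlinarith
    have g2 : 0 ≤ Real.log (1 - δ) + Real.log T := by linarith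
    have g3 : (κ / Real.pi - 2 / 3 * ε) * (Real.log T - 1) ≥ (κ / Real.pi - ε) * Real.log T := by
      have h4 : 3 * (κ / Real.pi) * 1 / ε ≤ Real.log T := by linarith
      rw [div_le_iff₀ hε] at h4
      nlinarith
    have g4 : 0 ≤ κ / Real.pi - 2 / 3 * ε := by linarith
    calc (κ / Real.pi - ε) * T * Real.log T = T * ((κ / Real.pi - ε) * Real.log T) := by ring
      _ ≤ T * ((κ / Real.pi - 2 / 3 * ε) * (Real.log T - 1)) :=
          mul_le_mul_of_nonneg_left g3 hT0.le
      _ ≤ T * ((κ / Real.pi - 2 / 3 * ε) * (Real.log (1 - δ) + Real.log T)) := by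
          gcongr
          linarith
      _ ≤ T * (((κ / Real.pi - ε / 2) * (1 - δ)) * (Real.log (1 - δ) + Real.log T)) := by
          gcongr
      _ = _ := by ring
  · rintro z ⟨a1, a2⟩
    rw [hlog] at a2
    have h5 : κ * μ * (Real.log (1 - δ) + Real.log T) ≤ κ * μ * Real.log T := by
      gcongr
      linarith
    have h6 : κ * μ * Real.log T ≤ δ * T := by
      calc κ * μ * Real.log T ≤ κ * μ * (δ / (κ * μ) * T) := by gcongr
        _ = δ * T := by field_simp
    refine ⟨(Complex.norm_le_abs_re_add_abs_im _).trans ?_, a2.trans h5⟩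
    linarith

theorem geom_aux {ρ : ℝ} (hρ : 1 < ρ) (m : ℕ) :
    (ρ - 1) * ∑ j ∈ Finset.Icc 1 m, 1 / ρ ^ j = 1 - 1 / ρ ^ m := by
  induction m with
  | zero => simp
  | succ m ih =>
    rw [Finset.sum_Icc_succ_top (by omega), mul_add, ih, pow_succ]
    have : ρ ≠ 0 := by linarith
    field_simp
    ring

/-- **The upper bound for the number of zeros in a disc.** -/
theorem ball_upper {μ ε : ℝ} (hμ : 0 < μ) (hε : 0 < ε) :
    ∀ᶠ T : ℝ in atTop, zc (XiM μ) (closedBall 0 T) ≤
      ENNReal.ofReal ((1 / Real.pi + ε) * T * Real.log T) := by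
  have hpi := Real.pi_gt_three
  have hpi0 := Real.pi_pos
  obtain ⟨δ, hδ0, hδ1, hδ2⟩ : ∃ δ : ℝ, 0 < δ ∧ δ ≤ 1 / 8 ∧ 13 * δ ≤ ε := by
    refine ⟨min (1 / 8) (ε / 13), lt_min (by norm_num) (by positivity), min_le_left _ _, ?_⟩
    have : min (1 / 8) (ε / 13) ≤ ε / 13 := min_le_right _ _
    linarith
  obtain ⟨ρ, hρ⟩ : ∃ ρ : ℝ, ρ = 1 + δ := ⟨_, rfl⟩
  have hρ1 : 1 < ρ := by rw [hρ]; linarith
  have hlρ : 0 < Real.log ρ := Real.log_pos hρ1
  obtain ⟨m, hm⟩ := pow_unbounded_of_one_lt (1 / δ) hρ1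
  have hm' : 1 / ρ ^ m ≤ δ := by
    rw [div_le_iff₀ (by positivity)]
    rw [div_lt_iff₀ hδ0] at hm
    linarith
  obtain ⟨κ, hκ⟩ : ∃ κ : ℝ, κ = 1 - δ := ⟨_, rfl⟩
  obtain ⟨C, hC, hSs⟩ := Ssum_upper hμ.le
  obtain ⟨C₂, hC₂⟩ : ∃ C₂, C₂ = C + m * Real.log ρ := ⟨_, rfl⟩
  have hC₂0 : 0 ≤ C₂ := by rw [hC₂]; positivity
  have hκπ : 1 / 8 ≤ κ / Real.pi - δ := by
    have h1 : 1 / 4 ≤ κ / Real.pi := by
      rw [le_div_iff₀ hpi0, hκ]
      have := Real.pi_lt_d2
      linarith
    linarith
  -- the lower bounds on the small discs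
  have hlow : ∀ j ∈ Finset.Icc 1 m, ∀ᶠ R : ℝ in atTop,
      ENNReal.ofReal ((κ / Real.pi - δ) * (R / ρ ^ j) * Real.log (R / ρ ^ j)) ≤
        zc (XiM μ) {z | ‖z‖ ≤ R / ρ ^ j ∧ |z.im| ≤ κ * μ * Real.log (R / ρ ^ j)} := by
    intro j _
    have h1 : Tendsto (fun R : ℝ => R / ρ ^ j) atTop atTop :=
      tendsto_id.atTop_div_const (by positivity)
    exact h1.eventually (disc_strip_lower hμ (by rw [hκ]; linarith) hδ0)
  have hlow' := (Finset.eventually_all (Finset.Icc 1 m)).2 hlow
  -- the exceptional zeros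
  have hexc : ∀ᶠ R : ℝ in atTop,
      zc (XiM μ) {z | ‖z‖ ≤ R / Real.exp 1 ∧ κ * μ * Real.log R < |z.im|} ≤
        ENNReal.ofReal (2 * δ * R * Real.log R + C₂ * R) := by
    filter_upwards [hlow', eventually_ge_atTop 1, ev_log (m * Real.log ρ)] with R e1 e2 e3
    have hR0 : 0 < R := by linarith
    have hlR : 0 ≤ Real.log R := Real.log_nonneg e2
    have hκ0 : 0 ≤ κ := by rw [hκ]; linarith
    have h1 := ball_sum (differentiable_XiM hμ.le) (XiM_zero_ne hμ.le) (R := R) (ρ := ρ)
      (H := κ * μ * Real.log R) m hR0 hρ1 (by positivity)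
      (fun j => κ * μ * Real.log (R / ρ ^ j)) (fun j => by
        have h2 : Real.log (R / ρ ^ j) ≤ Real.log R := by
          apply Real.log_le_log (by positivity)
          exact div_le_self hR0.le (one_le_pow₀ hρ1.le)
        gcongr)
    have h2 : ENNReal.ofReal ((κ / Real.pi - δ) * (1 - 2 * δ) * R *
        (Real.log R - m * Real.log ρ)) ≤ ENNReal.ofReal (Real.log ρ) *
        ∑ j ∈ Finset.Icc 1 m, zc (XiM μ) {z | ‖z‖ ≤ R / ρ ^ j ∧
          |z.im| ≤ κ * μ * Real.log (R / ρ ^ j)} := by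
      have hjlog : ∀ j ∈ Finset.Icc 1 m, Real.log R - m * Real.log ρ ≤ Real.log (R / ρ ^ j) := by
        intro j hj
        rw [Finset.mem_Icc] at hj
        rw [Real.log_div hR0.ne' (by positivity), Real.log_pow]
        have : (j : ℝ) * Real.log ρ ≤ m * Real.log ρ := by
          gcongr
          exact hj.2
        linarith
      have h3 : ∑ j ∈ Finset.Icc 1 m, ENNReal.ofReal ((κ / Real.pi - δ) * (R / ρ ^ j) *
          (Real.log R - m * Real.log ρ)) ≤ ∑ j ∈ Finset.Icc 1 m, zc (XiM μ) {z | ‖z‖ ≤ R / ρ ^ j ∧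
          |z.im| ≤ κ * μ * Real.log (R / ρ ^ j)} := by
        refine Finset.sum_le_sum fun j hj => ?_
        refine le_trans (ENNReal.ofReal_le_ofReal ?_) (e1 j hj)
        have h4 : 0 ≤ (κ / Real.pi - δ) * (R / ρ ^ j) := by
          have : 0 ≤ κ / Real.pi - δ := by linarith
          positivity
        exact mul_le_mul_of_nonneg_left (hjlog j hj) h4
      refine le_trans ?_ (mul_le_mul' le_rfl h3)
      have hmR : 0 ≤ Real.log R - m * Real.log ρ := by linarith
      have hκδ : 0 ≤ κ / Real.pi - δ := by linarith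
      rw [← ENNReal.ofReal_sum_of_nonneg (fun j _ => by positivity),
        ← ENNReal.ofReal_mul hlρ.le]
      apply ENNReal.ofReal_le_ofReal
      have h5 : ∑ j ∈ Finset.Icc 1 m, (κ / Real.pi - δ) * (R / ρ ^ j) *
          (Real.log R - m * Real.log ρ) = ((κ / Real.pi - δ) * R *
          (Real.log R - m * Real.log ρ)) * ∑ j ∈ Finset.Icc 1 m, 1 / ρ ^ j := by
        rw [Finset.mul_sum]
        refine Finset.sum_congr rfl fun j _ => ?_
        ring
      rw [h5]
      have h6 := geom_aux hρ1 m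
      have h7 : 1 - 2 * δ ≤ Real.log ρ * ∑ j ∈ Finset.Icc 1 m, 1 / ρ ^ j := by
        have h8 : 1 - 1 / ρ ≤ Real.log ρ := by
          have := Real.one_sub_inv_le_log_of_pos (show 0 < ρ by linarith)
          rwa [one_div]
        have h9 : (1 - 1 / ρ) = (ρ - 1) / ρ := by
          have : ρ ≠ 0 := by linarith
          field_simp
        have h10 : 0 ≤ ∑ j ∈ Finset.Icc 1 m, 1 / ρ ^ j :=
          Finset.sum_nonneg fun j _ => by positivity
        have h11 := mul_le_mul_of_nonneg_right h8 h10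
        rw [h9, div_mul_eq_mul_div, h6] at h11
        refine le_trans ?_ h11
        rw [le_div_iff₀ (by linarith)]
        rw [hρ]
        rw [hρ] at hm'
        nlinarith
      calc (κ / Real.pi - δ) * (1 - 2 * δ) * R * (Real.log R - m * Real.log ρ) =
          ((κ / Real.pi - δ) * R * (Real.log R - m * Real.log ρ)) * (1 - 2 * δ) := by ring
        _ ≤ ((κ / Real.pi - δ) * R * (Real.log R - m * Real.log ρ)) *
            (Real.log ρ * ∑ j ∈ Finset.Icc 1 m, 1 / ρ ^ j) := by gcongr
        _ = _ := by ring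
    have h3 : zc (XiM μ) {z | ‖z‖ ≤ R / Real.exp 1 ∧ κ * μ * Real.log R < |z.im|} +
        ENNReal.ofReal ((κ / Real.pi - δ) * (1 - 2 * δ) * R * (Real.log R - m * Real.log ρ)) ≤
        ENNReal.ofReal (2 * δ * R * Real.log R + C₂ * R) +
        ENNReal.ofReal ((κ / Real.pi - δ) * (1 - 2 * δ) * R * (Real.log R - m * Real.log ρ)) := by
      refine (add_le_add le_rfl h2).trans (h1.trans ?_)
      have hmR : 0 ≤ Real.log R - m * Real.log ρ := by linarith
      have hκδ : 0 ≤ κ / Real.pi - δ := by linarith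
      have h2δ : 0 ≤ 1 - 2 * δ := by linarith
      rw [← ENNReal.ofReal_add (by positivity) (by positivity)]
      apply ENNReal.ofReal_le_ofReal
      refine (hSs R e2).trans ?_
      rw [hC₂]
      have g1 : 1 / Real.pi - 2 * δ ≤ (κ / Real.pi - δ) * (1 - 2 * δ) := by
        have g2 : κ / Real.pi = 1 / Real.pi - δ / Real.pi := by rw [hκ]; ring
        have g3 : δ / Real.pi ≤ δ / 3 := by gcongr
        have g4 : 1 / Real.pi ≤ 1 / 3 := by gcongr
        have g5 : 0 ≤ 1 / Real.pi := by positivity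
        rw [g2]
        have g6 : 0 ≤ δ / Real.pi := by positivity
        nlinarith
      have g7 : (κ / Real.pi - δ) * (1 - 2 * δ) ≤ 1 := by
        have g3 : κ / Real.pi - δ ≤ 1 := by
          have : κ / Real.pi ≤ 1 := by
            rw [div_le_one hpi0, hκ]
            linarith
          linarith
        have g4 : 1 - 2 * δ ≤ 1 := by linarith
        calc _ ≤ 1 * 1 := mul_le_mul g3 g4 h2δ zero_le_one
          _ = 1 := one_mul 1
      have g8 := mul_le_mul_of_nonneg_right g1 (show 0 ≤ R * Real.log R by positivity)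
      have g9 := mul_le_mul_of_nonneg_right g7 (show 0 ≤ R * (m * Real.log ρ) by positivity)
      have g10 : R / Real.pi * Real.log R = 1 / Real.pi * (R * Real.log R) := by ring
      rw [g10]
      linarith
    exact (ENNReal.add_le_add_iff_right ENNReal.ofReal_ne_top).1 h3
  -- all zeros
  have htex : Tendsto (fun T : ℝ => Real.exp 1 * T) atTop atTop :=
    tendsto_id.const_mul_atTop (Real.exp_pos 1)
  filter_upwards [htex.eventually hexc, strip_upper (κ := 1 - δ / 2) hμ (by linarith) (by linarith)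
    hδ0, eventually_ge_atTop 1, ev_log (2 / δ + (3 * C₂ + 6 * δ) / δ)] with T e1 e2 e3 e4
  have hT0 : 0 < T := by linarith
  have hq1 : 0 ≤ 2 / δ := by positivity
  have hq2 : 0 ≤ (3 * C₂ + 6 * δ) / δ := by positivity
  have hl0 : 0 ≤ Real.log T := by linarith
  have e5 : 2 / δ ≤ Real.log T := by linarith
  have e6 : (3 * C₂ + 6 * δ) / δ ≤ Real.log T := by linarith
  rw [div_le_iff₀ hδ0] at e5 e6
  have hlog : Real.log (Real.exp 1 * T) = 1 + Real.log T := by
    rw [Real.log_mul (Real.exp_pos 1).ne' hT0.ne', Real.log_exp]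
  rw [hlog, mul_div_cancel_left₀ _ (Real.exp_pos 1).ne'] at e1
  have hexp : Real.exp 1 ≤ 2.7182818286 := Real.exp_one_lt_d9.le
  calc zc (XiM μ) (closedBall 0 T) ≤
      zc (XiM μ) ({z | |z.re| ≤ T ∧ |z.im| ≤ (1 - δ / 2) * μ * Real.log T} ∪
        {z | ‖z‖ ≤ T ∧ κ * μ * (1 + Real.log T) < |z.im|}) := by
        apply zc_mono
        intro z hz
        rw [mem_closedBall, dist_zero_right] at hz
        rcases le_or_gt |z.im| (κ * μ * (1 + Real.log T)) with h5 | h5
        · refine Or.inl ⟨(Complex.abs_re_le_norm z).trans hz, h5.trans ?_⟩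
          have h6 : κ * (1 + Real.log T) ≤ (1 - δ / 2) * Real.log T := by
            rw [hκ]
            nlinarith
          have h7 := mul_le_mul_of_nonneg_right h6 hμ.le
          linarith
        · exact Or.inr ⟨hz, h5⟩
    _ ≤ zc (XiM μ) {z | |z.re| ≤ T ∧ |z.im| ≤ (1 - δ / 2) * μ * Real.log T} +
        zc (XiM μ) {z | ‖z‖ ≤ T ∧ κ * μ * (1 + Real.log T) < |z.im|} := zc_union_le _ _ _
    _ ≤ ENNReal.ofReal (((1 - δ / 2) / Real.pi + δ) * T * Real.log T) +
        ENNReal.ofReal (2 * δ * (Real.exp 1 * T) * (1 + Real.log T) + C₂ * (Real.exp 1 * T)) :=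
        add_le_add e2 e1
    _ ≤ _ := by
        have hδ2' : 0 ≤ 1 - δ / 2 := by linarith
        rw [← ENNReal.ofReal_add (by positivity) (by positivity)]
        apply ENNReal.ofReal_le_ofReal
        have g1 : ((1 - δ / 2) / Real.pi + δ) * T * Real.log T ≤
            (1 / Real.pi + δ) * T * Real.log T := by
          gcongr
          linarith
        have g2 : 2 * δ * (Real.exp 1 * T) * (1 + Real.log T) + C₂ * (Real.exp 1 * T) ≤
            2 * δ * (3 * T) * (1 + Real.log T) + C₂ * (3 * T) := by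
          gcongr <;> linarith
        have g3 : (6 * δ + 3 * C₂) * T ≤ (Real.log T * δ) * T := by
          gcongr
          linarith
        have g4 : 13 * δ * (T * Real.log T) ≤ ε * (T * Real.log T) := by
          gcongr
        have g5 : 0 ≤ δ * (T * Real.log T) := by positivity
        nlinarith

end Pool.Agent.T6.H61.KK
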