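import Pool.Agent.T6.H61.KK.UAvg

set_option autoImplicit false

/-!
# The integral of the defect of `Ξ_{-μ}` over dyadic rectangles is small
-/

namespace Pool.Agent.T6.H61.KK

open Complex MeasureTheory Filter Topology Metric Pool.Agent.Helper242.KK Pool.Agent.Y971.KK

/-- the integral of the defect over a disc near a good point -/
theorem disc_good' {μ K t a y R R' : ℝ} {c : ℂ} (hμ : 0 < μ) (hR : 0 < R)
    (hy : 0 ≤ y) (h : Real.exp (-t) < ‖fa μ a y‖ * Real.exp (Real.pi / 4 * |y|))
    (hb : ball c R' ⊆ ball ((y : ℂ) + a * I) R)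
    (hn : ∀ z ∈ closedBall ((y : ℂ) + a * I) R, 0 ≤ dfc (FX μ) μ K z) :
    ∫⁻ z in ball c R', Dfc (FX μ) μ K z ≤
      ENNReal.ofReal (Real.pi * R ^ 2 * (K + t + R ^ 2 / (16 * μ))) := by
  obtain ⟨h1, h2⟩ := dfc_good (K := K) hy h
  have h3 := lint_disc (differentiable_FX hμ.le) hμ hR h1 hn
  refine (lintegral_mono_set hb).trans (h3.trans ?_)
  apply ENNReal.ofReal_le_ofReal
  apply mul_le_mul_of_nonneg_left _ (by positivity)
  linarith

/-- one horizontal line -/
theorem line_bound {G : ℝ → ENNReal} {T ε good bad : ℝ} {B : Set ℝ} (hT : 0 ≤ T)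
    (hg0 : 0 ≤ good) (hb0 : 0 ≤ bad)
    (hε : 0 ≤ ε) (hB : volume B ≤ ENNReal.ofReal (ε * T))
    (h1 : ∀ x ∈ Set.Icc T (2 * T), x ∉ B → G x ≤ ENNReal.ofReal good)
    (h2 : ∀ x ∈ Set.Icc T (2 * T), G x ≤ ENNReal.ofReal bad) :
    ∫⁻ x in Set.Icc T (2 * T), G x ≤ ENNReal.ofReal ((good + ε * bad) * T) := by
  have h3 : ∀ x ∈ Set.Icc T (2 * T), G x ≤ ENNReal.ofReal good +
      (toMeasurable volume B).indicator (fun _ => ENNReal.ofReal bad) x := by
    intro x hx
    by_cases hxB : x ∈ B
    · rw [Set.indicator_of_mem (subset_toMeasurable volume B hxB)]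
      exact (h2 x hx).trans le_add_self
    · exact (h1 x hx hxB).trans le_self_add
  calc ∫⁻ x in Set.Icc T (2 * T), G x ≤ ∫⁻ x in Set.Icc T (2 * T), (ENNReal.ofReal good +
      (toMeasurable volume B).indicator (fun _ => ENNReal.ofReal bad) x) :=
        setLIntegral_mono' measurableSet_Icc h3
    _ = ENNReal.ofReal good * volume (Set.Icc T (2 * T)) +
        ENNReal.ofReal bad * (volume.restrict (Set.Icc T (2 * T))) (toMeasurable volume B) := by
        rw [lintegral_add_left measurable_const, setLIntegral_const,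
          lintegral_indicator_const (measurableSet_toMeasurable _ _)]
    _ ≤ ENNReal.ofReal good * ENNReal.ofReal T + ENNReal.ofReal bad * ENNReal.ofReal (ε * T) := by
        have e1 : volume (Set.Icc T (2 * T)) = ENNReal.ofReal T := by
          rw [Real.volume_Icc]; congr 1; ring
        rw [e1]
        have e2 : (volume.restrict (Set.Icc T (2 * T))) (toMeasurable volume B) ≤
            ENNReal.ofReal (ε * T) := by
          refine (Measure.restrict_apply_le _ _).trans ?_
          rw [measure_toMeasurable]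
          exact hB
        gcongr
    _ = _ := by
        rw [← ENNReal.ofReal_mul hg0, ← ENNReal.ofReal_mul hb0,
          ← ENNReal.ofReal_add (by positivity) (by positivity)]
        congr 1
        ring

/-- **The integral of the defect over a dyadic rectangle.** -/
theorem defect_dyadic {μ κ η : ℝ} (hμ : 0 < μ) (hκ0 : 0 ≤ κ) (hκ : κ < 1) (hη : 0 < η) :
    ∃ T₀ : ℝ, ∀ T : ℝ, T₀ ≤ T →
      ∫⁻ z in sbox T (2 * T) (κ * μ * Real.log T), Dfc (FX μ) μ (4 * Real.log T) z ≤
        ENNReal.ofReal (η * T * Real.log T ^ 3) := by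
  -- the parameter `q`
  obtain ⟨q, hq0, hq1, hq2, hq3⟩ : ∃ q : ℝ, 0 < q ∧ q ≤ 1 / 40 ∧ κ / 2 + 11 * q < 1 / 2 ∧
      6000 * q ^ 2 * μ ^ 2 ≤ η := by
    have hs : 0 < Real.sqrt η := Real.sqrt_pos.2 hη
    refine ⟨min (min (1 / 40) ((1 - κ) / 44)) (Real.sqrt η / (78 * μ)), ?_, ?_, ?_, ?_⟩
    · refine lt_min (lt_min (by norm_num) ?_) (by positivity)
      have : 0 < 1 - κ := by linarith
      positivity
    · exact (min_le_left _ _).trans (min_le_left _ _)
    · have h1 : min (min (1 / 40) ((1 - κ) / 44)) (Real.sqrt η / (78 * μ)) ≤ (1 - κ) / 44 :=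
        (min_le_left _ _).trans (min_le_right _ _)
      linarith
    · have h1 : min (min (1 / 40) ((1 - κ) / 44)) (Real.sqrt η / (78 * μ)) ≤
        Real.sqrt η / (78 * μ) := min_le_right _ _
      have h0 : 0 ≤ min (min (1 / 40) ((1 - κ) / 44)) (Real.sqrt η / (78 * μ)) := by
        refine le_min (le_min (by norm_num) ?_) (by positivity)
        have : 0 < 1 - κ := by linarith
        positivity
      have h2 := pow_le_pow_left₀ h0 h1 2
      have h3 : (Real.sqrt η / (78 * μ)) ^ 2 * (6084 * μ ^ 2) = η := by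
        rw [div_pow, Real.sq_sqrt hη.le]
        field_simp
        ring
      have h4 := mul_le_mul_of_nonneg_right h2 (show 0 ≤ 6000 * μ ^ 2 by positivity)
      have h5 : (Real.sqrt η / (78 * μ)) ^ 2 * (6000 * μ ^ 2) ≤
          (Real.sqrt η / (78 * μ)) ^ 2 * (6084 * μ ^ 2) := by
        apply mul_le_mul_of_nonneg_left _ (by positivity)
        nlinarith [sq_nonneg μ]
      linarith
  -- the lines
  obtain ⟨J, hJ⟩ : ∃ J : ℕ, J = ⌈κ / (10 * q)⌉₊ + 1 := ⟨_, rfl⟩
  have hJle : (J : ℝ) ≤ κ / (10 * q) + 2 := by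
    rw [hJ]
    push_cast
    have := (Nat.ceil_lt_add_one (show 0 ≤ κ / (10 * q) by positivity)).le
    linarith
  have hJge : κ / (10 * q) + 1 ≤ J := by
    rw [hJ]
    push_cast
    have := Nat.le_ceil (κ / (10 * q))
    linarith
  have hJq : 10 * q * J ≤ κ + 20 * q := by
    calc 10 * q * J ≤ 10 * q * (κ / (10 * q) + 2) := mul_le_mul_of_nonneg_left hJle (by positivity)
      _ = κ + 20 * q := by field_simp; ring
  set s : Finset ℤ := Finset.Icc (-(J : ℤ)) J with hs
  have hcard : (s.card : ℝ) ≤ 1 / (3 * q) := by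
    rw [hs, Int.card_Icc]
    have h1 : ((J : ℤ) + 1 - -(J : ℤ)).toNat = 2 * J + 1 := by omega
    rw [h1, le_div_iff₀ (by positivity)]
    push_cast
    nlinarith
  have hjs : ∀ j ∈ s, |(j : ℝ)| ≤ J := by
    intro j hj
    rw [hs, Finset.mem_Icc] at hj
    rw [abs_le]
    constructor
    · exact_mod_cast hj.1
    · exact_mod_cast hj.2
  have hsj : ∀ j ∈ s, 10 * q * |(j : ℝ)| ≤ κ + 20 * q := by
    intro j hj
    exact (mul_le_mul_of_nonneg_left (hjs j hj) (by positivity)).trans hJq
  -- the bad sets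
  have hbad : ∀ j ∈ s, ∀ᶠ T : ℝ in atTop,
      volume {x : ℝ | x ∈ Set.Icc T (2 * T) ∧ ∀ y : ℝ, |y - x| ≤ 15 / 2 * q * μ * Real.log T →
        ‖fa μ (-(10 * q * |(j : ℝ)| * μ * Real.log T)) y‖ * Real.exp (Real.pi / 4 * |y|) ≤
          Real.exp (-3 * q ^ 2 * μ * Real.log T ^ 2)} ≤ ENNReal.ofReal (q ^ 4 * T) := by
    intro j hj
    obtain ⟨T₀, h⟩ := bad_measure (s := 10 * q * |(j : ℝ)|) (ε := q ^ 4) hμ hq0 (by positivity)
      (by have := hsj j hj; linarith) (by positivity)
    filter_upwards [eventually_ge_atTop T₀] with T hT using h T hT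
  have hbad' := (Finset.eventually_all s).2 hbad
  -- the universal good points
  obtain ⟨C, X, hC, hX, hD⟩ := Dser_window hμ
  obtain ⟨T₁, hun⟩ := exists_good_universal' hμ hC hX (fun x => Dser_zero_lower hμ.le x) hD
  obtain ⟨T₂, hT₂1, hnn⟩ := dfc_FX_nonneg hμ
  have hlarge : ∀ᶠ T : ℝ in atTop, 10 * μ * Real.log T ≤ T / 2 := by
    have h := Real.isLittleO_log_id_atTop.bound (c := 1 / (20 * μ)) (by positivity)
    filter_upwards [h, eventually_ge_atTop 1] with T hT hT1
    have hl : 0 ≤ Real.log T := Real.log_nonneg hT1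
    simp only [id] at hT
    rw [Real.norm_eq_abs, Real.norm_eq_abs, abs_of_nonneg hl, abs_of_nonneg (by linarith)] at hT
    calc 10 * μ * Real.log T ≤ 10 * μ * (1 / (20 * μ) * T) :=
          mul_le_mul_of_nonneg_left hT (by positivity)
      _ = T / 2 := by field_simp; ring
  have hlog : ∀ᶠ T : ℝ in atTop, 4 / (q ^ 2 * μ) ≤ Real.log T :=
    Real.tendsto_log_atTop.eventually_ge_atTop _
  obtain ⟨T₀, hT₀⟩ := eventually_atTop.1 (hbad'.and (hlarge.and (hlog.and
    ((eventually_ge_atTop T₁).and ((eventually_ge_atTop T₂).and (eventually_ge_atTop 4))))))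
  refine ⟨T₀, fun T hT => ?_⟩
  obtain ⟨e1, e2, e3, e4, e5, e6⟩ := hT₀ T hT
  have hT0 : 0 < T := by linarith
  set l := Real.log T with hl
  have hl0 : 0 < l := Real.log_pos (by linarith)
  rw [div_le_iff₀ (by positivity)] at e3
  have hμl : 0 < μ * l := by positivity
  have hqμl : q * (μ * l) ≤ 1 / 40 * (μ * l) := mul_le_mul_of_nonneg_right hq1 hμl.le
  -- the averages
  have havg := avg_cover (φ := Dfc (FX μ) μ (4 * l))
    ((measurable_dfc (differentiable_FX hμ.le) μ (4 * l)).ennreal_ofReal)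
    (T := T) (L := 10 * q * μ * l) (H := κ * μ * l) (by positivity) (by linarith) s
    (fun j => 10 * q * μ * l * j) (by
      rintro z ⟨hz1, hz2, hz3⟩
      have hL0 : 0 < 10 * q * μ * l := by positivity
      refine ⟨⌊z.im / (10 * q * μ * l)⌋, ?_, ?_⟩
      · have h1 : |z.im / (10 * q * μ * l)| ≤ κ / (10 * q) := by
          rw [abs_div, abs_of_pos hL0, div_le_iff₀ hL0]
          calc |z.im| ≤ κ * μ * l := hz1
            _ = _ := by field_simp
        rw [abs_le] at h1
        rw [hs, Finset.mem_Icc]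
        constructor
        · rw [Int.le_floor]
          push_cast
          linarith
        · have h2 := Int.floor_le (z.im / (10 * q * μ * l))
          have h3 : ((⌊z.im / (10 * q * μ * l)⌋ : ℤ) : ℝ) ≤ ((J : ℤ) : ℝ) := by
            push_cast
            linarith
          exact_mod_cast h3
      · have h2 := Int.floor_le (z.im / (10 * q * μ * l))
        have h3 := (Int.lt_floor_add_one (z.im / (10 * q * μ * l))).le
        rw [le_div_iff₀ hL0] at h2
        rw [div_le_iff₀ hL0] at h3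
        rw [abs_le]
        constructor
        · nlinarith
        · nlinarith)
  -- each line
  obtain ⟨good, hgood⟩ : ∃ good, good = Real.pi * (30 * q * μ * l) ^ 2 *
    (4 * l + 3 * q ^ 2 * μ * l ^ 2 + (30 * q * μ * l) ^ 2 / (16 * μ)) := ⟨_, rfl⟩
  obtain ⟨bad, hbd⟩ : ∃ bad, bad = Real.pi * (4 * μ * l) ^ 2 *
    (4 * l + 11 / 20 * μ * l ^ 2 + (4 * μ * l) ^ 2 / (16 * μ)) := ⟨_, rfl⟩
  have hg0 : 0 ≤ good := by rw [hgood]; positivity
  have hb0 : 0 ≤ bad := by rw [hbd]; positivity
  have hline : ∀ j ∈ s, ∫⁻ x in Set.Icc T (2 * T),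
      ∫⁻ z in ball ((x : ℂ) + ((10 * q * μ * l * j : ℝ) : ℂ) * I) (2 * (10 * q * μ * l)),
        Dfc (FX μ) μ (4 * l) z ≤ ENNReal.ofReal ((good + q ^ 4 * bad) * T) := by
    intro j hj
    have haj : |10 * q * μ * l * (j : ℝ)| ≤ μ * l := by
      rw [abs_mul, abs_of_pos (by positivity)]
      calc 10 * q * μ * l * |(j : ℝ)| = (10 * q * |(j : ℝ)|) * (μ * l) := by ring
        _ ≤ 1 * (μ * l) := mul_le_mul_of_nonneg_right (by have := hsj j hj; linarith) hμl.le
        _ = μ * l := one_mul _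
    have habs : ∀ y : ℝ, ‖fa μ (10 * q * μ * l * j) y‖ =
        ‖fa μ (-(10 * q * |(j : ℝ)| * μ * l)) y‖ := by
      intro y
      rw [norm_fa_neg]
      rcases abs_choice (j : ℝ) with h | h
      · rw [h]; congr 2; ring
      · rw [h, ← norm_fa_neg]; congr 2; ring
    refine line_bound hT0.le hg0 hb0 (by positivity) (e1 j hj) ?_ ?_
    · intro x hx hxB
      have h1 : ∃ y : ℝ, |y - x| ≤ 15 / 2 * q * μ * l ∧
          Real.exp (-3 * q ^ 2 * μ * l ^ 2) <
            ‖fa μ (-(10 * q * |(j : ℝ)| * μ * l)) y‖ * Real.exp (Real.pi / 4 * |y|) := by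
        by_contra hcon
        push Not at hcon
        exact hxB ⟨hx, hcon⟩
      obtain ⟨y, hy1, hy2⟩ := h1
      rw [← habs, show -3 * q ^ 2 * μ * l ^ 2 = -(3 * q ^ 2 * μ * l ^ 2) by ring] at hy2
      have hy3 := abs_le.1 hy1
      have hyT : T / 2 ≤ y := by linarith [hx.1, hy3.1]
      rw [hgood]
      refine disc_good (x := x) (y := y) hμ (by positivity) (by positivity) (by positivity)
        (by positivity) (by linarith) hy2 ?_ ?_
      · linarith
      · intro z hz
        rw [mem_closedBall, dist_eq_norm] at hz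
        have h2 := (Complex.abs_re_le_norm _).trans hz
        rw [abs_le] at h2
        simp only [Complex.sub_re, Complex.add_re, Complex.ofReal_re, Complex.mul_re,
          Complex.I_re, mul_zero, Complex.ofReal_im, Complex.I_im, mul_one, sub_self,
          add_zero] at h2
        refine hnn T e5 z ?_ ?_
        · linarith [hx.1, hy3.1]
        · linarith [hx.2, hy3.2]
    · intro x hx
      obtain ⟨y, hy1, hy2⟩ := hun T x e4 hx.1 (by linarith [hx.2])
      have hy3 := abs_le.1 hy1
      have hfa0 : ‖fa μ 0 y‖ = ‖XiM μ y‖ := by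
        rw [norm_fa]
        simp
      rw [← hfa0, show -(11 / 20) * μ * Real.log T ^ 2 = -(11 / 20 * μ * l ^ 2) by rw [hl]; ring]
        at hy2
      rw [hbd]
      refine disc_good' (y := y) hμ (by positivity) (by linarith [hx.1]) hy2 ?_ ?_
      · apply ball_subset_ball'
        rw [dist_eq_norm]
        have h5 : ((x : ℂ) + ((10 * q * μ * l * j : ℝ) : ℂ) * I) - (y + ((0:ℝ) : ℂ) * I) =
            ((x - y : ℝ) : ℂ) + ((10 * q * μ * l * j : ℝ) : ℂ) * I := by
          rw [Complex.ofReal_sub, Complex.ofReal_zero]; ring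
        rw [h5]
        refine (add_le_add le_rfl (norm_add_le _ _)).trans ?_
        rw [norm_mul, Complex.norm_real, Complex.norm_real, Complex.norm_I, mul_one,
          Real.norm_eq_abs, Real.norm_eq_abs, abs_sub_comm]
        linarith
      · intro z hz
        rw [mem_closedBall, dist_eq_norm] at hz
        have h2 := (Complex.abs_re_le_norm _).trans hz
        rw [abs_le] at h2
        simp only [Complex.sub_re, Complex.add_re, Complex.ofReal_re, Complex.mul_re,
          Complex.I_re, mul_zero, Complex.ofReal_im, Complex.I_im, mul_one, sub_self,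
          add_zero] at h2
        refine hnn T e5 z ?_ ?_
        · linarith [hx.1, hy3.1]
        · linarith [hx.2, hy3.2]
  -- the sum
  have hsum : ENNReal.ofReal (10 * q * μ * l) *
      ∫⁻ z in sbox T (2 * T) (κ * μ * l), Dfc (FX μ) μ (4 * l) z ≤
      ENNReal.ofReal (1 / (3 * q) * ((good + q ^ 4 * bad) * T)) := by
    refine havg.trans ((Finset.sum_le_sum hline).trans ?_)
    rw [Finset.sum_const, nsmul_eq_mul, ← ENNReal.ofReal_natCast, 
      ← ENNReal.ofReal_mul (Nat.cast_nonneg _)]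
    apply ENNReal.ofReal_le_ofReal
    apply mul_le_mul_of_nonneg_right hcard
    positivity
  have hfin : 1 / (3 * q) * ((good + q ^ 4 * bad) * T) ≤
      (10 * q * μ * l) * (η * T * l ^ 3) := by
    have hl2 : 4 * l ≤ q ^ 2 * μ * l ^ 2 := by
      have := mul_le_mul_of_nonneg_right e3 hl0.le
      linarith
    have hpi := Real.pi_lt_d4
    have hpi0 := Real.pi_pos
    have hg1 : good ≤ 170800 * (q ^ 4 * μ ^ 3 * l ^ 4) := by
      have h1 : 4 * l + 3 * q ^ 2 * μ * l ^ 2 + (30 * q * μ * l) ^ 2 / (16 * μ) ≤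
          241 / 4 * (q ^ 2 * μ * l ^ 2) := by
        have h2 : (30 * q * μ * l) ^ 2 / (16 * μ) = 225 / 4 * (q ^ 2 * μ * l ^ 2) := by
          field_simp
          ring
        rw [h2]
        linarith
      calc good ≤ Real.pi * (30 * q * μ * l) ^ 2 * (241 / 4 * (q ^ 2 * μ * l ^ 2)) := by
            rw [hgood]
            apply mul_le_mul_of_nonneg_left h1 (by positivity)
        _ = Real.pi * (54225 * (q ^ 4 * μ ^ 3 * l ^ 4)) := by ring
        _ ≤ 3.1498 * (54225 * (q ^ 4 * μ ^ 3 * l ^ 4)) := by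
            apply mul_le_mul_of_nonneg_right _ (by positivity)
            linarith
        _ ≤ _ := by
            have : 0 ≤ q ^ 4 * μ ^ 3 * l ^ 4 := by positivity
            linarith
    have hb1 : bad ≤ 130 * (μ ^ 3 * l ^ 4) := by
      have hq2 : q ^ 2 ≤ 1 := by nlinarith
      have h3 : q ^ 2 * μ * l ^ 2 ≤ μ * l ^ 2 := by
        have := mul_le_mul_of_nonneg_right hq2 (show 0 ≤ μ * l ^ 2 by positivity)
        linarith
      have h1 : 4 * l + 11 / 20 * μ * l ^ 2 + (4 * μ * l) ^ 2 / (16 * μ) ≤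
          51 / 20 * (μ * l ^ 2) := by
        have h2 : (4 * μ * l) ^ 2 / (16 * μ) = μ * l ^ 2 := by
          field_simp
          ring
        rw [h2]
        linarith
      calc bad ≤ Real.pi * (4 * μ * l) ^ 2 * (51 / 20 * (μ * l ^ 2)) := by
            rw [hbd]
            apply mul_le_mul_of_nonneg_left h1 (by positivity)
        _ = Real.pi * (204 / 5 * (μ ^ 3 * l ^ 4)) := by ring
        _ ≤ 3.15 * (204 / 5 * (μ ^ 3 * l ^ 4)) := by
            apply mul_le_mul_of_nonneg_right _ (by positivity)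
            linarith
        _ ≤ _ := by
            have : 0 ≤ μ ^ 3 * l ^ 4 := by positivity
            linarith
    have h4 : good + q ^ 4 * bad ≤ 171000 * (q ^ 4 * μ ^ 3 * l ^ 4) := by
      have h5 := mul_le_mul_of_nonneg_left hb1 (show 0 ≤ q ^ 4 by positivity)
      have : 0 ≤ q ^ 4 * μ ^ 3 * l ^ 4 := by positivity
      linarith
    have h6 : 1 / (3 * q) * ((good + q ^ 4 * bad) * T) ≤
        1 / (3 * q) * ((171000 * (q ^ 4 * μ ^ 3 * l ^ 4)) * T) := by gcongr
    refine h6.trans ?_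
    have h7 : 1 / (3 * q) * ((171000 * (q ^ 4 * μ ^ 3 * l ^ 4)) * T) =
        (10 * q * μ * l) * ((5700 * q ^ 2 * μ ^ 2) * T * l ^ 3) := by
      field_simp
      ring
    rw [h7]
    apply mul_le_mul_of_nonneg_left _ (by positivity)
    have h8 : 5700 * q ^ 2 * μ ^ 2 ≤ η := by
      have : 0 ≤ q ^ 2 * μ ^ 2 := by positivity
      linarith
    gcongr
  have hall := hsum.trans (ENNReal.ofReal_le_ofReal hfin)
  rw [ENNReal.ofReal_mul (by positivity : 0 ≤ 10 * q * μ * l)] at hall
  exact (ENNReal.mul_le_mul_iff_right (by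
    rw [Ne, ENNReal.ofReal_eq_zero, not_le]; positivity) ENNReal.ofReal_ne_top).1 hall

end Pool.Agent.T6.H61.KK
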