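import Pool.Agent.Helper242.KK.ZC

set_option autoImplicit false

/-!
# Jensen's formula with a quadratic majorant, integrated over rectangles
-/

namespace Pool.Agent.T6.H61.KK

open Complex MeasureTheory Filter Topology Metric Pool.Agent.Helper242.KK Real

/-- the quadratic majorant -/
noncomputable def gq (μ K : ℝ) (z : ℂ) : ℝ := z.im ^ 2 / (4 * μ) + K

/-- the defect `g - log ‖F‖` -/
noncomputable def dfc (F : ℂ → ℂ) (μ K : ℝ) (z : ℂ) : ℝ := gq μ K z - Real.log ‖F z‖

/-- the defect as an extended nonnegative number -/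
noncomputable def Dfc (F : ℂ → ℂ) (μ K : ℝ) (z : ℂ) : ENNReal := ENNReal.ofReal (dfc F μ K z)

/-- the sum over the zeros in Jensen's formula -/
noncomputable def Ssum (F : ℂ → ℂ) (r : ℝ) (c : ℂ) : ℝ :=
  ∑ᶠ u, (MeromorphicOn.divisor F (closedBall c |r|) u : ℝ) * Real.log (r * ‖c - u‖⁻¹)

theorem continuous_gq (μ K : ℝ) : Continuous (gq μ K) := by
  unfold gq
  fun_prop

theorem circleAverage_gq (μ K : ℝ) (c : ℂ) (r : ℝ) :
    circleAverage (gq μ K) c r = gq μ K c + r ^ 2 / (8 * μ) := by
  rw [circleAverage_def]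
  have h1 : ∀ θ : ℝ, gq μ K (circleMap c r θ) =
      (c.im ^ 2 / (4 * μ) + K) + (c.im * r / (2 * μ)) * Real.sin θ +
        (r ^ 2 / (4 * μ)) * Real.sin θ ^ 2 := by
    intro θ
    unfold gq
    have : (circleMap c r θ).im = c.im + r * Real.sin θ := by
      simp [circleMap, Complex.exp_im]
    rw [this]
    rcases eq_or_ne μ 0 with h | h
    · simp [h]
    · field_simp
      ring
  simp_rw [h1]
  rw [intervalIntegral.integral_add, intervalIntegral.integral_add,
    intervalIntegral.integral_const_mul, intervalIntegral.integral_const_mul, integral_sin,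
    integral_sin_sq, intervalIntegral.integral_const]
  · simp only [smul_eq_mul, Real.sin_two_pi, Real.cos_two_pi, Real.sin_zero, Real.cos_zero, gq]
    have hpi := Real.pi_pos
    rcases eq_or_ne μ 0 with h | h
    · simp only [h]
      field_simp
      simp
      ring
    · field_simp
      ring
  · exact (continuous_const).intervalIntegrable _ _
  · exact (Real.continuous_sin.const_mul _ |>.intervalIntegrable _ _)
  · exact Continuous.intervalIntegrable (by fun_prop) _ _
  · exact Continuous.intervalIntegrable (by fun_prop) _ _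

theorem circleIntegrable_dfc {F : ℂ → ℂ} (hF : Differentiable ℂ F) (μ K : ℝ) (c : ℂ) (r : ℝ) :
    CircleIntegrable (dfc F μ K) c r := by
  unfold dfc
  refine CircleIntegrable.sub ?_ ?_
  · exact (continuous_gq μ K).continuousOn.circleIntegrable'
  · have hA : AnalyticOnNhd ℂ F (sphere c |r|) := fun x _ => hF.analyticAt x
    exact hA.meromorphicOn.circleIntegrable_log_norm

/-- Jensen's formula for the defect. -/
theorem jensen_dfc {F : ℂ → ℂ} (hF : Differentiable ℂ F) (μ K : ℝ) {c : ℂ} {r : ℝ} (hr : r ≠ 0)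
    (hc : F c ≠ 0) :
    circleAverage (dfc F μ K) c r + Ssum F r c = dfc F μ K c + r ^ 2 / (8 * μ) := by
  have hA : AnalyticOnNhd ℂ F (closedBall c |r|) := fun x _ => hF.analyticAt x
  have hS : AnalyticOnNhd ℂ F (sphere c |r|) := fun x _ => hF.analyticAt x
  have h1 : circleAverage (dfc F μ K) c r =
      circleAverage (gq μ K) c r - circleAverage (fun z => Real.log ‖F z‖) c r := by
    unfold dfc
    exact circleAverage_fun_sub ((continuous_gq μ K).continuousOn.circleIntegrable')
      hS.meromorphicOn.circleIntegrable_log_norm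
  rw [h1, circleAverage_gq, AnalyticOnNhd.circleAverage_log_norm hr hA hc]
  unfold Ssum dfc
  ring

theorem measurable_dfc {F : ℂ → ℂ} (hF : Differentiable ℂ F) (μ K : ℝ) :
    Measurable (dfc F μ K) := by
  unfold dfc
  have h1 := (continuous_gq μ K).measurable
  have h2 := hF.continuous.measurable
  fun_prop

/-- the circle average as a lower integral -/
theorem lint_circle {h : ℂ → ℝ} {c : ℂ} {r : ℝ} (hr : 0 < r) (hi : CircleIntegrable h c r)
    (hn : ∀ z ∈ sphere c r, 0 ≤ h z) :
    ∫⁻ θ in Set.Ioo (-π) π, ENNReal.ofReal (h (c + r * (Real.cos θ + Real.sin θ * I))) =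
      ENNReal.ofReal (2 * π * circleAverage h c r) := by
  have hm : ∀ θ : ℝ, c + r * (Real.cos θ + Real.sin θ * I) = circleMap c r θ := by
    intro θ
    rw [circleMap, Complex.exp_mul_I, Complex.ofReal_cos, Complex.ofReal_sin]
  simp_rw [hm]
  rw [circleAverage_def]
  have hper : Function.Periodic (fun θ => h (circleMap c r θ)) (2 * π) := by
    intro θ
    simp only
    rw [periodic_circleMap c r θ]
  have h2 : ∫ θ in (0:ℝ)..(2 * π), h (circleMap c r θ) = ∫ θ in (-π)..π, h (circleMap c r θ) := by
    have h3 := hper.intervalIntegral_add_eq 0 (-π)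
    rw [zero_add, show -π + 2 * π = π by ring] at h3
    exact h3
  have hint : IntervalIntegrable (fun θ => h (circleMap c r θ)) volume (-π) π := by
    have h3 : IntervalIntegrable (fun θ => h (circleMap c r θ)) volume 0 (0 + 2 * π) := by
      rw [zero_add]; exact hi
    have h4 := hper.intervalIntegrable (t := 0) Real.two_pi_pos.ne' h3
    exact h4 (-π) π
  rw [h2, smul_eq_mul, mul_inv_cancel_left₀ (by positivity),
    intervalIntegral.integral_of_le (by linarith [Real.pi_pos]), 
    ofReal_integral_eq_lintegral_ofReal]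
  · exact setLIntegral_congr Ioo_ae_eq_Ioc
  · exact (intervalIntegrable_iff_integrableOn_Ioc_of_le (by linarith [Real.pi_pos])).1 hint
  · refine Eventually.of_forall fun θ => ?_
    exact hn _ (circleMap_mem_sphere c hr.le θ)

/-- Jensen's formula for the defect, with lower integrals -/
theorem jensen_lint {F : ℂ → ℂ} (hF : Differentiable ℂ F) (μ K : ℝ) {c : ℂ} {r : ℝ} (hr : 0 < r)
    (hc : F c ≠ 0) (hn : ∀ z ∈ closedBall c r, 0 ≤ dfc F μ K z) (hS : 0 ≤ Ssum F r c) :
    (∫⁻ θ in Set.Ioo (-π) π, Dfc F μ K (c + r * (Real.cos θ + Real.sin θ * I))) +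
      ENNReal.ofReal (2 * π * Ssum F r c) =
      ENNReal.ofReal (2 * π * (dfc F μ K c + r ^ 2 / (8 * μ))) := by
  unfold Dfc
  rw [lint_circle hr (circleIntegrable_dfc hF μ K c r) (fun z hz => hn z (sphere_subset_closedBall hz)),
    ← jensen_dfc hF μ K hr.ne' hc, mul_add, ENNReal.ofReal_add _ (by positivity)]
  refine mul_nonneg (by positivity) (circleAverage_nonneg_of_nonneg fun z hz => ?_)
  rw [abs_of_pos hr] at hz
  exact hn z (sphere_subset_closedBall hz)

/-- the sum over the zeros is a finite sum over the zeros in a large disc -/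
theorem Ssum_eq {F : ℂ → ℂ} (hF : Differentiable ℂ F) {c : ℂ} {r B : ℝ} (hr : 0 < r)
    (hc : F c ≠ 0) (hB : closedBall c r ⊆ closedBall (0 : ℂ) B) :
    Ssum F r c = ∑ u ∈ ((MeromorphicOn.divisor F (closedBall (0 : ℂ) B)).finiteSupport
      (isCompact_closedBall 0 B)).toFinset,
      (MeromorphicOn.divisor F (closedBall (0 : ℂ) B) u : ℝ) * Real.posLog (r * ‖c - u‖⁻¹) := by
  unfold Ssum
  rw [abs_of_pos hr]
  have hA : AnalyticOnNhd ℂ F (closedBall c r) := fun x _ => hF.analyticAt x
  have hA' : AnalyticOnNhd ℂ F (closedBall 0 B) := fun x _ => hF.analyticAt x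
  set D := MeromorphicOn.divisor F (closedBall c r) with hD
  set E := MeromorphicOn.divisor F (closedBall (0 : ℂ) B) with hE
  have h1 : ∀ u, (D u : ℝ) * Real.log (r * ‖c - u‖⁻¹) = (E u : ℝ) * Real.posLog (r * ‖c - u‖⁻¹) := by
    intro u
    by_cases hu : u ∈ closedBall c r
    · have e1 : D u = E u := by
        rw [hD, hE, MeromorphicOn.AnalyticOnNhd.divisor_apply hA hu,
          MeromorphicOn.AnalyticOnNhd.divisor_apply hA' (hB hu)]
      rcases eq_or_ne u c with h | h
      · have e2 : E u = 0 := by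
          rw [hE, MeromorphicOn.AnalyticOnNhd.divisor_apply hA' (hB hu), h,
            (hF.analyticAt c).analyticOrderAt_eq_zero.2 hc]
          rfl
        rw [e1, e2]
        simp
      · have e3 : 0 < ‖c - u‖ := norm_pos_iff.2 (sub_ne_zero.2 h.symm)
        have e4 : ‖c - u‖ ≤ r := by
          rw [← dist_eq_norm, dist_comm]; exact hu
        have e5 : 1 ≤ r * ‖c - u‖⁻¹ := by
          rw [← div_eq_mul_inv, le_div_iff₀ e3]; linarith
        rw [e1, Real.posLog, max_eq_right (Real.log_nonneg e5)]
    · have e1 : D u = 0 := Function.locallyFinsuppWithin.apply_eq_zero_of_notMem D hu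
      have e4 : r < ‖c - u‖ := by
        rw [← dist_eq_norm, dist_comm]
        exact not_le.1 hu
      have e5 : Real.posLog (r * ‖c - u‖⁻¹) = 0 := by
        rw [Real.posLog, max_eq_left]
        apply Real.log_nonpos (by positivity)
        rw [← div_eq_mul_inv, div_le_one (hr.trans e4)]
        exact e4.le
      rw [e1, e5]
      simp
  simp_rw [h1]
  apply finsum_eq_sum_of_support_subset
  intro u hu
  simp only [Set.Finite.coe_toFinset, Function.mem_support, ne_eq]
  intro h
  apply hu
  simp only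
  rw [h]
  simp

theorem divisor_nonneg {F : ℂ → ℂ} (hF : Differentiable ℂ F) (U : Set ℂ) (u : ℂ) :
    (0 : ℝ) ≤ (MeromorphicOn.divisor F U u : ℝ) := by
  have hA : AnalyticOnNhd ℂ F U := fun x _ => hF.analyticAt x
  have := MeromorphicOn.AnalyticOnNhd.divisor_nonneg hA u
  exact_mod_cast this

theorem Ssum_nonneg {F : ℂ → ℂ} (hF : Differentiable ℂ F) {c : ℂ} {r : ℝ} (hr : 0 < r)
    (hc : F c ≠ 0) : 0 ≤ Ssum F r c := by
  have hB : closedBall c r ⊆ closedBall (0 : ℂ) (‖c‖ + r) := by
    intro z hz
    rw [mem_closedBall, dist_zero_right]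
    rw [mem_closedBall, dist_eq_norm] at hz
    calc ‖z‖ = ‖c + (z - c)‖ := by ring_nf
      _ ≤ ‖c‖ + ‖z - c‖ := norm_add_le _ _
      _ ≤ _ := by linarith
  rw [Ssum_eq hF hr hc hB]
  exact Finset.sum_nonneg fun u _ => mul_nonneg (divisor_nonneg hF _ u) Real.posLog_nonneg

/-- the number of zeros as a finite sum over the zeros in a large disc -/
theorem zc_eq_sum {F : ℂ → ℂ} (hF : Differentiable ℂ F) (h0 : ∃ z, F z ≠ 0) {S : Set ℂ} {B : ℝ}
    (hS : S ⊆ closedBall (0 : ℂ) B) [DecidablePred (· ∈ S)] :
    zc F S = ∑ u ∈ ((MeromorphicOn.divisor F (closedBall (0 : ℂ) B)).finiteSupport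
      (isCompact_closedBall 0 B)).toFinset with u ∈ S,
      ENNReal.ofReal (MeromorphicOn.divisor F (closedBall (0 : ℂ) B) u : ℝ) := by
  set E := MeromorphicOn.divisor F (closedBall (0 : ℂ) B) with hE
  have hA' : AnalyticOnNhd ℂ F (closedBall 0 B) := fun x _ => hF.analyticAt x
  unfold zc
  rw [tsum_subtype S (fun z => ((analyticOrderAt F (z : ℂ) : ℕ∞) : ENNReal))]
  have e1 : ∀ z, S.indicator (fun z => ((analyticOrderAt F (z : ℂ) : ℕ∞) : ENNReal)) z
      = if z ∈ S then ENNReal.ofReal (E z : ℝ) else 0 := by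
    intro z
    by_cases hz : z ∈ S
    · rw [Set.indicator_of_mem hz, if_pos hz]
      obtain ⟨k, hk⟩ := ENat.ne_top_iff_exists.1 (order_ne_top hF h0 z)
      rw [hE, MeromorphicOn.AnalyticOnNhd.divisor_apply hA' (hS hz), ← hk]
      simp
    · rw [Set.indicator_of_notMem hz, if_neg hz]
  rw [tsum_congr e1, Finset.sum_filter]
  apply tsum_eq_sum
  intro z hz
  simp only [Set.Finite.mem_toFinset, Function.mem_support, ne_eq, not_not] at hz
  rw [hz]; simp

/-- the integral of the kernel `log⁺ (r / |z|)` -/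
theorem lint_posLog {r : ℝ} (hr : 0 < r) (u : ℂ) :
    ∫⁻ c : ℂ, ENNReal.ofReal (Real.posLog (r * ‖c - u‖⁻¹)) = ENNReal.ofReal (π * r ^ 2 / 2) := by
  rw [lintegral_sub_right_eq_self (fun c : ℂ => ENNReal.ofReal (Real.posLog (r * ‖c‖⁻¹))) u]
  have hm : Measurable fun c : ℂ => Real.posLog (r * ‖c‖⁻¹) := by
    unfold Real.posLog
    fun_prop
  rw [lintegral_eq_lintegral_meas_le volume (Eventually.of_forall fun c => Real.posLog_nonneg)
    hm.aemeasurable]
  have h1 : ∀ t ∈ Set.Ioi (0:ℝ), volume {a : ℂ | t ≤ Real.posLog (r * ‖a‖⁻¹)} =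
      ENNReal.ofReal (π * r ^ 2 * Real.exp (-2 * t)) := by
    intro t ht
    have ht0 : 0 < t := ht
    have h2 : {a : ℂ | t ≤ Real.posLog (r * ‖a‖⁻¹)} = closedBall 0 (r * Real.exp (-t)) \ {0} := by
      ext a
      simp only [Set.mem_ofPred_eq, Set.mem_sdiff, mem_closedBall, dist_zero_right,
        Set.mem_singleton_iff]
      constructor
      · intro h
        have ha : a ≠ 0 := by
          rintro rfl
          simp [Real.posLog] at h
          linarith
        refine ⟨?_, ha⟩
        have hn : 0 < ‖a‖ := norm_pos_iff.2 ha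
        have h3 : t ≤ Real.log (r * ‖a‖⁻¹) := by
          rw [Real.posLog] at h
          rcases le_max_iff.1 h with h | h
          · linarith
          · exact h
        rw [Real.le_log_iff_exp_le (by positivity), ← div_eq_mul_inv, le_div_iff₀ hn] at h3
        rw [Real.exp_neg, ← div_eq_mul_inv, le_div_iff₀ (Real.exp_pos _)]
        linarith
      · rintro ⟨h, ha⟩
        have hn : 0 < ‖a‖ := norm_pos_iff.2 ha
        rw [Real.exp_neg, ← div_eq_mul_inv, le_div_iff₀ (Real.exp_pos _)] at h
        refine le_trans ?_ (le_max_right _ _)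
        rw [Real.le_log_iff_exp_le (by positivity), ← div_eq_mul_inv, le_div_iff₀ hn]
        linarith
    rw [h2, measure_sdiff_null (by simp), Complex.volume_closedBall]
    rw [← ENNReal.ofReal_pow (by positivity), ← ENNReal.ofReal_coe_nnreal,
      ← ENNReal.ofReal_mul (by positivity)]
    congr 1
    rw [NNReal.coe_real_pi, mul_pow, ← Real.exp_nat_mul]
    push_cast
    rw [show (2:ℝ) * -t = -2 * t by ring]
    ring
  rw [setLIntegral_congr_fun measurableSet_Ioi h1]
  rw [← ofReal_integral_eq_lintegral_ofReal]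
  · rw [integral_const_mul, integral_exp_mul_Ioi (by norm_num) 0]
    congr 1
    simp
    ring
  · exact (integrableOn_exp_mul_Ioi (by norm_num) 0).const_mul _
  · exact Eventually.of_forall fun t => by positivity

/-- the integral of the defect over a disc -/
theorem lint_disc {F : ℂ → ℂ} (hF : Differentiable ℂ F) {μ K : ℝ} (hμ : 0 < μ) {c : ℂ} {R : ℝ}
    (hR : 0 < R) (hc : F c ≠ 0) (hn : ∀ z ∈ closedBall c R, 0 ≤ dfc F μ K z) :
    ∫⁻ z in ball c R, Dfc F μ K z ≤
      ENNReal.ofReal (π * R ^ 2 * (dfc F μ K c + R ^ 2 / (16 * μ))) := by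
  have hmD : Measurable (Dfc F μ K) := (measurable_dfc hF μ K).ennreal_ofReal
  have hd0 : 0 ≤ dfc F μ K c := hn c (mem_closedBall_self hR.le)
  -- translation
  have h1 : ∫⁻ z in ball c R, Dfc F μ K z =
      ∫⁻ z : ℂ, (ball (0:ℂ) R).indicator (fun z => Dfc F μ K (c + z)) z := by
    rw [← lintegral_indicator measurableSet_ball,
      ← lintegral_add_left_eq_self (fun z => (ball c R).indicator (Dfc F μ K) z) c]
    refine lintegral_congr fun z => ?_
    by_cases hz : z ∈ ball (0:ℂ) R
    · rw [Set.indicator_of_mem hz, Set.indicator_of_mem]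
      rw [mem_ball, dist_zero_right] at hz
      rw [mem_ball, dist_eq_norm]
      simpa using hz
    · rw [Set.indicator_of_notMem hz, Set.indicator_of_notMem]
      rw [mem_ball, dist_zero_right] at hz
      rw [mem_ball, dist_eq_norm]
      simpa using hz
  rw [h1, ← Complex.lintegral_comp_polarCoord_symm]
  -- the polar integral
  have h2 : ∫⁻ p in polarCoord.target, ENNReal.ofReal p.1 •
      (ball (0:ℂ) R).indicator (fun z => Dfc F μ K (c + z)) (Complex.polarCoord.symm p) =
      ∫⁻ p in Set.Ioo (0:ℝ) R ×ˢ Set.Ioo (-π) π, ENNReal.ofReal p.1 *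
        Dfc F μ K (c + p.1 * (Real.cos p.2 + Real.sin p.2 * I)) := by
    rw [← lintegral_indicator (by rw [polarCoord_target]; exact measurableSet_Ioi.prod measurableSet_Ioo),
      ← lintegral_indicator (measurableSet_Ioo.prod measurableSet_Ioo)]
    refine lintegral_congr fun p => ?_
    rw [polarCoord_target]
    by_cases hp : p ∈ Set.Ioo (0:ℝ) R ×ˢ Set.Ioo (-π) π
    · have hp' : p ∈ Set.Ioi (0:ℝ) ×ˢ Set.Ioo (-π) π := ⟨hp.1.1, hp.2⟩
      rw [Set.indicator_of_mem hp, Set.indicator_of_mem hp', Set.indicator_of_mem, smul_eq_mul,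
        Complex.polarCoord_symm_apply]
      rw [mem_ball, dist_zero_right, Complex.norm_polarCoord_symm, abs_of_pos hp.1.1]
      exact hp.1.2
    · rw [Set.indicator_of_notMem hp]
      by_cases hp' : p ∈ Set.Ioi (0:ℝ) ×ˢ Set.Ioo (-π) π
      · rw [Set.indicator_of_mem hp', Set.indicator_of_notMem, smul_zero]
        rw [mem_ball, dist_zero_right, Complex.norm_polarCoord_symm, abs_of_pos hp'.1]
        intro h
        exact hp ⟨⟨hp'.1, h⟩, hp'.2⟩
      · rw [Set.indicator_of_notMem hp']
  rw [h2, Measure.volume_eq_prod, setLIntegral_prod]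
  · -- bound of the inner integral
    have h3 : ∀ r ∈ Set.Ioo (0:ℝ) R, ∫⁻ θ in Set.Ioo (-π) π, ENNReal.ofReal r *
        Dfc F μ K (c + r * (Real.cos θ + Real.sin θ * I)) ≤
        ENNReal.ofReal (2 * π * r * (dfc F μ K c + r ^ 2 / (8 * μ))) := by
      intro r hr
      have hr0 : 0 < r := hr.1
      rw [lintegral_const_mul' _ _ ENNReal.ofReal_ne_top]
      have h4 := jensen_lint hF μ K hr0 hc
        (fun z hz => hn z (closedBall_subset_closedBall hr.2.le hz)) (Ssum_nonneg hF hr0 hc)
      calc ENNReal.ofReal r * _ ≤ ENNReal.ofReal r *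
            ENNReal.ofReal (2 * π * (dfc F μ K c + r ^ 2 / (8 * μ))) := by
              gcongr
              rw [← h4]
              exact le_self_add
        _ = _ := by
            rw [← ENNReal.ofReal_mul hr0.le]
            congr 1
            ring
    refine (setLIntegral_mono' measurableSet_Ioo h3).trans (le_of_eq ?_)
    rw [← setLIntegral_congr (Ioo_ae_eq_Ioc (a := (0:ℝ)) (b := R)).symm,
      ← ofReal_integral_eq_lintegral_ofReal, ← intervalIntegral.integral_of_le hR.le]
    · congr 1
      have h5 : ∀ r : ℝ, 2 * π * r * (dfc F μ K c + r ^ 2 / (8 * μ)) =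
          (2 * π * dfc F μ K c) * r + (π / (4 * μ)) * r ^ 3 := by
        intro r
        field_simp
        ring
      simp_rw [h5]
      rw [intervalIntegral.integral_add, intervalIntegral.integral_const_mul,
        intervalIntegral.integral_const_mul, integral_id, integral_pow]
      · push_cast
        field_simp
        ring
      · exact Continuous.intervalIntegrable (by fun_prop) _ _
      · exact Continuous.intervalIntegrable (by fun_prop) _ _
    · refine Continuous.integrableOn_Ioc ?_
      fun_prop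
    · rw [EventuallyLE, ae_restrict_iff' measurableSet_Ioc]
      refine Eventually.of_forall fun r hr => ?_
      have : 0 ≤ r := hr.1.le
      simp only [Pi.zero_apply]
      positivity
  · have h6 : Measurable fun p : ℝ × ℝ => ENNReal.ofReal p.1 *
        Dfc F μ K (c + p.1 * (Real.cos p.2 + Real.sin p.2 * I)) := by
      refine Measurable.mul (by fun_prop) (hmD.comp ?_)
      fun_prop
    exact h6.aemeasurable

end Pool.Agent.T6.H61.KK
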