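import Pool.Agent.T6.H61.KK.UInt

set_option autoImplicit false

/-!
# The number of zeros of `Ξ_{-μ}` with `|Im z| ≤ κ μ log T`
-/

namespace Pool.Agent.T6.H61.KK

open Complex MeasureTheory Filter Topology Metric Pool.Agent.Helper242.KK Pool.Agent.Y971.KK

theorem Dfc_add (F : ℂ → ℂ) (μ K d : ℝ) (hd : 0 ≤ d) (z : ℂ) :
    Dfc F μ (K + d) z ≤ Dfc F μ K z + ENNReal.ofReal d := by
  unfold Dfc
  have h1 : dfc F μ (K + d) z = dfc F μ K z + d := by
    unfold dfc gq
    ring
  rw [h1]
  exact ENNReal.ofReal_add_le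

/-- `log T` is large against constants and small against `T` -/
theorem ev_log (c : ℝ) : ∀ᶠ T : ℝ in atTop, c ≤ Real.log T :=
  Real.tendsto_log_atTop.eventually_ge_atTop _

theorem ev_log_small {c : ℝ} (hc : 0 < c) : ∀ᶠ T : ℝ in atTop, Real.log T ≤ c * T := by
  have h := Real.isLittleO_log_id_atTop.bound hc
  filter_upwards [h, eventually_ge_atTop 1] with T hT hT1
  have hl : 0 ≤ Real.log T := Real.log_nonneg hT1
  simp only [id] at hT
  rw [Real.norm_eq_abs, Real.norm_eq_abs, abs_of_nonneg hl, abs_of_nonneg (by linarith)] at hT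
  exact hT

theorem log_half {T : ℝ} (hT : 0 < T) : Real.log (T / 2) = Real.log T - Real.log 2 :=
  Real.log_div hT.ne' (by norm_num)

/-- **The integral of the defect over long rectangles.** -/
theorem defect_long {μ : ℝ} (hμ : 0 < μ) (J : ℕ) : ∀ κ η : ℝ, 0 ≤ κ → κ < 1 → 0 < η →
    ∀ᶠ T : ℝ in atTop,
      ∫⁻ z in sbox (T / 2 ^ J) (2 * T) (κ * μ * Real.log T), Dfc (FX μ) μ (4 * Real.log T) z ≤
        ENNReal.ofReal (η * T * Real.log T ^ 3) := by
  induction J with
  | zero =>
    intro κ η hκ0 hκ hη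
    obtain ⟨T₀, h⟩ := defect_dyadic hμ hκ0 hκ hη
    filter_upwards [eventually_ge_atTop T₀] with T hT
    have := h T hT
    simpa using this
  | succ J ih =>
    intro κ η hκ0 hκ hη
    obtain ⟨T₀, h⟩ := defect_dyadic (η := η / 3) hμ hκ0 hκ (by positivity)
    have h1 := ih ((κ + 1) / 2) (η / 3) (by linarith) (by linarith) (by positivity)
    have h2 : Tendsto (fun T : ℝ => T / 2) atTop atTop := tendsto_id.atTop_div_const (by norm_num)
    have h3 := h2.eventually h1
    filter_upwards [h3, eventually_ge_atTop T₀, eventually_ge_atTop 4,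
      ev_log (2 / (1 - κ) + 48 * μ / η)] with T e1 e2 e3 e4
    have hT0 : 0 < T := by linarith
    have hκ' : 0 < 1 - κ := by linarith
    have hl2 : Real.log 2 ≤ 1 := by
      have := Real.log_le_sub_one_of_pos (show (0:ℝ) < 2 by norm_num)
      linarith
    have hl20 : 0 < Real.log 2 := Real.log_pos (by norm_num)
    rw [log_half hT0] at e1
    set l := Real.log T with hl
    have hz1 : 0 ≤ 2 / (1 - κ) := by positivity
    have hz2 : 0 ≤ 48 * μ / η := by positivity
    have hl0 : 0 ≤ l := by linarith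
    have e5 : 2 / (1 - κ) ≤ l := by linarith
    have e6 : 48 * μ / η ≤ l := by linarith
    rw [div_le_iff₀ hκ'] at e5
    rw [div_le_iff₀ hη] at e6
    -- the two parts
    have hsub : sbox (T / 2 ^ (J + 1)) (2 * T) (κ * μ * l) ⊆
        sbox (T / 2 ^ (J + 1)) T (κ * μ * l) ∪ sbox T (2 * T) (κ * μ * l) := by
      rintro z ⟨a1, a2, a3⟩
      rcases le_total z.re T with h5 | h5
      · exact Or.inl ⟨a1, a2, h5⟩
      · exact Or.inr ⟨a1, h5, a3⟩
    have hsub2 : sbox (T / 2 ^ (J + 1)) T (κ * μ * l) ⊆
        sbox (T / 2 / 2 ^ J) (2 * (T / 2)) ((κ + 1) / 2 * μ * (l - Real.log 2)) := by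
      rintro z ⟨a1, a2, a3⟩
      refine ⟨a1.trans ?_, ?_, by linarith⟩
      · have h6 : κ * l ≤ (κ + 1) / 2 * (l - Real.log 2) := by nlinarith
        have h7 := mul_le_mul_of_nonneg_right h6 hμ.le
        linarith
      · calc T / 2 / 2 ^ J = T / 2 ^ (J + 1) := by rw [pow_succ]; field_simp
          _ ≤ _ := a2
    have hmeas : Measurable (Dfc (FX μ) μ (4 * (l - Real.log 2))) :=
      (measurable_dfc (differentiable_FX hμ.le) μ _).ennreal_ofReal
    have hpart : ∫⁻ z in sbox (T / 2 ^ (J + 1)) T (κ * μ * l), Dfc (FX μ) μ (4 * l) z ≤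
        ENNReal.ofReal (η / 3 * T * l ^ 3) + ENNReal.ofReal (η / 3 * T * l ^ 3) := by
      have hT2 : T / 2 ^ (J + 1) ≤ T := by
        apply div_le_self hT0.le
        exact one_le_pow₀ (by norm_num)
      calc ∫⁻ z in sbox (T / 2 ^ (J + 1)) T (κ * μ * l), Dfc (FX μ) μ (4 * l) z ≤
          ∫⁻ z in sbox (T / 2 ^ (J + 1)) T (κ * μ * l),
            (Dfc (FX μ) μ (4 * (l - Real.log 2)) z + ENNReal.ofReal (4 * Real.log 2)) := by
            refine lintegral_mono fun z => ?_
            have := Dfc_add (FX μ) μ (4 * (l - Real.log 2)) (4 * Real.log 2) (by positivity) z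
            rw [show 4 * (l - Real.log 2) + 4 * Real.log 2 = 4 * l by ring] at this
            exact this
        _ = (∫⁻ z in sbox (T / 2 ^ (J + 1)) T (κ * μ * l),
            Dfc (FX μ) μ (4 * (l - Real.log 2)) z) + ENNReal.ofReal (4 * Real.log 2) *
              volume (sbox (T / 2 ^ (J + 1)) T (κ * μ * l)) := by
            rw [lintegral_add_left hmeas, setLIntegral_const]
        _ ≤ ENNReal.ofReal (η / 3 * (T / 2) * (l - Real.log 2) ^ 3) +
            ENNReal.ofReal (4 * Real.log 2) *
              ENNReal.ofReal ((T - T / 2 ^ (J + 1)) * (2 * (κ * μ * l))) := by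
            gcongr
            · exact (lintegral_mono_set hsub2).trans e1
            · exact (volume_sbox hT2 (by positivity)).le
        _ ≤ _ := by
            have hll : 0 ≤ l - Real.log 2 := by nlinarith
            rw [← ENNReal.ofReal_mul (by positivity)]
            gcongr ?_ + ?_
            · apply ENNReal.ofReal_le_ofReal
              have g1 : (l - Real.log 2) ^ 3 ≤ l ^ 3 := pow_le_pow_left₀ hll (by linarith) 3
              have g2 : T / 2 ≤ T := by linarith
              gcongr
            · apply ENNReal.ofReal_le_ofReal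
              have hT3 : 0 ≤ T / 2 ^ (J + 1) := by positivity
              have g1 : 4 * Real.log 2 * ((T - T / 2 ^ (J + 1)) * (2 * (κ * μ * l))) ≤
                  4 * 1 * (T * (2 * (1 * μ * l))) := by
                gcongr
                linarith
              have g2 : 8 * μ * (T * l) ≤ (l * η / 6) * (T * l) := by
                apply mul_le_mul_of_nonneg_right _ (by positivity)
                linarith
              have g3 : 1 ≤ l := by nlinarith
              have g4 : T * l ^ 2 ≤ T * l ^ 3 := by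
                apply mul_le_mul_of_nonneg_left _ hT0.le
                exact pow_le_pow_right₀ g3 (by norm_num)
              have g5 := mul_le_mul_of_nonneg_left g4 (show 0 ≤ η / 6 by positivity)
              have g6 : 0 ≤ η / 6 * (T * l ^ 3) := by positivity
              linarith
    calc ∫⁻ z in sbox (T / 2 ^ (J + 1)) (2 * T) (κ * μ * l), Dfc (FX μ) μ (4 * l) z ≤
        ∫⁻ z in sbox (T / 2 ^ (J + 1)) T (κ * μ * l) ∪ sbox T (2 * T) (κ * μ * l),
          Dfc (FX μ) μ (4 * l) z := lintegral_mono_set hsub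
      _ ≤ (∫⁻ z in sbox (T / 2 ^ (J + 1)) T (κ * μ * l), Dfc (FX μ) μ (4 * l) z) +
          ∫⁻ z in sbox T (2 * T) (κ * μ * l), Dfc (FX μ) μ (4 * l) z := lintegral_union_le _ _ _
      _ ≤ (ENNReal.ofReal (η / 3 * T * l ^ 3) + ENNReal.ofReal (η / 3 * T * l ^ 3)) +
          ENNReal.ofReal (η / 3 * T * l ^ 3) := by
          gcongr
          exact h T e2
      _ = _ := by
          have hp : 0 ≤ η / 3 * T * l ^ 3 := by positivity
          rw [← ENNReal.ofReal_add hp hp, ← ENNReal.ofReal_add (by positivity) hp]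
          congr 1
          ring

end Pool.Agent.T6.H61.KK
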