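import Pool.Agent.T6.H61.KK.UJen
import Pool.Agent.T6.H61.KK.SCount

set_option autoImplicit false

/-!
# The number of zeros in rectangles
-/

namespace Pool.Agent.T6.H61.KK

open Complex MeasureTheory Filter Topology Metric Pool.Agent.Helper242.KK Real

/-- the area of a rectangle -/
theorem volume_sbox {a b h : ℝ} (hab : a ≤ b) (hh : 0 ≤ h) :
    volume (sbox a b h) = ENNReal.ofReal ((b - a) * (2 * h)) := by
  have h1 : sbox a b h = Complex.measurableEquivRealProd ⁻¹' (Set.Icc a b ×ˢ Set.Icc (-h) h) := by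
    ext z
    simp only [sbox, Set.mem_ofPred_eq, Set.mem_preimage, Complex.measurableEquivRealProd_apply,
      Set.mem_prod, Set.mem_Icc, abs_le]
    tauto
  rw [h1, Complex.volume_preserving_equiv_real_prod.measure_preimage
    (measurableSet_Icc.prod measurableSet_Icc).nullMeasurableSet, Measure.volume_eq_prod,
    Measure.prod_prod, Real.volume_Icc, Real.volume_Icc, ← ENNReal.ofReal_mul (by linarith)]
  congr 1
  ring

theorem measurableSet_sbox (a b h : ℝ) : MeasurableSet (sbox a b h) := by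
  have h1 : sbox a b h = Complex.measurableEquivRealProd ⁻¹' (Set.Icc a b ×ˢ Set.Icc (-h) h) := by
    ext z
    simp only [sbox, Set.mem_ofPred_eq, Set.mem_preimage, Complex.measurableEquivRealProd_apply,
      Set.mem_prod, Set.mem_Icc, abs_le]
    tauto
  rw [h1]
  exact Complex.measurableEquivRealProd.measurable (measurableSet_Icc.prod measurableSet_Icc)

theorem sbox_subset_closedBall {a b h : ℝ} : 
    sbox a b h ⊆ closedBall (0 : ℂ) (|a| + |b| + |h|) := by
  rintro z ⟨h1, h2, h3⟩
  rw [mem_closedBall, dist_zero_right]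
  refine (Complex.norm_le_abs_re_add_abs_im _).trans ?_
  have h4 : |z.re| ≤ |a| + |b| := by
    rw [abs_le]
    constructor
    · linarith [neg_abs_le a, abs_nonneg b]
    · linarith [le_abs_self b, abs_nonneg a]
  have h5 := h1.trans (le_abs_self h)
  linarith

theorem closedBall_subset_sbox {a b h r : ℝ} {c : ℂ} (hc : c ∈ sbox a b h) :
    closedBall c r ⊆ sbox (a - r) (b + r) (h + r) := by
  intro z hz
  rw [mem_closedBall, dist_eq_norm] at hz
  obtain ⟨h1, h2, h3⟩ := hc
  have h4 := (Complex.abs_re_le_norm (z - c)).trans hz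
  have h5 := (Complex.abs_im_le_norm (z - c)).trans hz
  rw [Complex.sub_re, abs_le] at h4
  rw [Complex.sub_im] at h5
  refine ⟨?_, by linarith [h4.1], by linarith [h4.2]⟩
  calc |z.im| = |c.im + (z.im - c.im)| := by ring_nf
    _ ≤ |c.im| + |z.im - c.im| := abs_add_le _ _
    _ ≤ _ := by linarith

/-- the zeros of an entire function in a bounded set have measure zero -/
theorem ae_ne_zero {F : ℂ → ℂ} (hF : Differentiable ℂ F) (h0 : ∃ z, F z ≠ 0) {S : Set ℂ} {B : ℝ}
    (hS : S ⊆ closedBall (0 : ℂ) B) (hm : MeasurableSet S) :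
    ∀ᵐ c ∂(volume.restrict S), F c ≠ 0 := by
  rw [ae_restrict_iff' hm]
  have hA' : AnalyticOnNhd ℂ F (closedBall 0 B) := fun x _ => hF.analyticAt x
  set E := MeromorphicOn.divisor F (closedBall (0 : ℂ) B) with hE
  have hfin : (Function.support E).Finite := E.finiteSupport (isCompact_closedBall 0 B)
  have h1 : volume (Function.support E) = 0 := hfin.measure_zero _
  rw [← compl_mem_ae_iff] at h1
  filter_upwards [h1] with z hz hzS hFz
  apply hz
  simp only [Function.mem_support, ne_eq]
  rw [hE, MeromorphicOn.AnalyticOnNhd.divisor_apply hA' (hS hzS)]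
  intro h2
  have h3 : analyticOrderAt F z ≠ ⊤ := order_ne_top hF h0 z
  have h4 : analyticOrderAt F z ≠ 0 := by
    rw [Ne, (hF.analyticAt z).analyticOrderAt_eq_zero]
    exact fun h => h hFz
  obtain ⟨k, hk⟩ := ENat.ne_top_iff_exists.1 h3
  rw [← hk] at h2 h4
  simp at h2 h4
  exact h4 h2

/-- the sum over the zeros, integrated over a set -/
theorem lint_Ssum {F : ℂ → ℂ} (hF : Differentiable ℂ F) (h0 : ∃ z, F z ≠ 0) {r : ℝ} (hr : 0 < r)
    {A : Set ℂ} {B : ℝ} (hA : MeasurableSet A)
    (hB : ∀ c ∈ A, closedBall c r ⊆ closedBall (0 : ℂ) B) :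
    ∫⁻ c in A, ENNReal.ofReal (Ssum F r c) =
      ∑ u ∈ ((MeromorphicOn.divisor F (closedBall (0 : ℂ) B)).finiteSupport
      (isCompact_closedBall 0 B)).toFinset,
      ENNReal.ofReal (MeromorphicOn.divisor F (closedBall (0 : ℂ) B) u : ℝ) *
        ∫⁻ c in A, ENNReal.ofReal (Real.posLog (r * ‖c - u‖⁻¹)) := by
  have hAB : A ⊆ closedBall (0:ℂ) B := fun c hc => hB c hc (mem_closedBall_self hr.le)
  have hmp : ∀ u : ℂ, Measurable fun c : ℂ => ENNReal.ofReal (Real.posLog (r * ‖c - u‖⁻¹)) := by
    intro u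
    unfold Real.posLog
    fun_prop
  have h1 : ∫⁻ c in A, ENNReal.ofReal (Ssum F r c) = ∫⁻ c in A,
      ∑ u ∈ ((MeromorphicOn.divisor F (closedBall (0 : ℂ) B)).finiteSupport
      (isCompact_closedBall 0 B)).toFinset,
      ENNReal.ofReal (MeromorphicOn.divisor F (closedBall (0 : ℂ) B) u : ℝ) *
        ENNReal.ofReal (Real.posLog (r * ‖c - u‖⁻¹)) := by
    apply lintegral_congr_ae
    filter_upwards [ae_ne_zero hF h0 hAB hA, ae_restrict_mem hA] with c hc hcA
    rw [Ssum_eq hF hr hc (hB c hcA), ENNReal.ofReal_sum_of_nonneg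
      (fun u _ => mul_nonneg (divisor_nonneg hF _ u) Real.posLog_nonneg)]
    refine Finset.sum_congr rfl fun u _ => ?_
    rw [ENNReal.ofReal_mul (divisor_nonneg hF _ u)]
  rw [h1, lintegral_finsetSum _ (fun u _ => (hmp u).const_mul _)]
  refine Finset.sum_congr rfl fun u _ => ?_
  rw [lintegral_const_mul _ (hmp u)]

/-- the upper bound for the number of zeros in a rectangle -/
theorem count_le {F : ℂ → ℂ} (hF : Differentiable ℂ F) (h0 : ∃ z, F z ≠ 0) {μ K : ℝ} (hμ : 0 < μ)
    {r a b h : ℝ} (hr : 0 < r) (hab : a ≤ b) (hh : 0 ≤ h)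
    (hn : ∀ z ∈ sbox (a - r) (b + r) (h + r), 0 ≤ dfc F μ K z) :
    ENNReal.ofReal (π * r ^ 2 / 2) * zc F (sbox (a + r) (b - r) (h - r)) ≤
      (∫⁻ c in sbox a b h, Dfc F μ K c) +
        ENNReal.ofReal ((b - a) * (2 * h) * (r ^ 2 / (8 * μ))) := by
  classical
  obtain ⟨B, hBd⟩ : ∃ B, B = |a - r| + |b + r| + |h + r| := ⟨_, rfl⟩
  have hB : ∀ c ∈ sbox a b h, closedBall c r ⊆ closedBall (0 : ℂ) B := by
    intro c hc
    rw [hBd]
    exact (closedBall_subset_sbox hc).trans sbox_subset_closedBall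
  have hAm := measurableSet_sbox a b h
  have hAB : sbox a b h ⊆ closedBall (0:ℂ) B := fun c hc => hB c hc (mem_closedBall_self hr.le)
  have hsmall : sbox (a + r) (b - r) (h - r) ⊆ sbox a b h := by
    rintro z ⟨h1, h2, h3⟩
    exact ⟨by linarith, by linarith, by linarith⟩
  -- Jensen
  have hJ : ∫⁻ c in sbox a b h, ENNReal.ofReal (Ssum F r c) ≤
      ∫⁻ c in sbox a b h, (Dfc F μ K c + ENNReal.ofReal (r ^ 2 / (8 * μ))) := by
    apply lintegral_mono_ae
    filter_upwards [ae_ne_zero hF h0 hAB hAm, ae_restrict_mem hAm] with c hc hcA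
    have hn' : ∀ z ∈ closedBall c r, 0 ≤ dfc F μ K z := fun z hz =>
      hn z (closedBall_subset_sbox hcA hz)
    have h1 := jensen_dfc hF μ K hr.ne' hc
    have h2 : 0 ≤ circleAverage (dfc F μ K) c r := by
      refine circleAverage_nonneg_of_nonneg fun z hz => ?_
      rw [abs_of_pos hr] at hz
      exact hn' z (sphere_subset_closedBall hz)
    unfold Dfc
    rw [← ENNReal.ofReal_add (hn' c (mem_closedBall_self hr.le)) (by positivity)]
    exact ENNReal.ofReal_le_ofReal (by linarith)
  have hDm : Measurable (Dfc F μ K) := (measurable_dfc hF μ K).ennreal_ofReal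
  rw [lintegral_add_left hDm, setLIntegral_const, volume_sbox hab hh,
    ← ENNReal.ofReal_mul (by positivity), mul_comm (r ^ 2 / (8 * μ))] at hJ
  refine le_trans ?_ hJ
  rw [lint_Ssum hF h0 hr hAm hB, zc_eq_sum hF h0 (hsmall.trans hAB), Finset.mul_sum,
    Finset.sum_filter]
  refine Finset.sum_le_sum fun u _ => ?_
  split_ifs with hu
  · rw [mul_comm]
    gcongr
    rw [← lint_posLog hr u]
    rw [← lintegral_indicator hAm]
    refine lintegral_mono fun c => ?_
    simp only
    by_cases hc : c ∈ sbox a b h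
    · rw [Set.indicator_of_mem hc]
    · rw [Set.indicator_of_notMem hc]
      have h3 : r < ‖c - u‖ := by
        by_contra hcon
        push Not at hcon
        apply hc
        have h4 : c ∈ closedBall u r := by rwa [mem_closedBall, dist_eq_norm]
        have h5 := closedBall_subset_sbox hu h4
        simpa using h5
      rw [Real.posLog, max_eq_left]
      · simp
      · apply Real.log_nonpos (by positivity)
        rw [← div_eq_mul_inv, div_le_one (hr.trans h3)]
        exact h3.le
  · exact zero_le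

/-- the lower bound for the number of zeros in a rectangle -/
theorem count_ge {F : ℂ → ℂ} (hF : Differentiable ℂ F) (h0 : ∃ z, F z ≠ 0) {μ K : ℝ} (hμ : 0 < μ)
    {r a b h : ℝ} (hr : 0 < r) (hab : a ≤ b) (hh : 0 ≤ h)
    (hn : ∀ z ∈ sbox (a - r) (b + r) (h + r), 0 ≤ dfc F μ K z) :
    ENNReal.ofReal ((b - a) * (2 * h) * (r ^ 2 / (8 * μ))) ≤
      ENNReal.ofReal (π * r ^ 2 / 2) * zc F (sbox (a - r) (b + r) (h + r)) +
      ∫⁻ c in sbox (a - r) (b + r) (h + r), Dfc F μ K c := by
  classical
  obtain ⟨B, hBd⟩ : ∃ B, B = |a - r| + |b + r| + |h + r| := ⟨_, rfl⟩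
  have hB : ∀ c ∈ sbox a b h, closedBall c r ⊆ closedBall (0 : ℂ) B := by
    intro c hc
    rw [hBd]
    exact (closedBall_subset_sbox hc).trans sbox_subset_closedBall
  have hAm := measurableSet_sbox a b h
  have hAm' := measurableSet_sbox (a - r) (b + r) (h + r)
  have hAB : sbox a b h ⊆ closedBall (0:ℂ) B := fun c hc => hB c hc (mem_closedBall_self hr.le)
  have hDm : Measurable (Dfc F μ K) := (measurable_dfc hF μ K).ennreal_ofReal
  have hjm : Measurable fun p : ℂ × ℝ =>
      Dfc F μ K (p.1 + r * (Real.cos p.2 + Real.sin p.2 * I)) := hDm.comp (by fun_prop)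
  have h2pi : (0:ℝ) < 2 * π := by positivity
  -- Jensen
  have hJ : ∫⁻ c in sbox a b h, ENNReal.ofReal (2 * π * (r ^ 2 / (8 * μ))) ≤
      ∫⁻ c in sbox a b h, ((∫⁻ θ in Set.Ioo (-π) π,
        Dfc F μ K (c + r * (Real.cos θ + Real.sin θ * I))) +
          ENNReal.ofReal (2 * π) * ENNReal.ofReal (Ssum F r c)) := by
    apply lintegral_mono_ae
    filter_upwards [ae_ne_zero hF h0 hAB hAm, ae_restrict_mem hAm] with c hc hcA
    have hn' : ∀ z ∈ closedBall c r, 0 ≤ dfc F μ K z := fun z hz =>
      hn z (closedBall_subset_sbox hcA hz)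
    have h1 := jensen_lint hF μ K hr hc hn' (Ssum_nonneg hF hr hc)
    rw [← ENNReal.ofReal_mul h2pi.le, h1]
    apply ENNReal.ofReal_le_ofReal
    apply mul_le_mul_of_nonneg_left _ h2pi.le
    linarith [hn' c (mem_closedBall_self hr.le)]
  rw [lintegral_add_left (by
      exact hjm.lintegral_prod_right'), setLIntegral_const, volume_sbox hab hh,
    ← ENNReal.ofReal_mul (by positivity), lintegral_const_mul' _ _ ENNReal.ofReal_ne_top] at hJ
  -- the circle averages
  have hC : ∫⁻ c in sbox a b h, (∫⁻ θ in Set.Ioo (-π) π,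
        Dfc F μ K (c + r * (Real.cos θ + Real.sin θ * I))) ≤
      ENNReal.ofReal (2 * π) * ∫⁻ c in sbox (a - r) (b + r) (h + r), Dfc F μ K c := by
    rw [lintegral_lintegral_swap hjm.aemeasurable]
    have h1 : ∀ θ : ℝ, ∫⁻ c in sbox a b h, Dfc F μ K (c + r * (Real.cos θ + Real.sin θ * I)) ≤
        ∫⁻ c in sbox (a - r) (b + r) (h + r), Dfc F μ K c := by
      intro θ
      rw [← lintegral_indicator hAm, ← lintegral_indicator hAm',
        ← lintegral_add_right_eq_self (fun c => (sbox (a - r) (b + r) (h + r)).indicator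
          (fun c => Dfc F μ K c) c) (r * (Real.cos θ + Real.sin θ * I))]
      refine lintegral_mono fun c => ?_
      simp only
      by_cases hc : c ∈ sbox a b h
      · rw [Set.indicator_of_mem hc, Set.indicator_of_mem]
        apply closedBall_subset_sbox hc
        rw [mem_closedBall, dist_eq_norm, add_sub_cancel_left, norm_mul, Complex.norm_real,
          Real.norm_of_nonneg hr.le, Complex.ofReal_cos, Complex.ofReal_sin, ← Complex.exp_mul_I,
          Complex.norm_exp_ofReal_mul_I, mul_one]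
      · rw [Set.indicator_of_notMem hc]
        exact zero_le
    calc _ ≤ ∫⁻ θ in Set.Ioo (-π) π, ∫⁻ c in sbox (a - r) (b + r) (h + r), Dfc F μ K c :=
          lintegral_mono fun θ => h1 θ
      _ = _ := by
          rw [setLIntegral_const, Real.volume_Ioo, mul_comm]
          congr 2
          ring
  have hS : ∫⁻ c in sbox a b h, ENNReal.ofReal (Ssum F r c) ≤
      ENNReal.ofReal (π * r ^ 2 / 2) * zc F (sbox (a - r) (b + r) (h + r)) := by
    have hsB : sbox (a - r) (b + r) (h + r) ⊆ closedBall (0:ℂ) B := by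
      rw [hBd]; exact sbox_subset_closedBall
    rw [lint_Ssum hF h0 hr hAm hB, zc_eq_sum hF h0 hsB, Finset.mul_sum,
      Finset.sum_filter]
    refine Finset.sum_le_sum fun u _ => ?_
    split_ifs with hu
    · rw [mul_comm (ENNReal.ofReal (π * r ^ 2 / 2))]
      gcongr
      rw [← lint_posLog hr u]
      exact lintegral_mono' Measure.restrict_le_self le_rfl
    · rw [setLIntegral_congr_fun (g := fun _ => 0) hAm, lintegral_zero, mul_zero]
      intro c hc
      simp only
      have h3 : r < ‖c - u‖ := by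
        by_contra hcon
        push Not at hcon
        apply hu
        have h4 : u ∈ closedBall c r := by rwa [mem_closedBall, dist_comm, dist_eq_norm]
        exact closedBall_subset_sbox hc h4
      rw [Real.posLog, max_eq_left]
      · simp
      · apply Real.log_nonpos (by positivity)
        rw [← div_eq_mul_inv, div_le_one (hr.trans h3)]
        exact h3.le
  have h1 : ENNReal.ofReal (2 * π) * ENNReal.ofReal ((b - a) * (2 * h) * (r ^ 2 / (8 * μ))) ≤
      ENNReal.ofReal (2 * π) * (ENNReal.ofReal (π * r ^ 2 / 2) *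
        zc F (sbox (a - r) (b + r) (h + r)) +
      ∫⁻ c in sbox (a - r) (b + r) (h + r), Dfc F μ K c) := by
    rw [← ENNReal.ofReal_mul h2pi.le, mul_add]
    calc _ = ENNReal.ofReal (2 * π * (r ^ 2 / (8 * μ)) * ((b - a) * (2 * h))) := by
          congr 1
          ring
      _ ≤ _ := hJ
      _ ≤ _ := by
          rw [add_comm]
          gcongr
  have h2 : ENNReal.ofReal (2 * π) ≠ 0 := by
    simpa using Real.pi_pos
  exact (ENNReal.mul_le_mul_iff_right h2 ENNReal.ofReal_ne_top).1 h1

end Pool.Agent.T6.H61.KK
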