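import Pool.Agent.T6.H61.KK.ULaw

set_option autoImplicit false

/-!
# The asymptotic number of zeros of `Ξ_{-μ}` with `|Re z| ≤ T`, `|Im z| ≤ κ μ log T`, `κ < 1`
-/

namespace Pool.Agent.T6.H61.KK

open Complex MeasureTheory Filter Topology Metric Pool.Agent.Helper242.KK Pool.Agent.Y971.KK

theorem zc_union_disjoint (f : ℂ → ℂ) {S T : Set ℂ} (h : Disjoint S T) :
    zc f (S ∪ T) = zc f S + zc f T := by
  unfold zc
  exact Summable.tsum_union_disjoint (f := fun z => ((analyticOrderAt f (z : ℂ) : ℕ∞) : ENNReal)) h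
    ENNReal.summable ENNReal.summable

theorem exists_pow_le {δ : ℝ} (hδ : 0 < δ) : ∃ J : ℕ, 2 ≤ J ∧ 24 / 2 ^ J ≤ δ := by
  obtain ⟨n, hn⟩ := pow_unbounded_of_one_lt (24 / δ) (one_lt_two)
  refine ⟨n + 2, by omega, ?_⟩
  rw [div_le_iff₀ (by positivity)]
  rw [div_lt_iff₀ hδ] at hn
  have h1 : (2:ℝ) ^ n ≤ 2 ^ (n + 2) := pow_le_pow_right₀ (by norm_num) (by omega)
  have h2 := mul_le_mul_of_nonneg_left h1 hδ.le
  linarith

/-- the zeros near the imaginary axis -/
theorem central_few {μ : ℝ} (hμ : 0 < μ) {c κ : ℝ} (hc : 0 < c) :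
    ∀ᶠ T : ℝ in atTop, zc (XiM μ) (sbox 0 (c * T) (κ * μ * Real.log T)) ≤
      ENNReal.ofReal (6 * c * T * Real.log T + 6 * c * |Real.log (2 * c)| * T) := by
  obtain ⟨Cu, hCu, hup⟩ := XiM_upper hμ.le
  obtain ⟨r, hr16, hN⟩ := many_N_upper (differentiable_XiM hμ.le) (XiM_zero_ne hμ.le) hup
  rcases le_or_gt κ 0 with hκ | hκ
  · filter_upwards [eventually_ge_atTop (r / (2 * c)), eventually_ge_atTop 1] with T h1 h2
    rw [div_le_iff₀ (by positivity)] at h1
    have hl : 0 ≤ Real.log T := Real.log_nonneg h2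
    have hsub : sbox 0 (c * T) (κ * μ * Real.log T) ⊆ closedBall 0 (2 * c * T) := by
      rintro z ⟨a1, a2, a3⟩
      rw [mem_closedBall, dist_zero_right]
      refine (Complex.norm_le_abs_re_add_abs_im _).trans ?_
      rw [abs_of_nonneg a2]
      have : κ * μ * Real.log T ≤ 0 := by
        apply mul_nonpos_of_nonpos_of_nonneg (mul_nonpos_of_nonpos_of_nonneg hκ hμ.le) hl
      have h3 : 0 ≤ c * T := by positivity
      linarith
    refine (zc_mono _ hsub).trans ?_
    rw [zc_closedBall (differentiable_XiM hμ.le) ⟨0, XiM_zero_ne hμ.le⟩ 0 (by positivity)]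
    apply ENNReal.ofReal_le_ofReal
    refine (hN (2 * c * T) (by linarith)).trans ?_
    rw [Real.log_mul (by positivity) (by positivity)]
    have h4 := le_abs_self (Real.log (2 * c))
    have h5 := mul_le_mul_of_nonneg_left h4 (show 0 ≤ 6 * c * T by positivity)
    linarith
  · filter_upwards [eventually_ge_atTop (r / (2 * c)), eventually_ge_atTop 1,
      ev_log_small (c := c / (κ * μ)) (by positivity)] with T h1 h2 h3
    rw [div_le_iff₀ (by positivity)] at h1
    have hl : 0 ≤ Real.log T := Real.log_nonneg h2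
    have hsub : sbox 0 (c * T) (κ * μ * Real.log T) ⊆ closedBall 0 (2 * c * T) := by
      rintro z ⟨a1, a2, a3⟩
      rw [mem_closedBall, dist_zero_right]
      refine (Complex.norm_le_abs_re_add_abs_im _).trans ?_
      rw [abs_of_nonneg a2]
      have h4 : κ * μ * Real.log T ≤ c * T := by
        calc κ * μ * Real.log T ≤ κ * μ * (c / (κ * μ) * T) :=
              mul_le_mul_of_nonneg_left h3 (by positivity)
          _ = c * T := by field_simp
      linarith
    refine (zc_mono _ hsub).trans ?_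
    rw [zc_closedBall (differentiable_XiM hμ.le) ⟨0, XiM_zero_ne hμ.le⟩ 0 (by positivity)]
    apply ENNReal.ofReal_le_ofReal
    refine (hN (2 * c * T) (by linarith)).trans ?_
    rw [Real.log_mul (by positivity) (by positivity)]
    have h4 := le_abs_self (Real.log (2 * c))
    have h5 := mul_le_mul_of_nonneg_left h4 (show 0 ≤ 6 * c * T by positivity)
    linarith

/-- **The upper bound for the number of zeros in the strip.** -/
theorem strip_upper {μ κ ε : ℝ} (hμ : 0 < μ) (hκ0 : 0 ≤ κ) (hκ : κ < 1) (hε : 0 < ε) :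
    ∀ᶠ T : ℝ in atTop, zc (XiM μ) {z | |z.re| ≤ T ∧ |z.im| ≤ κ * μ * Real.log T} ≤
      ENNReal.ofReal ((κ / Real.pi + ε) * T * Real.log T) := by
  obtain ⟨δ, hδ0, hδ1, hδ2, hδ3⟩ : ∃ δ : ℝ, 0 < δ ∧ δ ≤ 1 / 4 ∧ κ + 3 * δ < 1 ∧ 5 * δ ≤ ε := by
    refine ⟨min (1 / 4) (min ((1 - κ) / 4) (ε / 5)), ?_, min_le_left _ _, ?_, ?_⟩
    · refine lt_min (by norm_num) (lt_min ?_ (by positivity))
      have : 0 < 1 - κ := by linarith
      positivity
    · have : min (1 / 4) (min ((1 - κ) / 4) (ε / 5)) ≤ (1 - κ) / 4 :=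
        (min_le_right _ _).trans (min_le_left _ _)
      linarith
    · have : min (1 / 4) (min ((1 - κ) / 4) (ε / 5)) ≤ ε / 5 :=
        (min_le_right _ _).trans (min_le_right _ _)
      linarith
  obtain ⟨J, hJ2, hJ⟩ := exists_pow_le hδ0
  obtain ⟨η, hη⟩ : ∃ η, η = Real.pi * δ ^ 3 * μ ^ 2 / 4 := ⟨_, rfl⟩
  have hη0 : 0 < η := by rw [hη]; positivity
  obtain ⟨T₂, hT₂1, hnn⟩ := dfc_FX_nonneg hμ
  have h2J : (4:ℝ) ≤ 2 ^ J := by
    calc (4:ℝ) = 2 ^ 2 := by norm_num
      _ ≤ 2 ^ J := pow_le_pow_right₀ (by norm_num) hJ2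
  have hJ0 : (0:ℝ) < 2 ^ J := by positivity
  have hcen := central_few (κ := κ) hμ (c := 3 / 2 ^ J) (by positivity)
  filter_upwards [defect_long hμ J (κ + δ) η (by linarith) (by linarith) hη0, hcen,
    eventually_ge_atTop T₂, eventually_ge_atTop (4 * 2 ^ J), ev_log_small (c := 1 / (2 ^ J * (δ * μ * 2)))
    (by positivity), ev_log (|Real.log (2 * (3 / 2 ^ J))| * (72 / (2 ^ J * δ)) + 1)] with
    T e1 e2 e3 e4 e5 e6
  have hT0 : 0 < T := by
    have : 0 < 4 * (2:ℝ) ^ J := by positivity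
    linarith
  set l := Real.log T with hl
  obtain ⟨a₀, ha₀⟩ : ∃ a₀, a₀ = T / 2 ^ J := ⟨_, rfl⟩
  obtain ⟨r, hr⟩ : ∃ r, r = δ * μ * l := ⟨_, rfl⟩
  have hl1 : 1 ≤ l := by
    have : 0 ≤ |Real.log (2 * (3 / 2 ^ J))| * (72 / (2 ^ J * δ)) := by positivity
    linarith
  have hl0 : 0 < l := by linarith
  have hr0 : 0 < r := by rw [hr]; positivity
  have ha4 : 4 ≤ a₀ := by
    rw [ha₀, le_div_iff₀ hJ0]
    linarith
  have haT : 4 * a₀ ≤ T := by
    rw [ha₀]
    have : 4 * (T / 2 ^ J) = 4 / 2 ^ J * T := by ring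
    rw [this]
    have h1 : 4 / (2:ℝ) ^ J ≤ 1 := by rw [div_le_one hJ0]; exact h2J
    have := mul_le_mul_of_nonneg_right h1 hT0.le
    linarith
  have hra : 2 * r ≤ a₀ := by
    rw [ha₀, hr]
    calc 2 * (δ * μ * l) = (δ * μ * 2) * l := by ring
      _ ≤ (δ * μ * 2) * (1 / (2 ^ J * (δ * μ * 2)) * T) := mul_le_mul_of_nonneg_left e5 (by positivity)
      _ = _ := by field_simp
  have hrδ : 2 * r ≤ δ * T := by
    refine hra.trans ?_
    rw [ha₀, div_le_iff₀ hJ0]
    have h1 : 24 ≤ δ * 2 ^ J := by rwa [div_le_iff₀ hJ0] at hJ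
    have h2 := mul_le_mul_of_nonneg_right h1 hT0.le
    linarith
  -- the main part
  have hF := differentiable_FX (μ := μ) hμ.le
  have hmain := count_le hF (FX_ne hμ.le) (K := 4 * l) hμ (r := r) (a := 2 * a₀) (b := T + r)
    (h := κ * μ * l + r) hr0 (by linarith) (by positivity) (by
      rintro z ⟨b1, b2, b3⟩
      exact hnn T e3 z (by linarith) (by linarith))
  rw [show T + r - r = T by ring, show κ * μ * l + r - r = κ * μ * l by ring, zc_FX hμ.le] at hmain
  have hmain2 : zc (XiM μ) (sbox (3 * a₀) T (κ * μ * l)) ≤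
      ENNReal.ofReal ((κ / (2 * Real.pi) + 3 / 2 * δ) * T * l) := by
    have g1 : zc (XiM μ) (sbox (3 * a₀) T (κ * μ * l)) ≤
        zc (XiM μ) (sbox (2 * a₀ + r) T (κ * μ * l)) := by
      apply zc_mono
      rintro z ⟨b1, b2, b3⟩
      exact ⟨b1, by linarith, b3⟩
    refine g1.trans ?_
    have g2 : ∫⁻ c in sbox (2 * a₀) (T + r) (κ * μ * l + r), Dfc (FX μ) μ (4 * l) c ≤
        ENNReal.ofReal (η * T * l ^ 3) := by
      refine (lintegral_mono_set ?_).trans e1
      rintro z ⟨b1, b2, b3⟩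
      refine ⟨?_, ?_, ?_⟩
      · rw [hr] at b1
        linarith
      · rw [← ha₀]; linarith
      · linarith
    have g3 : ENNReal.ofReal (Real.pi * r ^ 2 / 2) * zc (XiM μ) (sbox (2 * a₀ + r) T (κ * μ * l)) ≤
        ENNReal.ofReal (Real.pi * r ^ 2 / 2) *
          ENNReal.ofReal ((κ / (2 * Real.pi) + 3 / 2 * δ) * T * l) := by
      refine hmain.trans ((add_le_add g2 le_rfl).trans ?_)
      have hnn1 : 0 ≤ (T + r - 2 * a₀) * (2 * (κ * μ * l + r)) * (r ^ 2 / (8 * μ)) := by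
        have : 0 ≤ T + r - 2 * a₀ := by linarith
        positivity
      rw [← ENNReal.ofReal_add (by positivity) hnn1, ← ENNReal.ofReal_mul (by positivity)]
      apply ENNReal.ofReal_le_ofReal
      have g4 : (T + r - 2 * a₀) * (2 * (κ * μ * l + r)) * (r ^ 2 / (8 * μ)) ≤
          ((1 + δ) * T) * (2 * (κ * μ * l + r)) * (r ^ 2 / (8 * μ)) := by
        gcongr
        linarith
      refine (add_le_add le_rfl g4).trans ?_
      rw [hη, hr]
      have hpi := Real.pi_gt_three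
      have g5 : Real.pi * (δ * μ * l) ^ 2 / 2 * ((κ / (2 * Real.pi) + 3 / 2 * δ) * T * l) =
          (δ ^ 2 * μ ^ 2 * l ^ 2 * T * l) * (κ / 4 + 3 / 4 * Real.pi * δ) := by
        field_simp
        ring
      have g6 : Real.pi * δ ^ 3 * μ ^ 2 / 4 * T * l ^ 3 +
          (1 + δ) * T * (2 * (κ * μ * l + δ * μ * l)) * ((δ * μ * l) ^ 2 / (8 * μ)) =
          (δ ^ 2 * μ ^ 2 * l ^ 2 * T * l) * (Real.pi * δ / 4 + (1 + δ) * (κ + δ) / 4) := by
        field_simp
        ring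
      rw [g5, g6]
      apply mul_le_mul_of_nonneg_left _ (by positivity)
      nlinarith
    exact (ENNReal.mul_le_mul_iff_right (by
      rw [Ne, ENNReal.ofReal_eq_zero, not_le]; positivity) ENNReal.ofReal_ne_top).1 g3
  -- the central part
  have hcen2 : zc (XiM μ) (sbox 0 (3 * a₀) (κ * μ * l)) ≤ ENNReal.ofReal (δ * T * l) := by
    have g1 : 3 * a₀ = 3 / 2 ^ J * T := by rw [ha₀]; ring
    rw [g1]
    refine e2.trans (ENNReal.ofReal_le_ofReal ?_)
    have g2 : 6 * (3 / 2 ^ J) * T * l ≤ 18 / 24 * δ * T * l := by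
      have : 6 * (3 / 2 ^ J) = 18 / 24 * (24 / (2:ℝ) ^ J) := by ring
      rw [this]
      gcongr
    have g3 : 6 * (3 / 2 ^ J) * |Real.log (2 * (3 / 2 ^ J))| * T ≤ 1 / 4 * δ * T * l := by
      have h1 : |Real.log (2 * (3 / 2 ^ J))| * (72 / (2 ^ J * δ)) ≤ l := by linarith
      have h2 := mul_le_mul_of_nonneg_left h1 (show 0 ≤ δ / 4 * T by positivity)
      have h3 : δ / 4 * T * (|Real.log (2 * (3 / 2 ^ J))| * (72 / (2 ^ J * δ))) =
          6 * (3 / 2 ^ J) * |Real.log (2 * (3 / 2 ^ J))| * T := by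
        field_simp
        ring
      rw [h3] at h2
      linarith
    linarith
  -- the sum
  have hhalf : zc (XiM μ) (sbox 0 T (κ * μ * l)) ≤
      ENNReal.ofReal ((κ / (2 * Real.pi) + 5 / 2 * δ) * T * l) := by
    calc zc (XiM μ) (sbox 0 T (κ * μ * l)) ≤
        zc (XiM μ) (sbox 0 (3 * a₀) (κ * μ * l) ∪ sbox (3 * a₀) T (κ * μ * l)) := by
          apply zc_mono
          rintro z ⟨b1, b2, b3⟩
          rcases le_total z.re (3 * a₀) with h5 | h5
          · exact Or.inl ⟨b1, b2, h5⟩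
          · exact Or.inr ⟨b1, h5, b3⟩
      _ ≤ zc (XiM μ) (sbox 0 (3 * a₀) (κ * μ * l)) + zc (XiM μ) (sbox (3 * a₀) T (κ * μ * l)) :=
          zc_union_le _ _ _
      _ ≤ ENNReal.ofReal (δ * T * l) + ENNReal.ofReal ((κ / (2 * Real.pi) + 3 / 2 * δ) * T * l) :=
          add_le_add hcen2 hmain2
      _ = _ := by
          rw [← ENNReal.ofReal_add (by positivity) (by positivity)]
          congr 1
          ring
  calc zc (XiM μ) {z | |z.re| ≤ T ∧ |z.im| ≤ κ * μ * l} ≤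
      zc (XiM μ) (sbox 0 T (κ * μ * l) ∪ (fun z => -z) '' (sbox 0 T (κ * μ * l))) := by
        apply zc_mono
        rintro z ⟨h1, h2⟩
        rw [abs_le] at h1
        rcases le_total 0 z.re with h5 | h5
        · exact Or.inl ⟨h2, h5, h1.2⟩
        · refine Or.inr ⟨-z, ⟨?_, ?_, ?_⟩, neg_neg z⟩
          · simpa using h2
          · simpa using h5
          · simp only [Complex.neg_re]; linarith
    _ ≤ zc (XiM μ) (sbox 0 T (κ * μ * l)) +
        zc (XiM μ) ((fun z => -z) '' (sbox 0 T (κ * μ * l))) := zc_union_le _ _ _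
    _ = zc (XiM μ) (sbox 0 T (κ * μ * l)) + zc (XiM μ) (sbox 0 T (κ * μ * l)) := by
        rw [zc_neg (XiM_neg μ)]
    _ ≤ ENNReal.ofReal ((κ / (2 * Real.pi) + 5 / 2 * δ) * T * l) +
        ENNReal.ofReal ((κ / (2 * Real.pi) + 5 / 2 * δ) * T * l) := add_le_add hhalf hhalf
    _ ≤ _ := by
        rw [← ENNReal.ofReal_add (by positivity) (by positivity)]
        apply ENNReal.ofReal_le_ofReal
        have h1 : (κ / (2 * Real.pi) + 5 / 2 * δ) * T * l + (κ / (2 * Real.pi) + 5 / 2 * δ) * T * l =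
            (κ / Real.pi + 5 * δ) * T * l := by
          field_simp
          ring
        rw [h1]
        gcongr

/-- **The lower bound for the number of zeros in the strip.** -/
theorem strip_lower {μ κ ε : ℝ} (hμ : 0 < μ) (hκ : κ < 1) (hε : 0 < ε) :
    ∀ᶠ T : ℝ in atTop, ENNReal.ofReal ((κ / Real.pi - ε) * T * Real.log T) ≤
      zc (XiM μ) {z | |z.re| ≤ T ∧ |z.im| ≤ κ * μ * Real.log T} := by
  rcases le_or_gt (κ / Real.pi - ε) 0 with hneg | hpos
  · filter_upwards [eventually_ge_atTop 1] with T hT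
    rw [ENNReal.ofReal_eq_zero.2]
    · exact zero_le
    · have := Real.log_nonneg hT
      rw [mul_assoc]
      exact mul_nonpos_of_nonpos_of_nonneg hneg (by positivity)
  have hpi := Real.pi_gt_three
  have hpi0 := Real.pi_pos
  have hκε : 3 * ε < κ := by
    have h1 : ε < κ / Real.pi := by linarith
    rw [lt_div_iff₀ hpi0] at h1
    nlinarith
  have hκ0 : 0 < κ := by linarith
  obtain ⟨δ, hδ0, hδ1, hδ3⟩ : ∃ δ : ℝ, 0 < δ ∧ δ ≤ 1 / 4 ∧ 3 * δ ≤ ε := by
    refine ⟨min (1 / 4) (ε / 3), ?_, min_le_left _ _, ?_⟩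
    · exact lt_min (by norm_num) (by positivity)
    · have : min (1 / 4) (ε / 3) ≤ ε / 3 := min_le_right _ _
      linarith
  obtain ⟨J, hJ2, hJ⟩ := exists_pow_le hδ0
  obtain ⟨η, hη⟩ : ∃ η, η = Real.pi * δ ^ 3 * μ ^ 2 / 4 := ⟨_, rfl⟩
  have hη0 : 0 < η := by rw [hη]; positivity
  obtain ⟨T₂, hT₂1, hnn⟩ := dfc_FX_nonneg hμ
  have h2J : (4:ℝ) ≤ 2 ^ J := by
    calc (4:ℝ) = 2 ^ 2 := by norm_num
      _ ≤ 2 ^ J := pow_le_pow_right₀ (by norm_num) hJ2
  have hJ0 : (0:ℝ) < 2 ^ J := by positivity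
  filter_upwards [defect_long hμ J κ η hκ0.le hκ hη0,
    eventually_ge_atTop T₂, eventually_ge_atTop (4 * 2 ^ J),
    ev_log_small (c := 1 / (4 * μ)) (by positivity), ev_log 1] with T e1 e3 e4 e5 hl1
  have hT0 : 0 < T := by
    have : 0 < 4 * (2:ℝ) ^ J := by positivity
    linarith
  set l := Real.log T with hl
  obtain ⟨a₀, ha₀⟩ : ∃ a₀, a₀ = T / 2 ^ J := ⟨_, rfl⟩
  obtain ⟨r, hr⟩ : ∃ r, r = δ * μ * l := ⟨_, rfl⟩
  have hl0 : 0 < l := by linarith
  have hr0 : 0 < r := by rw [hr]; positivity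
  have ha4 : 4 ≤ a₀ := by
    rw [ha₀, le_div_iff₀ hJ0]
    linarith
  have haT : a₀ ≤ δ / 24 * T := by
    rw [ha₀, div_le_iff₀ hJ0]
    have h1 : 24 ≤ δ * 2 ^ J := by rwa [div_le_iff₀ hJ0] at hJ
    have h2 := mul_le_mul_of_nonneg_right h1 hT0.le
    linarith
  have hrδ : 4 * r ≤ δ * T := by
    rw [hr]
    calc 4 * (δ * μ * l) = (δ * (4 * μ)) * l := by ring
      _ ≤ (δ * (4 * μ)) * (1 / (4 * μ) * T) := mul_le_mul_of_nonneg_left e5 (by positivity)
      _ = _ := by field_simp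
  have hδT : δ * T ≤ 1 / 4 * T := mul_le_mul_of_nonneg_right hδ1 hT0.le
  have hF := differentiable_FX (μ := μ) hμ.le
  have hh0 : 0 ≤ κ * μ * l - r := by
    have h1 : 0 ≤ (κ - δ) * (μ * l) := mul_nonneg (by linarith) (by positivity)
    rw [hr]
    linarith
  have hmain := count_ge hF (FX_ne hμ.le) (K := 4 * l) hμ (r := r) (a := a₀ + r) (b := T - r)
    (h := κ * μ * l - r) hr0 (by linarith) hh0 (by
      rintro z ⟨b1, b2, b3⟩
      exact hnn T e3 z (by linarith) (by linarith))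
  rw [show a₀ + r - r = a₀ by ring, show T - r + r = T by ring,
    show κ * μ * l - r + r = κ * μ * l by ring, zc_FX hμ.le] at hmain
  have hmain2 : ENNReal.ofReal ((κ / (2 * Real.pi) - 3 / 2 * δ) * T * l) ≤
      zc (XiM μ) (sbox a₀ T (κ * μ * l)) := by
    have g2 : ∫⁻ c in sbox a₀ T (κ * μ * l), Dfc (FX μ) μ (4 * l) c ≤
        ENNReal.ofReal (η * T * l ^ 3) := by
      refine (lintegral_mono_set ?_).trans e1
      rintro z ⟨b1, b2, b3⟩
      exact ⟨b1, by rw [← ha₀]; exact b2, by linarith⟩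
    have g3 : ENNReal.ofReal (Real.pi * r ^ 2 / 2) *
          ENNReal.ofReal ((κ / (2 * Real.pi) - 3 / 2 * δ) * T * l) +
          ENNReal.ofReal (η * T * l ^ 3) ≤
        ENNReal.ofReal (Real.pi * r ^ 2 / 2) * zc (XiM μ) (sbox a₀ T (κ * μ * l)) +
          ENNReal.ofReal (η * T * l ^ 3) := by
      refine le_trans ?_ (hmain.trans (add_le_add le_rfl g2))
      have g4 : (1 - δ) * T * (2 * (κ * μ * l - r)) * (r ^ 2 / (8 * μ)) ≤
          (T - r - (a₀ + r)) * (2 * (κ * μ * l - r)) * (r ^ 2 / (8 * μ)) := by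
        gcongr
        linarith
      refine le_trans ?_ (ENNReal.ofReal_le_ofReal g4)
      have hεκ : 0 ≤ κ / (2 * Real.pi) - 3 / 2 * δ := by
        have h1 : κ / Real.pi = 2 * (κ / (2 * Real.pi)) := by field_simp
        rw [h1] at hpos
        linarith
      rw [← ENNReal.ofReal_mul (by positivity), ← ENNReal.ofReal_add (by positivity) (by positivity)]
      apply ENNReal.ofReal_le_ofReal
      rw [hη, hr]
      have g5 : Real.pi * (δ * μ * l) ^ 2 / 2 * ((κ / (2 * Real.pi) - 3 / 2 * δ) * T * l) +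
          Real.pi * δ ^ 3 * μ ^ 2 / 4 * T * l ^ 3 =
          (δ ^ 2 * μ ^ 2 * l ^ 2 * T * l) * (κ / 4 - 1 / 2 * Real.pi * δ) := by
        field_simp
        ring
      have g6 : (1 - δ) * T * (2 * (κ * μ * l - δ * μ * l)) * ((δ * μ * l) ^ 2 / (8 * μ)) =
          (δ ^ 2 * μ ^ 2 * l ^ 2 * T * l) * ((1 - δ) * (κ - δ) / 4) := by
        field_simp
        ring
      rw [g5, g6]
      apply mul_le_mul_of_nonneg_left _ (by positivity)
      nlinarith
    have g7 := (ENNReal.add_le_add_iff_right ENNReal.ofReal_ne_top).1 g3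
    exact (ENNReal.mul_le_mul_iff_right (by
      rw [Ne, ENNReal.ofReal_eq_zero, not_le]; positivity) ENNReal.ofReal_ne_top).1 g7
  -- both sides
  have hdis : Disjoint (sbox a₀ T (κ * μ * l)) ((fun z => -z) '' (sbox a₀ T (κ * μ * l))) := by
    rw [Set.disjoint_left]
    rintro z ⟨b1, b2, b3⟩ ⟨w, ⟨c1, c2, c3⟩, hw⟩
    have : z.re = -w.re := by rw [← hw]; simp
    linarith
  calc ENNReal.ofReal ((κ / Real.pi - ε) * T * l) ≤
      ENNReal.ofReal ((κ / (2 * Real.pi) - 3 / 2 * δ) * T * l) +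
        ENNReal.ofReal ((κ / (2 * Real.pi) - 3 / 2 * δ) * T * l) := by
        have hεκ : 0 ≤ κ / (2 * Real.pi) - 3 / 2 * δ := by
          have h1 : κ / Real.pi = 2 * (κ / (2 * Real.pi)) := by field_simp
          rw [h1] at hpos
          linarith
        rw [← ENNReal.ofReal_add (by positivity) (by positivity)]
        apply ENNReal.ofReal_le_ofReal
        have h1 : (κ / (2 * Real.pi) - 3 / 2 * δ) * T * l + (κ / (2 * Real.pi) - 3 / 2 * δ) * T * l =
            (κ / Real.pi - 3 * δ) * T * l := by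
          field_simp
          ring
        rw [h1]
        gcongr
    _ ≤ zc (XiM μ) (sbox a₀ T (κ * μ * l)) +
        zc (XiM μ) ((fun z => -z) '' (sbox a₀ T (κ * μ * l))) := by
        rw [zc_neg (XiM_neg μ)]
        exact add_le_add hmain2 hmain2
    _ = zc (XiM μ) (sbox a₀ T (κ * μ * l) ∪ (fun z => -z) '' (sbox a₀ T (κ * μ * l))) :=
        (zc_union_disjoint _ hdis).symm
    _ ≤ _ := by
        apply zc_mono
        rintro z (⟨b1, b2, b3⟩ | ⟨w, ⟨c1, c2, c3⟩, hw⟩)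
        · exact ⟨abs_le.2 ⟨by linarith, b3⟩, b1⟩
        · have h1 : z = -w := hw.symm
          rw [h1]
          simp only [Set.mem_ofPred_eq, Complex.neg_re, Complex.neg_im, abs_neg]
          exact ⟨abs_le.2 ⟨by linarith, c3⟩, c1⟩

end Pool.Agent.T6.H61.KK
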