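import Pool.Agent.T6.H61.KK.UFin

set_option autoImplicit false

/-!
# The law of the imaginary parts of the zeros of `Ξ_{-μ}`: limits
-/

namespace Pool.Agent.T6.H61.KK

open Complex MeasureTheory Filter Topology Metric Pool.Agent.Helper242.KK Pool.Agent.Y971.KK

/-- lower bound for the disc and the strip, every `κ` -/
theorem law_lower {μ κ ε : ℝ} (hμ : 0 < μ) (hε : 0 < ε) :
    ∀ᶠ T : ℝ in atTop, ENNReal.ofReal ((min κ 1 / Real.pi - ε) * T * Real.log T) ≤
      zc (XiM μ) {z | ‖z‖ ≤ T ∧ |z.im| ≤ κ * μ * Real.log T} := by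
  have hpi := Real.pi_gt_three
  have hpi0 := Real.pi_pos
  rcases lt_or_ge κ 1 with hκ | hκ
  · rw [min_eq_left hκ.le]
    exact disc_strip_lower hμ hκ hε
  · rw [min_eq_right hκ]
    filter_upwards [disc_strip_lower (κ := 1 - ε) (ε := ε / 2) hμ (by linarith) (by positivity),
      eventually_ge_atTop 1] with T h1 h2
    have hl : 0 ≤ Real.log T := Real.log_nonneg h2
    refine le_trans (ENNReal.ofReal_le_ofReal ?_) (h1.trans (zc_mono _ ?_))
    · have h3 : 1 / Real.pi - ε ≤ (1 - ε) / Real.pi - ε / 2 := by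
        have h4 : ε / Real.pi ≤ ε / 2 := by gcongr; linarith
        have h5 : (1 - ε) / Real.pi = 1 / Real.pi - ε / Real.pi := by ring
        rw [h5]
        linarith
      gcongr
    · rintro z ⟨a1, a2⟩
      refine ⟨a1, a2.trans ?_⟩
      gcongr
      linarith

/-- upper bound for the disc and the strip, every `κ ≥ 0` -/
theorem law_upper {μ κ ε : ℝ} (hμ : 0 < μ) (hκ0 : 0 ≤ κ) (hε : 0 < ε) :
    ∀ᶠ T : ℝ in atTop, zc (XiM μ) {z | ‖z‖ ≤ T ∧ |z.im| ≤ κ * μ * Real.log T} ≤
      ENNReal.ofReal ((min κ 1 / Real.pi + ε) * T * Real.log T) := by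
  rcases lt_or_ge κ 1 with hκ | hκ
  · rw [min_eq_left hκ.le]
    filter_upwards [strip_upper hμ hκ0 hκ hε] with T h1
    refine (zc_mono _ ?_).trans h1
    rintro z ⟨a1, a2⟩
    exact ⟨(Complex.abs_re_le_norm z).trans a1, a2⟩
  · rw [min_eq_right hκ]
    filter_upwards [ball_upper hμ hε] with T h1
    refine (zc_mono _ ?_).trans h1
    rintro z ⟨a1, a2⟩
    rwa [mem_closedBall, dist_zero_right]

/-- upper bound for the rectangle, every `κ ≥ 0` -/
theorem law_upper_rect {μ κ ε : ℝ} (hμ : 0 < μ) (hκ0 : 0 ≤ κ) (hε : 0 < ε) :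
    ∀ᶠ T : ℝ in atTop, zc (XiM μ) {z | |z.re| ≤ T ∧ |z.im| ≤ κ * μ * Real.log T} ≤
      ENNReal.ofReal ((min κ 1 / Real.pi + ε) * T * Real.log T) := by
  have hpi := Real.pi_gt_three
  have hpi0 := Real.pi_pos
  rcases lt_or_ge κ 1 with hκ | hκ
  · rw [min_eq_left hκ.le]
    exact strip_upper hμ hκ0 hκ hε
  · rw [min_eq_right hκ]
    have hκp : 0 < κ := by linarith
    obtain ⟨δ, hδ0, hδ1, hδ2⟩ : ∃ δ : ℝ, 0 < δ ∧ δ ≤ 1 ∧ 3 * δ ≤ ε := by
      refine ⟨min 1 (ε / 3), lt_min one_pos (by positivity), min_le_left _ _, ?_⟩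
      have : min 1 (ε / 3) ≤ ε / 3 := min_le_right _ _
      linarith
    have hten : Tendsto (fun T : ℝ => (1 + δ) * T) atTop atTop :=
      tendsto_id.const_mul_atTop (by linarith)
    filter_upwards [hten.eventually (ball_upper (ε := δ / 2) hμ (by positivity)),
      ev_log_small (c := δ / (κ * μ)) (by positivity), eventually_ge_atTop 1,
      ev_log (2 * (1 / Real.pi + δ / 2) / (ε / 2) + 1)] with T h1 h2 h3 h4
    have hT0 : 0 < T := by linarith
    have hq : 0 ≤ 2 * (1 / Real.pi + δ / 2) / (ε / 2) := by positivity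
    have hl : 1 ≤ Real.log T := by linarith
    have h6 : κ * μ * Real.log T ≤ δ * T := by
      calc κ * μ * Real.log T ≤ κ * μ * (δ / (κ * μ) * T) := by gcongr
        _ = δ * T := by field_simp
    refine (zc_mono _ ?_).trans (h1.trans (ENNReal.ofReal_le_ofReal ?_))
    · rintro z ⟨a1, a2⟩
      rw [mem_closedBall, dist_zero_right]
      refine (Complex.norm_le_abs_re_add_abs_im _).trans ?_
      linarith
    · rw [Real.log_mul (by linarith) hT0.ne']
      have h7 : Real.log (1 + δ) ≤ δ := by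
        have := Real.log_le_sub_one_of_pos (show 0 < 1 + δ by linarith)
        linarith
      have h8 : 2 * (1 / Real.pi + δ / 2) / (ε / 2) ≤ Real.log T := by linarith
      rw [div_le_iff₀ (by positivity)] at h8
      have h9 : 1 / Real.pi ≤ 1 / 3 := by gcongr
      have h10 : 0 < 1 / Real.pi := by positivity
      have h11 : (1 / Real.pi + δ / 2) * (1 + δ) * (Real.log (1 + δ) + Real.log T) ≤
          (1 / Real.pi + ε) * Real.log T := by
        have h12 : (1 / Real.pi + δ / 2) * (1 + δ) * (Real.log (1 + δ) + Real.log T) ≤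
            (1 / Real.pi + δ / 2) * (1 + δ) * (1 + Real.log T) := by
          gcongr
          linarith
        refine h12.trans ?_
        have h13 : (1 / Real.pi + δ / 2) * (1 + δ) ≤ 1 / Real.pi + ε / 2 := by
          nlinarith
        have h14 : (1 / Real.pi + δ / 2) * (1 + δ) ≤ 2 * (1 / Real.pi + δ / 2) := by
          nlinarith
        nlinarith
      calc (1 / Real.pi + δ / 2) * ((1 + δ) * T) * (Real.log (1 + δ) + Real.log T) =
          T * ((1 / Real.pi + δ / 2) * (1 + δ) * (Real.log (1 + δ) + Real.log T)) := by ring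
        _ ≤ T * ((1 / Real.pi + ε) * Real.log T) := mul_le_mul_of_nonneg_left h11 hT0.le
        _ = _ := by ring

/-- from two-sided bounds to a limit -/
theorem tendsto_of_bounds {N : ℝ → ENNReal} {c : ℝ} (hc : 0 ≤ c)
    (h1 : ∀ ε : ℝ, 0 < ε → ∀ᶠ T : ℝ in atTop, ENNReal.ofReal ((c - ε) * T * Real.log T) ≤ N T)
    (h2 : ∀ ε : ℝ, 0 < ε → ∀ᶠ T : ℝ in atTop, N T ≤ ENNReal.ofReal ((c + ε) * T * Real.log T)) :
    Tendsto (fun T : ℝ => N T / ENNReal.ofReal (T * Real.log T)) atTop (𝓝 (ENNReal.ofReal c)) := by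
  rw [ENNReal.tendsto_nhds ENNReal.ofReal_ne_top]
  intro ε hε
  obtain ⟨δ, hδ0, hδ⟩ : ∃ δ : ℝ, 0 < δ ∧ ENNReal.ofReal δ ≤ ε := by
    rcases eq_or_ne ε ⊤ with h | h
    · exact ⟨1, one_pos, by rw [h]; exact le_top⟩
    · exact ⟨ε.toReal, ENNReal.toReal_pos hε.ne' h, (ENNReal.ofReal_toReal h).le⟩
  filter_upwards [h1 δ hδ0, h2 δ hδ0, eventually_ge_atTop 3] with T e1 e2 e3
  have hl : 0 < Real.log T := Real.log_pos (by linarith)
  have hTl : 0 < T * Real.log T := by positivity
  have hne : ENNReal.ofReal (T * Real.log T) ≠ 0 := by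
    rw [Ne, ENNReal.ofReal_eq_zero, not_le]; exact hTl
  rw [Set.mem_Icc]
  constructor
  · rw [ENNReal.le_div_iff_mul_le (Or.inl hne) (Or.inl ENNReal.ofReal_ne_top)]
    refine le_trans ?_ e1
    calc (ENNReal.ofReal c - ε) * ENNReal.ofReal (T * Real.log T) ≤
        ENNReal.ofReal (c - δ) * ENNReal.ofReal (T * Real.log T) := by
          gcongr
          rw [ENNReal.ofReal_sub _ hδ0.le]
          exact tsub_le_tsub_left hδ _
      _ = ENNReal.ofReal ((c - δ) * T * Real.log T) := by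
          rw [← ENNReal.ofReal_mul' hTl.le]
          congr 1
          ring
  · refine ENNReal.div_le_of_le_mul ?_
    refine e2.trans ?_
    calc ENNReal.ofReal ((c + δ) * T * Real.log T) =
        ENNReal.ofReal (c + δ) * ENNReal.ofReal (T * Real.log T) := by
          rw [← ENNReal.ofReal_mul (by positivity)]
          congr 1
          ring
      _ ≤ (ENNReal.ofReal c + ε) * ENNReal.ofReal (T * Real.log T) := by
          gcongr
          rw [ENNReal.ofReal_add hc hδ0.le]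
          gcongr

/-- the number of zeros in discs -/
theorem law_ball {μ : ℝ} (hμ : 0 < μ) :
    Tendsto (fun T : ℝ => zc (XiM μ) {z | ‖z‖ ≤ T} / ENNReal.ofReal (T * Real.log T)) atTop
      (𝓝 (ENNReal.ofReal (1 / Real.pi))) := by
  refine tendsto_of_bounds (by positivity) (fun ε hε => ?_) fun ε hε => ?_
  · filter_upwards [law_lower (κ := 1) hμ hε] with T h1
    rw [min_self] at h1
    exact h1.trans (zc_mono _ fun z hz => hz.1)
  · filter_upwards [ball_upper hμ hε] with T h1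
    refine (zc_mono _ ?_).trans h1
    intro z hz
    rwa [mem_closedBall, dist_zero_right]

/-- the number of zeros in discs, of imaginary part at most `κ μ log T` -/
theorem law_disc {μ κ : ℝ} (hμ : 0 < μ) (hκ : 0 ≤ κ) :
    Tendsto (fun T : ℝ => zc (XiM μ) {z | ‖z‖ ≤ T ∧ |z.im| ≤ κ * μ * Real.log T} /
      ENNReal.ofReal (T * Real.log T)) atTop (𝓝 (ENNReal.ofReal (min κ 1 / Real.pi))) :=
  tendsto_of_bounds (by positivity) (fun _ hε => law_lower hμ hε) fun _ hε => law_upper hμ hκ hε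

/-- the number of zeros in rectangles, of imaginary part at most `κ μ log T` -/
theorem law_rect {μ κ : ℝ} (hμ : 0 < μ) (hκ : 0 ≤ κ) :
    Tendsto (fun T : ℝ => zc (XiM μ) {z | |z.re| ≤ T ∧ |z.im| ≤ κ * μ * Real.log T} /
      ENNReal.ofReal (T * Real.log T)) atTop (𝓝 (ENNReal.ofReal (min κ 1 / Real.pi))) := by
  refine tendsto_of_bounds (by positivity) (fun ε hε => ?_) fun _ hε => law_upper_rect hμ hκ hε
  filter_upwards [law_lower (κ := κ) hμ hε] with T h1
  refine h1.trans (zc_mono _ ?_)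
  rintro z ⟨a1, a2⟩
  exact ⟨(Complex.abs_re_le_norm z).trans a1, a2⟩

/-- the proportion of the zeros in discs -/
theorem law_ratio {μ κ : ℝ} (hμ : 0 < μ) (hκ : 0 ≤ κ) :
    Tendsto (fun T : ℝ => zc (XiM μ) {z | ‖z‖ ≤ T ∧ |z.im| ≤ κ * μ * Real.log T} /
      zc (XiM μ) {z | ‖z‖ ≤ T}) atTop (𝓝 (ENNReal.ofReal (min κ 1))) := by
  have h1 := law_disc hμ hκ
  have h2 := law_ball hμ
  have hπ : (0:ℝ) < 1 / Real.pi := by positivity
  have h3 := ENNReal.Tendsto.div h1 (Or.inr (by
    rw [Ne, ENNReal.ofReal_eq_zero, not_le]; exact hπ)) h2 (Or.inl ENNReal.ofReal_ne_top)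
  have h4 : ENNReal.ofReal (min κ 1 / Real.pi) / ENNReal.ofReal (1 / Real.pi) =
      ENNReal.ofReal (min κ 1) := by
    rw [← ENNReal.ofReal_div_of_pos hπ]
    congr 1
    field_simp
  rw [h4] at h3
  refine h3.congr' ?_
  filter_upwards [eventually_ge_atTop 3] with T hT
  have hl : 0 < Real.log T := Real.log_pos (by linarith)
  have hTl : 0 < T * Real.log T := by positivity
  have hne : ENNReal.ofReal (T * Real.log T) ≠ 0 := by
    rw [Ne, ENNReal.ofReal_eq_zero, not_le]; exact hTl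
  have hdiv : ∀ a b c : ENNReal, c ≠ 0 → c ≠ ⊤ → a / c / (b / c) = a / b := by
    intro a b c hc0 hct
    have hc1 : c⁻¹ ≠ 0 := ENNReal.inv_ne_zero.2 hct
    have hc2 : c⁻¹ ≠ ⊤ := ENNReal.inv_ne_top.2 hc0
    rw [div_eq_mul_inv a c, div_eq_mul_inv b c, ENNReal.mul_div_mul_right a b hc1 hc2]
  exact hdiv _ _ _ hne ENNReal.ofReal_ne_top

end Pool.Agent.T6.H61.KK
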