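import Pool.Agent.T6.H61.KK.SMain

/-!
# For every `λ < 0` almost all zeros of `Ξ_λ` leave every horizontal strip, at logarithmic speed
-/

set_option autoImplicit false

namespace Pool.Agent.T6.H61.KK.ZerosLeaveStrips

open Filter Topology MeasureTheory

/-- The kernel `Φ(t) = 2 ∑_{n ≥ 1} (2π²n⁴e^{9t/2} - 3πn²e^{5t/2}) e^{-πn²e^{2t}}`. -/
noncomputable def Phi (t : ℝ) : ℝ :=
  2 * ∑' n : ℕ+, (2 * Real.pi ^ 2 * (n : ℝ) ^ 4 * Real.exp (9 * t / 2) -
    3 * Real.pi * (n : ℝ) ^ 2 * Real.exp (5 * t / 2)) *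
      Real.exp (-(Real.pi * (n : ℝ) ^ 2 * Real.exp (2 * t)))

/-- The entire function `Ξ_λ(z) = ∫_{-∞}^{∞} Φ(t) e^{λt²} e^{izt} dt`. -/
noncomputable def Xi (lam : ℝ) (z : ℂ) : ℂ :=
  ∫ t : ℝ, ((Phi t : ℝ) : ℂ) * Complex.exp ((lam : ℂ) * (t : ℂ) ^ 2) *
    Complex.exp (Complex.I * z * (t : ℂ))

/-- The number of zeros of `f` in `S`, counted with multiplicity (an element of `[0, ∞]`):
the sum over the points of `S` of the order of vanishing of `f`. -/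
noncomputable def zeroCount (f : ℂ → ℂ) (S : Set ℂ) : ENNReal :=
  ∑' z : S, ((analyticOrderAt f (z : ℂ) : ℕ∞) : ENNReal)

lemma Phi_eq (t : ℝ) : Phi t = Pool.Agent.Helper242.KK.Ph t := by
  unfold Phi Pool.Agent.Helper242.KK.Ph Pool.Agent.Helper242.RK.Phi
  congr 1
  rw [tsum_pnat_eq_tsum_succ (f := fun n : ℕ => (2 * Real.pi ^ 2 * (n : ℝ) ^ 4 *
    Real.exp (9 * t / 2) - 3 * Real.pi * (n : ℝ) ^ 2 * Real.exp (5 * t / 2)) *
      Real.exp (-(Real.pi * (n : ℝ) ^ 2 * Real.exp (2 * t))))]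
  refine tsum_congr fun n => ?_
  push_cast
  rw [show 9 * (t / 2) = 9 * t / 2 by ring, show 5 * (t / 2) = 5 * t / 2 by ring,
    show 4 * (t / 2) = 2 * t by ring]
  ring_nf

lemma Xi_eq (lam : ℝ) : Xi lam = Pool.Agent.Helper242.KK.XiM (-lam) := by
  funext z
  unfold Xi Pool.Agent.Helper242.KK.XiM Pool.Agent.Helper242.KK.FT Pool.Agent.Helper242.KK.wk
  refine integral_congr_ae (Eventually.of_forall fun t => ?_)
  simp only [Phi_eq]
  push_cast
  rw [neg_neg]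

lemma zeroCount_eq (f : ℂ → ℂ) (S : Set ℂ) :
    zeroCount f S = Pool.Agent.Helper242.KK.zc f S := rfl

/-- **Main theorem.** Let `λ < 0`. The number of zeros of `Ξ_λ` with `|Re z| ≤ T` is finite and
nonzero for all large `T`; for every `κ > 0` the proportion of those with `|Im z| ≤ κ log T` is at
most `180000 κ / |λ|` for all large `T`; and for every `A(T) = o(log T)` the proportion of those with
`|Im z| ≤ A(T)` tends to `0`. (`A = 0`: almost none of the zeros is real.) -/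
theorem result (lam : ℝ) (hlam : lam < 0) :
    (∀ᶠ T : ℝ in atTop, zeroCount (Xi lam) {z | |z.re| ≤ T} ≠ 0 ∧
      zeroCount (Xi lam) {z | |z.re| ≤ T} ≠ ⊤) ∧
    (∀ κ : ℝ, 0 < κ → ∀ᶠ T : ℝ in atTop,
      zeroCount (Xi lam) {z | |z.re| ≤ T ∧ |z.im| ≤ κ * Real.log T} ≤
        ENNReal.ofReal (180000 * (κ / |lam|)) * zeroCount (Xi lam) {z | |z.re| ≤ T}) ∧
    ∀ A : ℝ → ℝ, A =o[atTop] Real.log →
      Tendsto (fun T : ℝ => zeroCount (Xi lam) {z | |z.re| ≤ T ∧ |z.im| ≤ A T} /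
        zeroCount (Xi lam) {z | |z.re| ≤ T}) atTop (𝓝 0) := by
  have hμ : 0 < -lam := by linarith
  have habs : |lam| = -lam := abs_of_neg hlam
  have key : ∀ κ : ℝ, 0 < κ → ∀ᶠ T : ℝ in atTop,
      zeroCount (Xi lam) {z | |z.re| ≤ T ∧ |z.im| ≤ κ * Real.log T} ≤
        ENNReal.ofReal (180000 * (κ / |lam|)) * zeroCount (Xi lam) {z | |z.re| ≤ T} := by
    intro κ hκ
    rw [Xi_eq, habs]
    exact Pool.Agent.T6.H61.KK.strip_ratio hμ hκ
  have hfin : ∀ᶠ T : ℝ in atTop, zeroCount (Xi lam) {z | |z.re| ≤ T} ≠ 0 ∧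
      zeroCount (Xi lam) {z | |z.re| ≤ T} ≠ ⊤ := by
    rw [Xi_eq]
    obtain ⟨T₀, hT₀⟩ := Pool.Agent.Y971.KK.many_XiM hμ.le
    filter_upwards [eventually_ge_atTop T₀, eventually_ge_atTop 3] with T h1 h2
    refine ⟨fun h0 => ?_, (Pool.Agent.Y971.KK.zc_strip_lt_top hμ.le T).ne⟩
    have h3 := hT₀ T h1
    rw [zeroCount_eq] at h0
    rw [h0, nonpos_iff_eq_zero, ENNReal.ofReal_eq_zero] at h3
    have h4 : 0 < Real.log T := Real.log_pos (by linarith)
    have h5 : 0 < T * Real.log T / 3600 := by positivity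
    linarith
  refine ⟨hfin, key, fun A hA => ?_⟩
  rw [ENNReal.tendsto_nhds_zero]
  intro ε hε
  obtain ⟨δ, hδ0, hδ⟩ : ∃ δ : ℝ, 0 < δ ∧ ENNReal.ofReal δ ≤ ε := by
    rcases eq_or_ne ε ⊤ with h | h
    · exact ⟨1, one_pos, by rw [h]; exact le_top⟩
    · exact ⟨ε.toReal, ENNReal.toReal_pos hε.ne' h, (ENNReal.ofReal_toReal h).le⟩
  have hlam' : 0 < |lam| := abs_pos.2 hlam.ne
  have hκ : 0 < δ * |lam| / 180000 := by positivity
  have h1 := key (δ * |lam| / 180000) hκ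
  have h2 := hA.bound hκ
  filter_upwards [h1, h2, hfin, eventually_ge_atTop 1] with T e1 e2 e3 e4
  have hl : 0 ≤ Real.log T := Real.log_nonneg e4
  have e5 : 180000 * (δ * |lam| / 180000 / |lam|) = δ := by field_simp
  rw [e5] at e1
  refine ENNReal.div_le_of_le_mul ?_
  refine le_trans ?_ (e1.trans (mul_le_mul' hδ le_rfl))
  apply Pool.Agent.Helper242.KK.zc_mono
  rintro z ⟨hz1, hz2⟩
  refine ⟨hz1, hz2.trans ?_⟩
  rw [Real.norm_eq_abs, Real.norm_eq_abs, abs_of_nonneg hl] at e2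
  exact (le_abs_self _).trans e2

end Pool.Agent.T6.H61.KK.ZerosLeaveStrips
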